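import Mathlib

set_option autoImplicit false

namespace Pool.Agent.RotaP

/-- [KO, size 2] KOENIG: a `k`-regular bipartite graph is a union of `k` perfect matchings.  Proof: induction on `k`.
`k = 0`: all `Q i = ∅`.  Step: Hall's condition for `Q` (`Finset.all_card_le_biUnion_card_iff_exists_injective`):
for `s : Finset (Fin n)`, `(k+1) * s.card = number of pairs (i, j), i ∈ s, j ∈ Q i ≤ (k+1) * (s.biUnion Q).card`.
So there is an injective (hence bijective) `f` with `f i ∈ Q i`; remove it: `Q' i = (Q i).erase (f i)` is `k`-regular.  Use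
`Fin.cons` for the list of permutations. -/
theorem koenig (n k : ℕ) (Q : Fin n → Finset (Fin n)) (h1 : ∀ i, (Q i).card = k)
    (h2 : ∀ j, (Finset.univ.filter (fun i => j ∈ Q i)).card = k) :
    ∃ ρ : Fin k → Equiv.Perm (Fin n), ∀ i, Finset.univ.image (fun l => ρ l i) = Q i := by
  induction k generalizing Q with
  | zero =>
    refine ⟨fun l => l.elim0, fun i => ?_⟩
    rw [Finset.card_eq_zero.mp (h1 i)]
    ext y
    simp
  | succ k ih =>
    have hall : ∀ s : Finset (Fin n), s.card ≤ (s.biUnion Q).card := by
      intro s
      have h3 : ∑ i ∈ s, (Q i).card = s.card * (k + 1) := by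
        rw [Finset.sum_congr rfl (fun i _ => h1 i), Finset.sum_const, smul_eq_mul]
      have h4 : ∑ i ∈ s, (Q i).card = ∑ j ∈ s.biUnion Q, (s.filter (fun i => j ∈ Q i)).card := by
        have e1 : ∀ i ∈ s, (Q i).card = ∑ j ∈ s.biUnion Q, if j ∈ Q i then 1 else 0 := by
          intro i hi
          rw [← Finset.sum_filter, ← Finset.card_eq_sum_ones]
          congr 1
          ext j
          rw [Finset.mem_filter, Finset.mem_biUnion]
          exact ⟨fun h => ⟨⟨i, hi, h⟩, h⟩, fun h => h.2⟩
        rw [Finset.sum_congr rfl e1, Finset.sum_comm]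
        apply Finset.sum_congr rfl
        intro j _
        rw [← Finset.sum_filter, ← Finset.card_eq_sum_ones]
      have h5 : ∑ j ∈ s.biUnion Q, (s.filter (fun i => j ∈ Q i)).card ≤ (s.biUnion Q).card * (k + 1) := by
        calc ∑ j ∈ s.biUnion Q, (s.filter (fun i => j ∈ Q i)).card
            ≤ ∑ _j ∈ s.biUnion Q, (k + 1) := by
              apply Finset.sum_le_sum
              intro j _
              rw [← h2 j]
              exact Finset.card_le_card (Finset.filter_subset_filter _ (Finset.subset_univ s))
          _ = _ := by rw [Finset.sum_const, smul_eq_mul]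
      have h6 : s.card * (k + 1) ≤ (s.biUnion Q).card * (k + 1) := by
        rw [← h3, h4]; exact h5
      exact Nat.le_of_mul_le_mul_right h6 (Nat.succ_pos k)
    obtain ⟨f, hf, hfQ⟩ := (Finset.all_card_le_biUnion_card_iff_exists_injective Q).mp hall
    have hbij : Function.Bijective f := Finite.injective_iff_bijective.mp hf
    let e : Equiv.Perm (Fin n) := Equiv.ofBijective f hbij
    have he : ∀ i, e i = f i := fun i => rfl
    obtain ⟨ρ, hρ⟩ := ih (fun i => (Q i).erase (f i)) (by
      intro i
      have := Finset.card_erase_add_one (hfQ i)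
      rw [h1 i] at this
      omega) (by
      intro j
      have hj : f (e.symm j) = j := by rw [← he, Equiv.apply_symm_apply]
      have e2 : Finset.univ.filter (fun i => j ∈ (Q i).erase (f i)) =
          (Finset.univ.filter (fun i => j ∈ Q i)).erase (e.symm j) := by
        ext i
        simp only [Finset.mem_filter, Finset.mem_univ, true_and, Finset.mem_erase, ne_eq]
        constructor
        · rintro ⟨h3, h4⟩
          refine ⟨?_, h4⟩
          rintro rfl
          exact h3 hj.symm
        · rintro ⟨h3, h4⟩
          refine ⟨?_, h4⟩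
          intro h5
          apply h3
          rw [h5, ← he, Equiv.symm_apply_apply]
      rw [e2]
      have hmem : e.symm j ∈ Finset.univ.filter (fun i => j ∈ Q i) := by
        rw [Finset.mem_filter]
        refine ⟨Finset.mem_univ _, ?_⟩
        have := hfQ (e.symm j)
        rwa [hj] at this
      have := Finset.card_erase_add_one hmem
      rw [h2 j] at this
      omega)
    refine ⟨Fin.cons e ρ, fun i => ?_⟩
    ext y
    have h7 : (∃ l, ρ l i = y) ↔ y ∈ (Q i).erase (f i) := by
      rw [← hρ i, Finset.mem_image]
      simp
    simp only [Finset.mem_image, Finset.mem_univ, true_and, Fin.exists_fin_succ, Fin.cons_zero, Fin.cons_succ]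
    rw [h7, Finset.mem_erase, he]
    constructor
    · rintro (rfl | ⟨_, h8⟩)
      · exact hfQ i
      · exact h8
    · intro h8
      by_cases h9 : f i = y
      · exact Or.inl h9
      · exact Or.inr ⟨fun h => h9 h.symm, h8⟩

end Pool.Agent.RotaP
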