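import Pool.Agent.RotaP.Base

set_option autoImplicit false

namespace Pool.Agent.RotaP

/-- the rank function of a matroid on finite sets -/
noncomputable def ofM {α : Type*} [DecidableEq α] (M : Matroid α) : RkF α where
  r S := (M.eRk (S : Set α)).toNat
  r_empty := by simp
  r_mono := by
    intro S T h
    refine ENat.toNat_le_toNat (M.eRk_mono (by exact_mod_cast h)) ?_
    exact ne_of_lt ((M.eRk_le_encard _).trans_lt (Finset.finite_toSet T).encard_lt_top)
  r_insert := by
    intro x S
    have h1 := M.eRk_insert_le_add_one x (S : Set α)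
    have hS : M.eRk (S : Set α) ≠ ⊤ :=
      ne_of_lt ((M.eRk_le_encard _).trans_lt (Finset.finite_toSet S).encard_lt_top)
    obtain ⟨k, hk⟩ := ENat.ne_top_iff_exists.mp hS
    rw [Finset.coe_insert]
    rw [← hk] at h1 ⊢
    have h2 : (M.eRk (insert x (S : Set α))) ≤ ((k + 1 : ℕ) : ℕ∞) := by exact_mod_cast h1
    have h3 := ENat.toNat_le_toNat h2 (ENat.natCast_ne_top _)
    rw [ENat.toNat_natCast] at h3
    rw [ENat.toNat_natCast]
    exact h3
  r_sub := by
    intro S T
    have h1 := M.eRk_inter_add_eRk_union_le (S : Set α) (T : Set α)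
    have fin : ∀ U : Finset α, M.eRk (U : Set α) ≠ ⊤ := fun U =>
      ne_of_lt ((M.eRk_le_encard _).trans_lt (Finset.finite_toSet U).encard_lt_top)
    rw [← Finset.coe_inter, ← Finset.coe_union] at h1
    obtain ⟨k1, hk1⟩ := ENat.ne_top_iff_exists.mp (fin S)
    obtain ⟨k2, hk2⟩ := ENat.ne_top_iff_exists.mp (fin T)
    obtain ⟨k3, hk3⟩ := ENat.ne_top_iff_exists.mp (fin (S ∩ T))
    obtain ⟨k4, hk4⟩ := ENat.ne_top_iff_exists.mp (fin (S ∪ T))
    rw [← hk1, ← hk2, ← hk3, ← hk4] at h1 ⊢
    have h2 : k3 + k4 ≤ k1 + k2 := by exact_mod_cast h1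
    simp only [ENat.toNat_natCast]
    omega

theorem ofM_r {α : Type*} [DecidableEq α] (M : Matroid α) (S : Finset α) :
    (ofM M).r S = (M.eRk (S : Set α)).toNat := rfl

/-- [BA, size 2] an enumeration of a basis with `n` elements is a `Bas`. -/
theorem bas_of_range {α : Type*} [DecidableEq α] (M : Matroid α) (n : ℕ) (B : Set α) (hB : M.IsBase B)
    (hn : B.encard = (n : ℕ∞)) (a : Fin n → α) (ha : Set.range a = B) : Bas (ofM M) n a := by
  have hrank : M.eRank = (n : ℕ∞) := by rw [← hB.encard_eq_eRank, hn]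
  constructor
  · intro S
    rw [ofM_r]
    have h1 : M.eRk (S : Set α) ≤ (n : ℕ∞) := hrank ▸ M.eRk_le_eRank _
    have h2 := ENat.toNat_le_toNat h1 (ENat.natCast_ne_top n)
    rwa [ENat.toNat_natCast] at h2
  · rw [ofM_r, Finset.coe_image, Finset.coe_univ, Set.image_univ, ha, hB.indep.eRk_eq_encard, hn,
      ENat.toNat_natCast]

private theorem TR_enum {α : Type*} (n : ℕ) (B : Set α) (hn : B.encard = (n : ℕ∞)) :
    ∃ a : Fin n → α, Function.Injective a ∧ Set.range a = B := by
  have hfin : B.Finite := Set.finite_of_encard_eq_coe hn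
  have hcard : Nat.card B = n := by
    rw [Nat.card_coe_set_eq, Set.ncard_def, hn, ENat.toNat_natCast]
  have := hfin.to_subtype
  let e := Finite.equivFinOfCardEq hcard
  refine ⟨fun i => (e.symm i : α), ?_, ?_⟩
  · intro i j hij
    exact e.symm.injective (Subtype.ext hij)
  · ext x
    constructor
    · rintro ⟨i, rfl⟩
      exact (e.symm i).2
    · intro hx
      exact ⟨e ⟨x, hx⟩, by simp⟩

private theorem TR_inj {α : Type*} (M : Matroid α) {I : Set α} (hI : M.Indep I) {x y : α}
    (hx : x ∈ I) (hy : y ∈ I) (h : M.closure {x} = M.closure {y}) : x = y := by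
  have h1 := hI.closure_inter_eq_self_of_subset (J := {x}) (Set.singleton_subset_iff.mpr hx)
  have h2 : y ∈ M.closure {y} := M.mem_closure_of_mem (Set.mem_singleton y)
    (Set.singleton_subset_iff.mpr (hI.subset_ground hy))
  rw [← h] at h2
  have h3 : y ∈ M.closure {x} ∩ I := ⟨h2, hy⟩
  rw [h1] at h3
  exact h3.symm

/-- [TR, size 3] TRANSFER.  Proof: choose enumerations `a i : Fin n → α` with range `B i` (`n` elements); `H` gives permutations `σ i`
with `(ofM M).r (image (fun i => a (rep i) (σ i k))) = n` for all `k`.  For `i`, `j` let `φ i j ∈ B i` be parallel to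
`a (rep i) j` (`hpar`), so `M.closure {φ i j} = M.closure {a (rep i) j}`; `φ i` is injective (two elements of the basis `B (rep i)` with
equal closures are equal, `M.closure {x} = M.closure {y}`, `x ≠ y` contradicts independence), hence a bijection onto `B i`.
`T k = {φ i (σ i k) : i}`.  Its closure contains all `a (rep i) (σ i k)`, so `M.eRk (T k) ≥ n`, `(T k).encard ≤ n`, so `T k` is independent with
`n` elements, a basis (rank `n`).  `T k ∩ B i = {φ i (σ i k)}` since the `B i` are disjoint.  `T k ∩ T l`: a common element is in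
one `B i`, so `φ i (σ i k) = φ i (σ i l)`, `k = l`. -/
theorem transfer {α : Type*} [DecidableEq α] (M : Matroid α) (n : ℕ) (B : Fin n → Set α)
    (hB : ∀ i, M.IsBase (B i)) (hn : ∀ i, (B i).encard = (n : ℕ∞))
    (hd : ∀ i j, i ≠ j → Disjoint (B i) (B j)) (rep : Fin n → Fin n)
    (hpar : ∀ i, ∀ x ∈ B (rep i), ∃ y ∈ B i, M.closure {x} = M.closure {y})
    (H : ∀ a : Fin n → Fin n → α, (∀ i, Set.range (a i) = B i) → Arr (ofM M) n (fun i => a (rep i))) :
    ∃ T : Fin n → Set α, (∀ k, M.IsBase (T k)) ∧ (∀ k i, (T k ∩ B i).encard = 1) ∧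
      (∀ k l, k ≠ l → Disjoint (T k) (T l)) := by
  choose a hainj harange using fun i => TR_enum n (B i) (hn i)
  obtain ⟨σ, hσ⟩ := H a harange
  have hmem : ∀ i j, a i j ∈ B i := fun i j => by
    rw [← harange i]
    exact ⟨j, rfl⟩
  choose φ hφB hφ using fun i j => hpar i (a (rep i) j) (hmem (rep i) j)
  have hφinj : ∀ i, Function.Injective (φ i) := by
    intro i j j' hjj
    have h1 : M.closure {a (rep i) j} = M.closure {a (rep i) j'} := by
      rw [hφ i j, hφ i j', hjj]
    exact hainj _ (TR_inj M (hB (rep i)).indep (hmem _ _) (hmem _ _) h1)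
  have hrank : ∀ i : Fin n, M.eRank = (n : ℕ∞) := fun i => by
    rw [← (hB i).encard_eq_eRank, hn]
  refine ⟨fun k => Set.range (fun i => φ i (σ i k)), ?_, ?_, ?_⟩
  · intro k
    have hfin : (Set.range (fun i => φ i (σ i k))).Finite := Set.finite_range _
    have hE : Set.range (fun i => φ i (σ i k)) ⊆ M.E := by
      rintro x ⟨i, rfl⟩
      exact (hB i).subset_ground (hφB i _)
    have h1 : (n : ℕ∞) ≤ M.eRk (Set.range (fun i => a (rep i) (σ i k))) := by
      have h2 := hσ k
      rw [ofM_r, Finset.coe_image, Finset.coe_univ, Set.image_univ] at h2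
      calc (n : ℕ∞) = (((M.eRk (Set.range (fun i => a (rep i) (σ i k)))).toNat : ℕ) : ℕ∞) := by
            exact congrArg (Nat.cast) h2.symm
        _ ≤ M.eRk (Set.range (fun i => a (rep i) (σ i k))) := ENat.natCast_toNat_le_self _
    have h3 : Set.range (fun i => a (rep i) (σ i k)) ⊆ M.closure (Set.range (fun i => φ i (σ i k))) := by
      rintro x ⟨i, rfl⟩
      have h4 : a (rep i) (σ i k) ∈ M.closure {a (rep i) (σ i k)} :=
        M.mem_closure_of_mem (Set.mem_singleton _)
          (Set.singleton_subset_iff.mpr ((hB (rep i)).subset_ground (hmem _ _)))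
      rw [hφ i] at h4
      exact M.closure_subset_closure (Set.singleton_subset_iff.mpr (Set.mem_range_self i)) h4
    have h5 : (n : ℕ∞) ≤ M.eRk (Set.range (fun i => φ i (σ i k))) := by
      rw [← M.eRk_closure_eq]
      exact h1.trans (M.eRk_mono h3)
    have h6 : (Set.range (fun i => φ i (σ i k))).encard ≤ (n : ℕ∞) := by
      rw [← Set.image_univ]
      refine (Set.encard_image_le _ _).trans ?_
      rw [Set.encard_univ, ENat.card_eq_coe_fintype_card, Fintype.card_fin]
    have h7 : M.Indep (Set.range (fun i => φ i (σ i k))) := by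
      rw [Matroid.indep_iff_eRk_eq_encard_of_finite hfin]
      exact le_antisymm (M.eRk_le_encard _) (h6.trans h5)
    exact h7.isBase_of_eRk_ge hfin ((hrank k).le.trans h5)
  · intro k i
    have e : Set.range (fun i => φ i (σ i k)) ∩ B i = {φ i (σ i k)} := by
      ext x
      simp only [Set.mem_inter_iff, Set.mem_range, Set.mem_singleton_iff]
      constructor
      · rintro ⟨⟨j, rfl⟩, hx⟩
        by_cases hji : j = i
        · rw [hji]
        · exact absurd hx (Set.disjoint_left.mp (hd j i hji) (hφB j _))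
      · rintro rfl
        exact ⟨⟨i, rfl⟩, hφB i _⟩
    rw [e, Set.encard_singleton]
  · intro k l hkl
    rw [Set.disjoint_left]
    rintro x ⟨i, rfl⟩ ⟨j, hj⟩
    have hj' : φ j (σ j l) = φ i (σ i k) := hj
    by_cases hji : j = i
    · subst hji
      exact hkl ((σ j).injective (hφinj j hj')).symm
    · exact Set.disjoint_left.mp (hd j i hji) (hφB j (σ j l)) (hj' ▸ hφB i _)

end Pool.Agent.RotaP
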