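import Pool.Agent.RotaP.Defs

set_option autoImplicit false

namespace Pool.Agent.RotaP

variable {ι : Type*} [DecidableEq ι]

/-- the union of the elements of `a` with index in `U` and of the elements of `c` with index in `V` -/
def st {n : ℕ} (a c : Fin n → ι) (U V : Finset (Fin n)) : Finset ι := U.image a ∪ V.image c

/-- the rows `rows i` (`n` elements each) can be permuted such that all columns have rank `n` -/
def Arr (R : RkF ι) (n : ℕ) (rows : Fin n → Fin n → ι) : Prop :=
  ∃ σ : Fin n → Equiv.Perm (Fin n), ∀ k, R.r (Finset.univ.image (fun i => rows i (σ i k))) = n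

/-- condition (1): the `n` columns `T k` of size `s` can be completed by `n - s` copies of the basis `b` -/
def Good (R : RkF ι) (n s : ℕ) (b : Fin n → ι) (T : Fin n → Finset ι) : Prop :=
  ∀ X ⊆ Finset.univ.image b, s * n ≤ ∑ k, (R.con X).r (T k) + s * X.card

/-- `a` is (an enumeration of) a basis of a matroid of rank `n` -/
structure Bas (R : RkF ι) (n : ℕ) (a : Fin n → ι) : Prop where
  le : ∀ S, R.r S ≤ n
  eq : R.r (Finset.univ.image a) = n

theorem Bas.card {R : RkF ι} {n : ℕ} {a : Fin n → ι} (h : Bas R n a) :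
    (Finset.univ.image a).card = n := by
  have h1 := R.r_le_card (Finset.univ.image a)
  have h2 : (Finset.univ.image a).card ≤ n := by
    simpa using Finset.card_image_le (s := Finset.univ) (f := a)
  have := h.eq
  omega

theorem Bas.inj {R : RkF ι} {n : ℕ} {a : Fin n → ι} (h : Bas R n a) : Function.Injective a := by
  have h1 := h.card
  have h2 : (Finset.univ.image a).card = (Finset.univ : Finset (Fin n)).card := by
    rw [h1, Finset.card_univ, Fintype.card_fin]
  have h3 := Finset.card_image_iff.mp h2
  intro x y hxy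
  exact h3 (by simp) (by simp) hxy

theorem Bas.indep {R : RkF ι} {n : ℕ} {a : Fin n → ι} (h : Bas R n a) {X : Finset ι}
    (hX : X ⊆ Finset.univ.image a) : R.r X = X.card :=
  R.indep_sub (by rw [h.eq, h.card]) hX

theorem Bas.image_r {R : RkF ι} {n : ℕ} {a : Fin n → ι} (h : Bas R n a) (U : Finset (Fin n)) :
    R.r (U.image a) = U.card := by
  rw [h.indep (Finset.image_subset_image (Finset.subset_univ U)), Finset.card_image_of_injective _ h.inj]

/-- A spanning set stays spanning in every contraction by a set of independent elements. -/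
theorem Bas.con_eq {R : RkF ι} {n : ℕ} {b : Fin n → ι} (h : Bas R n b) {X D : Finset ι}
    (hX : X ⊆ Finset.univ.image b) (hD : R.r D = n) : (R.con X).r D + X.card = n := by
  have h1 := R.con_add X D
  have h2 := h.le (D ∪ X)
  have h3 : R.r D ≤ R.r (D ∪ X) := R.r_mono Finset.subset_union_left
  rw [← h.indep hX]
  omega

theorem st_card_le {n : ℕ} (a c : Fin n → ι) (U V : Finset (Fin n)) : (st a c U V).card ≤ U.card + V.card :=
  (Finset.card_union_le _ _).trans (Nat.add_le_add Finset.card_image_le Finset.card_image_le)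

theorem st_mono {n : ℕ} (a c : Fin n → ι) {U V U' V' : Finset (Fin n)} (hU : U ⊆ U') (hV : V ⊆ V') :
    st a c U V ⊆ st a c U' V' :=
  Finset.union_subset_union (Finset.image_subset_image hU) (Finset.image_subset_image hV)

/-- if a set of type `(U, V)` with `U.card + V.card` elements is independent, so are the sets of smaller type -/
theorem st_indep {n : ℕ} (R : RkF ι) (a c : Fin n → ι) {U V U' V' : Finset (Fin n)} (hU : U ⊆ U') (hV : V ⊆ V')
    (h : R.r (st a c U' V') = U'.card + V'.card) : R.r (st a c U V) = U.card + V.card := by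
  have h1 : R.r (st a c U' V') ≤ R.r (st a c U V) + ((U' \ U).card + (V' \ V).card) := by
    have e : st a c U' V' ⊆ st a c U V ∪ st a c (U' \ U) (V' \ V) := by
      intro x hx
      simp only [st, Finset.mem_union, Finset.mem_image, Finset.mem_sdiff] at hx ⊢
      rcases hx with ⟨i, hi, rfl⟩ | ⟨i, hi, rfl⟩
      · by_cases h : i ∈ U
        · exact Or.inl (Or.inl ⟨i, h, rfl⟩)
        · exact Or.inr (Or.inl ⟨i, ⟨hi, h⟩, rfl⟩)
      · by_cases h : i ∈ V
        · exact Or.inl (Or.inr ⟨i, h, rfl⟩)
        · exact Or.inr (Or.inr ⟨i, ⟨hi, h⟩, rfl⟩)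
    calc R.r (st a c U' V') ≤ R.r (st a c U V ∪ st a c (U' \ U) (V' \ V)) := R.r_mono e
      _ ≤ R.r (st a c U V) + (st a c (U' \ U) (V' \ V)).card := R.r_union_card _ _
      _ ≤ _ := Nat.add_le_add_left (st_card_le _ _ _ _) _
  have h2 := R.r_le_card (st a c U V)
  have h3 := st_card_le a c U V
  have h4 := Finset.card_sdiff_add_card_eq_card hU
  have h5 := Finset.card_sdiff_add_card_eq_card hV
  omega

end Pool.Agent.RotaP
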