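import Pool.Agent.RotaP.Defs

set_option autoImplicit false

namespace Pool.Agent.RotaP

namespace RkF

variable {ι κ : Type*} [DecidableEq ι] [DecidableEq κ]

private theorem RA_biUnion_update_notMem (F : κ → Finset ι) (j0 : κ) (A : Finset ι) (K : Finset κ) (h : j0 ∉ K) :
    K.biUnion (Function.update F j0 A) = K.biUnion F := by
  apply Finset.biUnion_congr rfl
  intro j hj
  rw [Function.update_of_ne]
  rintro rfl
  exact h hj

private theorem RA_aux (R : RkF ι) (J : Finset κ) : ∀ (N : ℕ) (F : κ → Finset ι), ∑ j ∈ J, (F j).card = N →
    (∀ K ⊆ J, K.card ≤ R.r (K.biUnion F)) →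
    ∃ x : {j // j ∈ J} → ι, (∀ j, x j ∈ F j.1) ∧ R.r (J.attach.image x) = J.card := by
  intro N
  induction N using Nat.strong_induction_on with
  | _ N ih =>
    intro F hN h
    by_cases hall : ∀ j ∈ J, (F j).card ≤ 1
    · -- all sets are singletons
      have hne : ∀ j : {j // j ∈ J}, (F j.1).Nonempty := by
        intro j
        have h1 := h {j.1} (by simp)
        rw [Finset.singleton_biUnion, Finset.card_singleton] at h1
        by_contra h2
        rw [Finset.not_nonempty_iff_eq_empty] at h2
        rw [h2, R.r_empty] at h1
        omega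
      choose x hx using hne
      refine ⟨x, hx, ?_⟩
      have e : J.biUnion F = J.attach.image x := by
        ext y
        simp only [Finset.mem_biUnion, Finset.mem_image, Finset.mem_attach, true_and]
        constructor
        · rintro ⟨j, hj, hy⟩
          refine ⟨⟨j, hj⟩, ?_⟩
          exact Finset.card_le_one.mp (hall j hj) _ (hx ⟨j, hj⟩) _ hy
        · rintro ⟨j, rfl⟩
          exact ⟨j.1, j.2, hx j⟩
      apply le_antisymm
      · calc R.r (J.attach.image x) ≤ (J.attach.image x).card := R.r_le_card _
          _ ≤ J.attach.card := Finset.card_image_le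
          _ = J.card := Finset.card_attach
      · rw [← e]
        exact h J (Finset.Subset.refl J)
    · push Not at hall
      obtain ⟨j0, hj0, hc⟩ := hall
      obtain ⟨u, hu, v, hv, huv⟩ := Finset.one_lt_card.mp hc
      have key : ∀ w ∈ F j0, (∀ K ⊆ J, K.card ≤ R.r (K.biUnion (Function.update F j0 ((F j0).erase w)))) →
          ∃ x : {j // j ∈ J} → ι, (∀ j, x j ∈ F j.1) ∧ R.r (J.attach.image x) = J.card := by
        intro w hw hK
        have hlt : ∑ j ∈ J, (Function.update F j0 ((F j0).erase w) j).card < N := by
          rw [← hN]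
          apply Finset.sum_lt_sum
          · intro j _
            by_cases hj : j = j0
            · subst hj
              rw [Function.update_self]
              exact Finset.card_le_card (Finset.erase_subset _ _)
            · rw [Function.update_of_ne hj]
          · refine ⟨j0, hj0, ?_⟩
            rw [Function.update_self]
            exact Finset.card_erase_lt_of_mem hw
        obtain ⟨x, hx, hr⟩ := ih _ hlt _ rfl hK
        refine ⟨x, ?_, hr⟩
        intro j
        have h1 := hx j
        by_cases hj : j.1 = j0
        · rw [hj, Function.update_self] at h1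
          rw [hj]
          exact Finset.mem_of_mem_erase h1
        · rwa [Function.update_of_ne hj] at h1
      by_cases c1 : ∀ K ⊆ J, K.card ≤ R.r (K.biUnion (Function.update F j0 ((F j0).erase u)))
      · exact key u hu c1
      by_cases c2 : ∀ K ⊆ J, K.card ≤ R.r (K.biUnion (Function.update F j0 ((F j0).erase v)))
      · exact key v hv c2
      exfalso
      push Not at c1 c2
      obtain ⟨K, hK, hKr⟩ := c1
      obtain ⟨L, hL, hLr⟩ := c2
      have hjK : j0 ∈ K := by
        by_contra hc
        rw [RA_biUnion_update_notMem F j0 _ K hc] at hKr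
        have := h K hK
        omega
      have hjL : j0 ∈ L := by
        by_contra hc
        rw [RA_biUnion_update_notMem F j0 _ L hc] at hLr
        have := h L hL
        omega
      set S := K.biUnion (Function.update F j0 ((F j0).erase u)) with hS
      set T := L.biUnion (Function.update F j0 ((F j0).erase v)) with hT
      have hU : (insert j0 (K.erase j0 ∪ L.erase j0)).biUnion F ⊆ S ∪ T := by
        intro y hy
        rw [Finset.mem_biUnion] at hy
        obtain ⟨j, hj, hy⟩ := hy
        rw [Finset.mem_union]
        by_cases hjj : j = j0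
        · subst hjj
          by_cases hyu : y = u
          · right
            rw [hT, Finset.mem_biUnion]
            refine ⟨j, hjL, ?_⟩
            rw [Function.update_self, Finset.mem_erase]
            exact ⟨by rw [hyu]; exact huv, hy⟩
          · left
            rw [hS, Finset.mem_biUnion]
            refine ⟨j, hjK, ?_⟩
            rw [Function.update_self, Finset.mem_erase]
            exact ⟨hyu, hy⟩
        · rw [Finset.mem_insert, Finset.mem_union, Finset.mem_erase, Finset.mem_erase] at hj
          rcases hj with hj | ⟨_, hj⟩ | ⟨_, hj⟩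
          · exact absurd hj hjj
          · left
            rw [hS, Finset.mem_biUnion]
            exact ⟨j, hj, by rwa [Function.update_of_ne hjj]⟩
          · right
            rw [hT, Finset.mem_biUnion]
            exact ⟨j, hj, by rwa [Function.update_of_ne hjj]⟩
      have hI : (K.erase j0 ∩ L.erase j0).biUnion F ⊆ S ∩ T := by
        intro y hy
        rw [Finset.mem_biUnion] at hy
        obtain ⟨j, hj, hy⟩ := hy
        rw [Finset.mem_inter, Finset.mem_erase, Finset.mem_erase] at hj
        obtain ⟨⟨hjj, hjK'⟩, ⟨_, hjL'⟩⟩ := hj
        rw [Finset.mem_inter]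
        constructor
        · rw [hS, Finset.mem_biUnion]
          exact ⟨j, hjK', by rwa [Function.update_of_ne hjj]⟩
        · rw [hT, Finset.mem_biUnion]
          exact ⟨j, hjL', by rwa [Function.update_of_ne hjj]⟩
      have h1 := h (insert j0 (K.erase j0 ∪ L.erase j0)) (by
        intro j hj
        rw [Finset.mem_insert, Finset.mem_union] at hj
        rcases hj with rfl | hj | hj
        · exact hj0
        · exact hK (Finset.mem_of_mem_erase hj)
        · exact hL (Finset.mem_of_mem_erase hj))
      have h2 := h (K.erase j0 ∩ L.erase j0) (by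
        intro j hj
        rw [Finset.mem_inter] at hj
        exact hK (Finset.mem_of_mem_erase hj.1))
      have h3 : (insert j0 (K.erase j0 ∪ L.erase j0)).card = (K.erase j0 ∪ L.erase j0).card + 1 := by
        apply Finset.card_insert_of_notMem
        simp
      have h4 := R.r_mono hU
      have h5 := R.r_mono hI
      have h6 := R.r_sub S T
      have h7 := Finset.card_union_add_card_inter (K.erase j0) (L.erase j0)
      have h8 := Finset.card_erase_add_one hjK
      have h9 := Finset.card_erase_add_one hjL
      omega

/-- [RA, size 3] RADO'S THEOREM.  Proof: induction on `∑ j ∈ J, (F j).card` (for all `F`, fixed `J`).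
If all `(F j).card ≤ 1` (`j ∈ J`): they are nonempty (`K = {j}`), choose `x j`; `J.biUnion F = image x`, so `K = J` gives
`J.card ≤ r (image x) ≤ (image x).card ≤ J.card`.
Otherwise `u ≠ v` in `F j0`, `j0 ∈ J`.  Put `F1 = update F j0 ((F j0).erase u)`, `F2 = update F j0 ((F j0).erase v)`.
CLAIM: one of `F1`, `F2` satisfies the hypothesis (then use the induction hypothesis; `x j0 ∈ F1 j0 ⊆ F j0`).
Otherwise there are `K, L ⊆ J` with `r (K.biUnion F1) < K.card`, `r (L.biUnion F2) < L.card`; both contain `j0` (otherwise the
biUnion is that of `F`).  Let `K0 = K.erase j0`, `L0 = L.erase j0`, `S = K.biUnion F1`, `T = L.biUnion F2`.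
`S ∪ T ⊇ (insert j0 (K0 ∪ L0)).biUnion F` (every element of `F j0` is `≠ u` or `≠ v`), so `r (S ∪ T) ≥ (K0 ∪ L0).card + 1`;
`S ∩ T ⊇ (K0 ∩ L0).biUnion F`, so `r (S ∩ T) ≥ (K0 ∩ L0).card`.  Sum: `≥ K0.card + L0.card + 1 = K.card + L.card - 1`, but
`r S + r T ≤ K.card + L.card - 2`: contradiction with `r_sub`. -/
theorem rado (R : RkF ι) (J : Finset κ) (F : κ → Finset ι)
    (h : ∀ K ⊆ J, K.card ≤ R.r (K.biUnion F)) :
    ∃ x : {j // j ∈ J} → ι, (∀ j, x j ∈ F j.1) ∧ R.r (J.attach.image x) = J.card :=
  RA_aux R J _ F rfl h

end RkF

end Pool.Agent.RotaP
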