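import Pool.Agent.RotaP.Dsum
import Pool.Agent.RotaP.Rado

set_option autoImplicit false

namespace Pool.Agent.RotaP

namespace RkF

variable {ι κ : Type*} [DecidableEq ι] [DecidableEq κ]

/-- [CO, size 3] COMPLETION LEMMA.  Proof: `X = ∅` gives `∑ card (T i) ≤ ∑ r (T i)`, so `r (T i) = card (T i)` for `i ∈ I`
(`r_le_card`; `Finset.sum_eq_sum_iff_of_le`).  Apply `rado` to `N = dsum I (fun i => R.con (T i))` on `κ × ι`,
`J = B ×ˢ Finset.range k : Finset (ι × ℕ)`, `F (b, l) = I.image (fun i => (i, b))`.  For `K ⊆ J` put `X = K.image Prod.fst ⊆ B`;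
`K ⊆ X ×ˢ range k`, so `K.card ≤ k * X.card`, and `fib i (K.biUnion F) = X` for `i ∈ I`, so
`N.r (K.biUnion F) = ∑ (r (X ∪ T i) - r (T i)) ≥ k * X.card` by hypothesis.  Let `x` be the representatives and
`W = image x` (`W.card = k * B.card`, `N.r W = W.card`), `Q i = fib i W`.  `Q i ⊆ B` clear.
`∑_{i ∈ I} (R.con (T i)).r (Q i) = W.card = ∑_{i ∈ I} (Q i).card` (all pairs of `W` have first component in `I`), so
`(R.con (T i)).r (Q i) = (Q i).card` for all `i ∈ I`, that is `R.r (T i ∪ Q i) = (T i).card + (Q i).card`.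
For `b ∈ B`: `x (b, 0), .., x (b, k-1)` are different (the image has full cardinality, so `x` is injective) and of the form
`(i, b)`, and these are all elements of `W` with second component `b`; so exactly `k` indices `i ∈ I` have `b ∈ Q i`. -/
theorem completion (R : RkF ι) (I : Finset κ) (T : κ → Finset ι) (B : Finset ι) (k : ℕ)
    (h : ∀ X ⊆ B, k * X.card + ∑ i ∈ I, (T i).card ≤ ∑ i ∈ I, R.r (T i ∪ X)) :
    ∃ Q : κ → Finset ι, (∀ i ∈ I, Q i ⊆ B ∧ R.r (T i ∪ Q i) = (T i).card + (Q i).card) ∧
      ∀ b ∈ B, (I.filter (fun i => b ∈ Q i)).card = k := by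
  -- the sets `T i` are independent
  have hT : ∀ i ∈ I, R.r (T i) = (T i).card := by
    have h0 := h ∅ (Finset.empty_subset _)
    simp only [Finset.card_empty, mul_zero, zero_add, Finset.union_empty] at h0
    have h1 : ∑ i ∈ I, R.r (T i) ≤ ∑ i ∈ I, (T i).card := Finset.sum_le_sum fun i _ => R.r_le_card _
    exact (Finset.sum_eq_sum_iff_of_le fun i _ => R.r_le_card (T i)).mp (le_antisymm h1 h0)
  set N : RkF (κ × ι) := dsum I (fun i => R.con (T i)) with hN
  set J : Finset (ι × ℕ) := B ×ˢ Finset.range k with hJ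
  set F : ι × ℕ → Finset (κ × ι) := fun p => I.image (fun i => (i, p.1)) with hF
  have hRado : ∀ K ⊆ J, K.card ≤ N.r (K.biUnion F) := by
    intro K hK
    set X : Finset ι := K.image Prod.fst with hX
    have hXB : X ⊆ B := by
      intro y hy
      rw [hX, Finset.mem_image] at hy
      obtain ⟨p, hp, rfl⟩ := hy
      exact (Finset.mem_product.mp (hK hp)).1
    have hKc : K.card ≤ k * X.card := by
      have h1 : K ⊆ X ×ˢ Finset.range k := by
        intro p hp
        rw [Finset.mem_product]
        exact ⟨Finset.mem_image_of_mem _ hp, (Finset.mem_product.mp (hK hp)).2⟩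
      have h2 := Finset.card_le_card h1
      rw [Finset.card_product, Finset.card_range] at h2
      rw [mul_comm]
      exact h2
    have hfib : ∀ i ∈ I, fib i (K.biUnion F) = X := by
      intro i hi
      ext y
      rw [mem_fib, Finset.mem_biUnion, hX, Finset.mem_image]
      constructor
      · rintro ⟨p, hp, hy⟩
        refine ⟨p, hp, ?_⟩
        rw [hF] at hy
        simp only [Finset.mem_image, Prod.mk.injEq] at hy
        obtain ⟨_, _, _, h3⟩ := hy
        exact h3
      · rintro ⟨p, hp, rfl⟩
        refine ⟨p, hp, ?_⟩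
        rw [hF]
        exact Finset.mem_image_of_mem (fun i => (i, p.1)) hi
    rw [hN, dsum_r]
    have e : ∑ i ∈ I, (R.con (T i)).r (fib i (K.biUnion F)) = ∑ i ∈ I, (R.con (T i)).r X :=
      Finset.sum_congr rfl fun i hi => by rw [hfib i hi]
    rw [e]
    have e2 : ∑ i ∈ I, R.r (T i ∪ X) = ∑ i ∈ I, (R.con (T i)).r X + ∑ i ∈ I, (T i).card := by
      rw [← Finset.sum_add_distrib]
      apply Finset.sum_congr rfl
      intro i hi
      have h1 := R.con_add (T i) X
      rw [hT i hi] at h1
      rw [h1, Finset.union_comm]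
    have h3 := h X hXB
    rw [e2] at h3
    omega
  obtain ⟨x, hx, hr⟩ := rado N J F hRado
  set W : Finset (κ × ι) := J.attach.image x with hW
  have hWcard : W.card = J.card := by
    apply le_antisymm
    · calc W.card ≤ J.attach.card := Finset.card_image_le
        _ = J.card := Finset.card_attach
    · rw [← hr]
      exact N.r_le_card W
  have hxinj : Function.Injective x := by
    have h1 : (J.attach.image x).card = J.attach.card := by
      rw [← hW, hWcard, Finset.card_attach]
    have h2 := Finset.card_image_iff.mp h1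
    intro p q hpq
    exact h2 (by simp) (by simp) hpq
  have hxform : ∀ j : {j // j ∈ J}, (x j).1 ∈ I ∧ (x j).2 = j.1.1 := by
    intro j
    have h1 := hx j
    rw [hF] at h1
    simp only [Finset.mem_image] at h1
    obtain ⟨i, hi, h2⟩ := h1
    rw [← h2]
    exact ⟨hi, rfl⟩
  have hWI : ∀ p ∈ W, p.1 ∈ I := by
    intro p hp
    rw [hW, Finset.mem_image] at hp
    obtain ⟨j, _, rfl⟩ := hp
    exact (hxform j).1
  have hsum : ∑ i ∈ I, (fib i W).card = W.card := by
    have h1 : W.card = ∑ i ∈ I, (W.filter (fun p => p.1 = i)).card :=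
      Finset.card_eq_sum_card_fiberwise (fun p hp => hWI p hp)
    rw [h1]
    apply Finset.sum_congr rfl
    intro i _
    rw [fib, Finset.card_image_of_injOn]
    intro p hp q hq hpq
    have h2 := (Finset.mem_filter.mp (Finset.mem_coe.mp hp)).2
    have h3 := (Finset.mem_filter.mp (Finset.mem_coe.mp hq)).2
    exact Prod.ext (h2.trans h3.symm) hpq
  have hind : ∀ i ∈ I, (R.con (T i)).r (fib i W) = (fib i W).card := by
    have h1 : ∑ i ∈ I, (R.con (T i)).r (fib i W) = ∑ i ∈ I, (fib i W).card := by
      rw [hsum, hWcard, ← hr, hN, dsum_r]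
    exact (Finset.sum_eq_sum_iff_of_le fun i _ => (R.con (T i)).r_le_card _).mp h1
  refine ⟨fun i => fib i W, ?_, ?_⟩
  · intro i hi
    constructor
    · intro y hy
      rw [mem_fib, hW, Finset.mem_image] at hy
      obtain ⟨j, _, hj⟩ := hy
      have h1 := (hxform j).2
      rw [hj] at h1
      change y = j.1.1 at h1
      rw [h1]
      exact (Finset.mem_product.mp j.2).1
    · have h1 := R.con_add (T i) (fib i W)
      rw [hind i hi, hT i hi] at h1
      rw [Finset.union_comm, ← h1, add_comm]
  · intro b hb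
    have h1 : (I.filter (fun i => b ∈ fib i W)).card = (Finset.range k).card := by
      symm
      apply Finset.card_bij (fun l hl => (x ⟨(b, l), Finset.mem_product.mpr ⟨hb, hl⟩⟩).1)
      · intro l hl
        rw [Finset.mem_filter]
        refine ⟨(hxform _).1, ?_⟩
        rw [mem_fib, hW, Finset.mem_image]
        refine ⟨⟨(b, l), Finset.mem_product.mpr ⟨hb, hl⟩⟩, Finset.mem_attach _ _, ?_⟩
        exact Prod.ext rfl (hxform _).2
      · intro l hl l' hl' h2
        have h3 : x ⟨(b, l), Finset.mem_product.mpr ⟨hb, hl⟩⟩ = x ⟨(b, l'), Finset.mem_product.mpr ⟨hb, hl'⟩⟩ :=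
          Prod.ext h2 ((hxform ⟨(b, l), Finset.mem_product.mpr ⟨hb, hl⟩⟩).2.trans
            (hxform ⟨(b, l'), Finset.mem_product.mpr ⟨hb, hl'⟩⟩).2.symm)
        have h4 := hxinj h3
        simp only [Subtype.mk.injEq, Prod.mk.injEq, true_and] at h4
        exact h4
      · intro i hi
        rw [Finset.mem_filter, mem_fib, hW, Finset.mem_image] at hi
        obtain ⟨hiI, ⟨⟨b', l⟩, hj⟩, _, hxj⟩ := hi
        have h2 := (hxform ⟨(b', l), hj⟩).2
        rw [hxj] at h2
        change b = b' at h2
        subst h2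
        refine ⟨l, (Finset.mem_product.mp hj).2, ?_⟩
        rw [hxj]
    rw [h1, Finset.card_range]

end RkF

end Pool.Agent.RotaP
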