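import Pool.Agent.RotaP.Base
import Pool.Agent.RotaP.Comp
import Pool.Agent.RotaP.Koe

set_option autoImplicit false

namespace Pool.Agent.RotaP

variable {ι : Type*} [DecidableEq ι]

/-- [GR, size 2] GREENE EXCHANGE.  Proof: `completion` with `κ = Bool`, `I = univ`, `T true = U.image a`, `T false = Uᶜ.image a`,
`B = univ.image c`, `k = 1`.  Hypothesis for `X ⊆ B`: `X.card + U.card + Uᶜ.card ≤ r (T true ∪ X) + r (T false ∪ X)`:
by `r_sub` the right side is `≥ r (univ.image a ∪ X) + r X ≥ n + X.card` (`X ⊆ (T true ∪ X) ∩ (T false ∪ X)`; `Bas.indep`).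
(`(T true).card = U.card` by `Bas.inj`.)  `V = {j : c j ∈ Q true}`; every `c j` is in exactly one of `Q true`, `Q false`, so
`Vᶜ = {j : c j ∈ Q false}`, `Q true = V.image c`, `Q false = Vᶜ.image c`.  `r (T ∪ Q) = card T + card Q ≤ n` for both, the sum of
the four cardinalities is `2 n`: both are `= n`. -/
theorem greene (R : RkF ι) {n : ℕ} (a c : Fin n → ι) (ha : Bas R n a) (hc : Bas R n c) (U : Finset (Fin n)) :
    ∃ V : Finset (Fin n), U.card + V.card = n ∧ R.r (st a c U V) = n ∧ R.r (st a c Uᶜ Vᶜ) = n := by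
  set T : Bool → Finset ι := fun β => if β then U.image a else Uᶜ.image a with hT
  have hTt : T true = U.image a := by rw [hT]; rfl
  have hTf : T false = Uᶜ.image a := by rw [hT]; rfl
  have hct : (T true).card = U.card := by rw [hTt, Finset.card_image_of_injective _ ha.inj]
  have hcf : (T false).card = Uᶜ.card := by rw [hTf, Finset.card_image_of_injective _ ha.inj]
  have hUc : U.card + Uᶜ.card = n := by
    have := Finset.card_add_card_compl U
    rwa [Fintype.card_fin] at this
  obtain ⟨Q, hQ, hQ'⟩ := RkF.completion R (Finset.univ : Finset Bool) T (Finset.univ.image c) 1 (by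
    intro X hX
    rw [Fintype.sum_bool, Fintype.sum_bool, hct, hcf, hUc]
    have h1 := R.r_sub (T true ∪ X) (T false ∪ X)
    have h2 : Finset.univ.image a ⊆ (T true ∪ X) ∪ (T false ∪ X) := by
      intro y hy
      rw [Finset.mem_image] at hy
      obtain ⟨i, _, rfl⟩ := hy
      rw [hTt, hTf]
      simp only [Finset.mem_union, Finset.mem_image, Finset.mem_compl]
      by_cases hi : i ∈ U
      · exact Or.inl (Or.inl ⟨i, hi, rfl⟩)
      · exact Or.inr (Or.inl ⟨i, hi, rfl⟩)
    have h3 : X ⊆ (T true ∪ X) ∩ (T false ∪ X) := by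
      intro y hy
      rw [Finset.mem_inter, Finset.mem_union, Finset.mem_union]
      exact ⟨Or.inr hy, Or.inr hy⟩
    have h4 := R.r_mono h2
    have h5 := R.r_mono h3
    rw [ha.eq] at h4
    rw [hc.indep hX] at h5
    omega)
  have hQt := hQ true (Finset.mem_univ _)
  have hQf := hQ false (Finset.mem_univ _)
  have hone : ∀ y ∈ Finset.univ.image c, (y ∈ Q true ∧ y ∉ Q false) ∨ (y ∉ Q true ∧ y ∈ Q false) := by
    intro y hy
    have h1 := hQ' y hy
    by_cases ht : y ∈ Q true
    · by_cases hf : y ∈ Q false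
      · exfalso
        have : Finset.univ.filter (fun i => y ∈ Q i) = (Finset.univ : Finset Bool) := by
          ext β
          cases β <;> simp [ht, hf]
        rw [this] at h1
        simp at h1
      · exact Or.inl ⟨ht, hf⟩
    · by_cases hf : y ∈ Q false
      · exact Or.inr ⟨ht, hf⟩
      · exfalso
        have : Finset.univ.filter (fun i => y ∈ Q i) = (∅ : Finset Bool) := by
          ext β
          cases β <;> simp [ht, hf]
        rw [this] at h1
        simp at h1
  set V : Finset (Fin n) := Finset.univ.filter (fun j => c j ∈ Q true) with hV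
  have eV : V.image c = Q true := by
    ext y
    rw [Finset.mem_image]
    constructor
    · rintro ⟨j, hj, rfl⟩
      exact (Finset.mem_filter.mp hj).2
    · intro hy
      have h1 := hQt.1 hy
      rw [Finset.mem_image] at h1
      obtain ⟨j, _, rfl⟩ := h1
      exact ⟨j, Finset.mem_filter.mpr ⟨Finset.mem_univ _, hy⟩, rfl⟩
  have eVc : Vᶜ.image c = Q false := by
    ext y
    rw [Finset.mem_image]
    constructor
    · rintro ⟨j, hj, rfl⟩
      rw [Finset.mem_compl, hV, Finset.mem_filter] at hj
      rcases hone (c j) (Finset.mem_image_of_mem c (Finset.mem_univ j)) with h | h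
      · exact absurd ⟨Finset.mem_univ _, h.1⟩ hj
      · exact h.2
    · intro hy
      have h1 := hQf.1 hy
      rw [Finset.mem_image] at h1
      obtain ⟨j, _, rfl⟩ := h1
      refine ⟨j, ?_, rfl⟩
      rw [Finset.mem_compl, hV, Finset.mem_filter]
      rintro ⟨_, h⟩
      rcases hone (c j) (Finset.mem_image_of_mem c (Finset.mem_univ j)) with h' | h'
      · exact h'.2 hy
      · exact h'.1 h
  have cV : (Q true).card = V.card := by rw [← eV, Finset.card_image_of_injective _ hc.inj]
  have cVc : (Q false).card = Vᶜ.card := by rw [← eVc, Finset.card_image_of_injective _ hc.inj]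
  have hVc : V.card + Vᶜ.card = n := by
    have := Finset.card_add_card_compl V
    rwa [Fintype.card_fin] at this
  have l1 := ha.le (T true ∪ Q true)
  have l2 := ha.le (T false ∪ Q false)
  have m1 := hQt.2
  have m2 := hQf.2
  rw [hct, cV] at m1
  rw [hcf, cVc] at m2
  refine ⟨V, by omega, ?_, ?_⟩
  · rw [st, eV, ← hTt]
    omega
  · rw [st, eVc, ← hTf]
    omega

/-- [CA, size 3] FROM COLUMNS TO ARRAYS.  `P` = the rows which are placed already (by the permutations `σ₀ i`, `i ∈ P`), the other
rows are all equal to the basis `b`; `s = P.card`.  Proof: `T k = P.image (fun i => rows i (σ₀ i k))` has at most `s`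
elements; `X = ∅` in `Good` gives `∑ r (T k) ≥ s * n`, so `(T k).card = s = r (T k)`.  `completion` with `κ = Fin n`, `I = univ`,
`B = univ.image b`, `k = n - s`: for `X ⊆ B`: `r (T k ∪ X) = (con X).r (T k) + X.card` (`con_add`, `Bas.indep`), so the sum is
`≥ s * n - s * X.card + n * X.card`.  `r (T k ∪ Q k) = s + (Q k).card ≤ n`, and `∑ (Q k).card = (n - s) * n` (double
counting), so all `(Q k).card = n - s` and `r (T k ∪ Q k) = n`.  Index sets `Q' k = {j : b j ∈ Q k}`: `koenig n (n - s) Q'`
gives permutations `ρ l`, `l : Fin (n - s)`; the rows outside `P` are in bijection with `Fin (n - s)`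
(`(Finset.univ \ P)` has `n - s` elements: `Finset.equivFinOfCardEq`).  `σ i = σ₀ i` for `i ∈ P`, `ρ (e i)` otherwise. -/
theorem arr_of_good (R : RkF ι) {n : ℕ} (b : Fin n → ι) (hb : Bas R n b) (rows : Fin n → Fin n → ι)
    (P : Finset (Fin n)) (hP : ∀ i, i ∉ P → rows i = b) (σ₀ : Fin n → Equiv.Perm (Fin n))
    (hG : Good R n P.card b (fun k => P.image (fun i => rows i (σ₀ i k)))) : Arr R n rows := by
  set T : Fin n → Finset ι := fun k => P.image (fun i => rows i (σ₀ i k)) with hT
  set s : ℕ := P.card with hs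
  have hsn : s ≤ n := by
    have := Finset.card_le_univ P
    rwa [Fintype.card_fin] at this
  have hTle : ∀ k, (T k).card ≤ s := fun k => Finset.card_image_le
  have hTr : ∀ k, (T k).card = s := by
    have h0 := hG ∅ (Finset.empty_subset _)
    rw [Finset.card_empty, mul_zero, add_zero] at h0
    have h1 : ∑ k, (R.con ∅).r (T k) ≤ ∑ k, (T k).card := by
      apply Finset.sum_le_sum
      intro k _
      rw [R.con_empty]
      exact R.r_le_card _
    have h2 : ∑ k, (T k).card ≤ ∑ _k : Fin n, s := Finset.sum_le_sum fun k _ => hTle k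
    have h3 : ∑ _k : Fin n, s = s * n := by
      rw [Finset.sum_const, Finset.card_univ, Fintype.card_fin, smul_eq_mul, mul_comm]
    have h4 : ∑ k, (T k).card = ∑ _k : Fin n, s := by omega
    intro k
    exact (Finset.sum_eq_sum_iff_of_le fun k _ => hTle k).mp h4 k (Finset.mem_univ k)
  obtain ⟨Q, hQ, hQ'⟩ := RkF.completion R (Finset.univ : Finset (Fin n)) T (Finset.univ.image b) (n - s) (by
    intro X hX
    have h1 : ∑ k, R.r (T k ∪ X) = ∑ k, (R.con X).r (T k) + n * X.card := by
      have e : ∀ k ∈ (Finset.univ : Finset (Fin n)), R.r (T k ∪ X) = (R.con X).r (T k) + X.card := by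
        intro k _
        rw [← R.con_add, hb.indep hX]
      rw [Finset.sum_congr rfl e, Finset.sum_add_distrib, Finset.sum_const, Finset.card_univ, Fintype.card_fin,
        smul_eq_mul]
    have h2 : ∑ k, (T k).card = s * n := by
      rw [Finset.sum_congr rfl (fun k _ => hTr k), Finset.sum_const, Finset.card_univ, Fintype.card_fin,
        smul_eq_mul, mul_comm]
    have h3 := hG X hX
    rw [h1, h2]
    have h4 : (n - s) * X.card + s * X.card = n * X.card := by
      rw [← add_mul, Nat.sub_add_cancel hsn]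
    change s * n ≤ ∑ k, (R.con X).r (T k) + s * X.card at h3
    omega)
  have hQb : ∀ k, Q k ⊆ Finset.univ.image b := fun k => (hQ k (Finset.mem_univ k)).1
  have hQr : ∀ k, R.r (T k ∪ Q k) = s + (Q k).card := fun k => by
    rw [(hQ k (Finset.mem_univ k)).2, hTr k]
  set Q' : Fin n → Finset (Fin n) := fun k => Finset.univ.filter (fun j => b j ∈ Q k) with hQ'def
  have eQ : ∀ k, (Q' k).image b = Q k := by
    intro k
    ext y
    rw [Finset.mem_image]
    constructor
    · rintro ⟨j, hj, rfl⟩
      exact (Finset.mem_filter.mp hj).2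
    · intro hy
      have h1 := hQb k hy
      rw [Finset.mem_image] at h1
      obtain ⟨j, _, rfl⟩ := h1
      exact ⟨j, Finset.mem_filter.mpr ⟨Finset.mem_univ _, hy⟩, rfl⟩
  have cQ : ∀ k, (Q' k).card = (Q k).card := fun k => by
    rw [← eQ k, Finset.card_image_of_injective _ hb.inj]
  have hreg : ∀ j, (Finset.univ.filter (fun k => j ∈ Q' k)).card = n - s := by
    intro j
    rw [← hQ' (b j) (Finset.mem_image_of_mem b (Finset.mem_univ j))]
    congr 1
    ext k
    simp [hQ'def]
  have hle : ∀ k, (Q' k).card ≤ n - s := by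
    intro k
    have h1 := hQr k
    have h2 := hb.le (T k ∪ Q k)
    rw [cQ k]
    omega
  have hdc : ∑ k, (Q' k).card = ∑ _k : Fin n, (n - s) := by
    have e1 : ∀ k ∈ (Finset.univ : Finset (Fin n)), (Q' k).card = ∑ j, if j ∈ Q' k then 1 else 0 := by
      intro k _
      rw [← Finset.sum_filter, ← Finset.card_eq_sum_ones]
      congr 1
      ext j
      simp
    rw [Finset.sum_congr rfl e1, Finset.sum_comm]
    apply Finset.sum_congr rfl
    intro j _
    rw [← Finset.sum_filter, ← Finset.card_eq_sum_ones]
    exact hreg j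
  have hQcard : ∀ k, (Q' k).card = n - s := fun k =>
    (Finset.sum_eq_sum_iff_of_le fun k _ => hle k).mp hdc k (Finset.mem_univ k)
  obtain ⟨ρ, hρ⟩ := koenig n (n - s) Q' hQcard hreg
  have hPc : (Pᶜ).card = n - s := by rw [Finset.card_compl, Fintype.card_fin]
  let e : {i // i ∈ Pᶜ} ≃ Fin (n - s) := Finset.equivFinOfCardEq hPc
  refine ⟨fun i => if h : i ∈ Pᶜ then ρ (e ⟨i, h⟩) else σ₀ i, fun k => ?_⟩
  have hcol : Finset.univ.image (fun i => rows i ((if h : i ∈ Pᶜ then ρ (e ⟨i, h⟩) else σ₀ i) k)) = T k ∪ Q k := by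
    ext y
    rw [Finset.mem_image, Finset.mem_union]
    constructor
    · rintro ⟨i, _, rfl⟩
      by_cases h : i ∈ Pᶜ
      · right
        rw [dif_pos h, hP i (Finset.mem_compl.mp h), ← eQ k]
        apply Finset.mem_image_of_mem
        rw [← hρ k]
        exact Finset.mem_image_of_mem (fun l => ρ l k) (Finset.mem_univ _)
      · left
        rw [dif_neg h]
        rw [Finset.mem_compl, not_not] at h
        exact Finset.mem_image_of_mem (fun i => rows i (σ₀ i k)) h
    · rintro (hy | hy)
      · rw [hT] at hy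
        simp only [Finset.mem_image] at hy
        obtain ⟨i, hi, rfl⟩ := hy
        refine ⟨i, Finset.mem_univ _, ?_⟩
        rw [dif_neg (by rw [Finset.mem_compl, not_not]; exact hi)]
      · rw [← eQ k, Finset.mem_image] at hy
        obtain ⟨j, hj, rfl⟩ := hy
        rw [← hρ k, Finset.mem_image] at hj
        obtain ⟨l, _, rfl⟩ := hj
        refine ⟨(e.symm l).1, Finset.mem_univ _, ?_⟩
        rw [dif_pos (e.symm l).2, hP _ (Finset.mem_compl.mp (e.symm l).2)]
        simp
  rw [hcol, hQr k, ← cQ k, hQcard k]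
  omega

end Pool.Agent.RotaP
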