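import Pool.Agent.RotaP.StC

set_option autoImplicit false

namespace Pool.Agent.RotaP

variable {ι : Type*} [DecidableEq ι]

/-- [LO, size 2] some pair has no loop mod `X`, if `X.card = m`.  Proof: let `U = {k : (R.con X).r {a k} = 0}`,
`V = {k : (R.con X).r {c k} = 0}`.  `R.r (U.image a) = U.card ≤ R.r X = m` (all of `U.image a` is in the closure of `X`:
`(R.con X).r (U.image a) = 0` by subadditivity), `V.card ≤ m` similarly, so `st a c U V` is independent (`st_indep`, inside a
set of type `(m + 1, m)`) and in the closure of `X`: `U.card + V.card ≤ m`.  `U` and the preimage of `V` under `π` do not cover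
`Fin n`. -/
theorem exists_loopless (R : RkF ι) {n m : ℕ} (hn : n = 2 * m + 1) (a c b : Fin n → ι) (ha : Bas R n a)
    (hc : Bas R n c) (hb : Bas R n b)
    (h1 : ∀ U V : Finset (Fin n), U.card = m + 1 → V.card = m → R.r (st a c U V) = n) (π : Equiv.Perm (Fin n))
    (X : Finset ι) (hX : X ⊆ Finset.univ.image b) (hXm : X.card = m) :
    ∃ k, (R.con X).r {a k} = 1 ∧ (R.con X).r {c (π k)} = 1 := by
  set N := R.con X with hN
  have hXr : R.r X = m := by rw [hb.indep hX, hXm]
  have h01 : ∀ y, N.r {y} = 0 ∨ N.r {y} = 1 := by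
    intro y
    have := N.r_le_card {y}
    rw [Finset.card_singleton] at this
    omega
  have hz : ∀ S : Finset ι, (∀ y ∈ S, N.r {y} = 0) → N.r S = 0 := by
    intro S
    induction S using Finset.induction_on with
    | empty => intro _; exact N.r_empty
    | insert y S _ ih =>
      intro h
      have h3 := ih (fun z hz => h z (Finset.mem_insert_of_mem hz))
      have h4 := h y (Finset.mem_insert_self y S)
      have h5 := N.r_union_le {y} S
      rw [← Finset.insert_eq] at h5
      omega
  have hzR : ∀ S : Finset ι, (∀ y ∈ S, N.r {y} = 0) → R.r S ≤ m := by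
    intro S h
    have h3 := R.con_add X S
    have h4 := hz S h
    have h5 : R.r S ≤ R.r (S ∪ X) := R.r_mono Finset.subset_union_left
    rw [← hN, h4, hXr] at h3
    omega
  set U : Finset (Fin n) := Finset.univ.filter (fun k => N.r {a k} = 0) with hU
  set V : Finset (Fin n) := Finset.univ.filter (fun k => N.r {c k} = 0) with hV
  have hUz : ∀ y ∈ U.image a, N.r {y} = 0 := by
    intro y hy
    rw [Finset.mem_image] at hy
    obtain ⟨k, hk, rfl⟩ := hy
    exact (Finset.mem_filter.mp hk).2
  have hVz : ∀ y ∈ V.image c, N.r {y} = 0 := by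
    intro y hy
    rw [Finset.mem_image] at hy
    obtain ⟨k, hk, rfl⟩ := hy
    exact (Finset.mem_filter.mp hk).2
  have hUm : U.card ≤ m := by rw [← ha.image_r U]; exact hzR _ hUz
  have hVm : V.card ≤ m := by rw [← hc.image_r V]; exact hzR _ hVz
  obtain ⟨U', hU', hUc⟩ := Finset.exists_superset_card_eq (s := U) (n := m + 1) (by omega)
    (by rw [Fintype.card_fin]; omega)
  obtain ⟨V', hV', hVc⟩ := Finset.exists_superset_card_eq (s := V) (n := m) hVm
    (by rw [Fintype.card_fin]; omega)
  have h3 := st_indep R a c hU' hV' (by rw [h1 U' V' hUc hVc, hUc, hVc]; omega)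
  have h4 : R.r (st a c U V) ≤ m := hzR _ (by
    intro y hy
    rw [st, Finset.mem_union] at hy
    rcases hy with hy | hy
    · exact hUz y hy
    · exact hVz y hy)
  have h5 : (U ∪ V.image π.symm).card < n := by
    have h6 := Finset.card_union_le U (V.image π.symm)
    have h7 : (V.image π.symm).card ≤ V.card := Finset.card_image_le
    omega
  have h6 : ∃ k, k ∉ U ∪ V.image π.symm := by
    by_contra h7
    push Not at h7
    have h8 : U ∪ V.image π.symm = Finset.univ := Finset.eq_univ_of_forall h7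
    rw [h8, Finset.card_univ, Fintype.card_fin] at h5
    omega
  obtain ⟨k, hk⟩ := h6
  rw [Finset.mem_union, not_or] at hk
  refine ⟨k, ?_, ?_⟩
  · rcases h01 (a k) with h7 | h7
    · exact (hk.1 (Finset.mem_filter.mpr ⟨Finset.mem_univ k, h7⟩)).elim
    · exact h7
  · rcases h01 (c (π k)) with h7 | h7
    · exfalso
      apply hk.2
      rw [Finset.mem_image]
      exact ⟨π k, Finset.mem_filter.mpr ⟨Finset.mem_univ _, h7⟩, by simp⟩
    · exact h7

/-- [P4, size 2] `Y' = Y` case: if the four pairs `{a x, c x'}, {a y, c y'}, {a x, c y'}, {a y, c x'}` have rank 1 in `N` and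
`N.r {a x} = 1 = N.r {c x'}` then the four elements together have rank 1 in `N`.  Proof: submodularity three times
(`{a x, c x'} ∪ {a x, c y'}` have rank 1 since the intersection contains `a x`; `{a x, c x'} ∪ {a y, c x'}` since it contains `c x'`;
union of the two three-element sets: the intersection contains `a x`). -/
theorem four_parallel (N : RkF ι) (p q p' q' : ι) (h1 : N.r {p, q} = 1) (h2 : N.r {p', q'} = 1)
    (h3 : N.r {p, q'} = 1) (h4 : N.r {p', q} = 1) (hp : N.r {p} = 1) (hq : N.r {q} = 1) :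
    N.r {p, q, p', q'} ≤ 1 := by
  have s1 := N.r_sub {p, q} {p, q'}
  have i1 : N.r {p} ≤ N.r ({p, q} ∩ {p, q'}) := N.r_mono (by
    intro y hy; rw [Finset.mem_singleton] at hy; subst hy; simp)
  have s2 := N.r_sub {p, q} {p', q}
  have i2 : N.r {q} ≤ N.r ({p, q} ∩ {p', q}) := N.r_mono (by
    intro y hy; rw [Finset.mem_singleton] at hy; subst hy; simp)
  have s3 := N.r_sub ({p, q} ∪ {p, q'}) ({p, q} ∪ {p', q})
  have i3 : N.r {p} ≤ N.r (({p, q} ∪ {p, q'}) ∩ ({p, q} ∪ {p', q})) := N.r_mono (by
    intro y hy; rw [Finset.mem_singleton] at hy; subst hy; simp)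
  have i4 : N.r {p, q, p', q'} ≤ N.r (({p, q} ∪ {p, q'}) ∪ ({p, q} ∪ {p', q})) := N.r_mono (by
    intro y hy
    simp only [Finset.mem_insert, Finset.mem_singleton, Finset.mem_union] at hy ⊢
    tauto)
  omega

/-- [FS, size 2] `X ↦ ∑ (R.con X).r (T k)` (up to the modular term) is submodular on subsets of the basis:
`f(X) = ∑_k r_X (T k) + 2 X.card` satisfies `f(X ∪ Y) + f(X ∩ Y) ≤ f(X) + f(Y)` for `X, Y ⊆ univ.image b`.
Proof: `(con X).r S + X.card = R.r (S ∪ X)` for `X ⊆ univ.image b`; `R.r (S ∪ X)` is submodular in `X`, and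
`∑_k (con X).r (T k) + n X.card = ∑_k R.r (T k ∪ X)`; the cardinality is modular on finsets. -/
theorem f_submod (R : RkF ι) {n : ℕ} (b : Fin n → ι) (hb : Bas R n b) (T : Fin n → Finset ι)
    (X Y : Finset ι) (hX : X ⊆ Finset.univ.image b) (hY : Y ⊆ Finset.univ.image b) :
    (∑ k, (R.con (X ∪ Y)).r (T k) + 2 * (X ∪ Y).card) + (∑ k, (R.con (X ∩ Y)).r (T k) + 2 * (X ∩ Y).card) ≤
      (∑ k, (R.con X).r (T k) + 2 * X.card) + (∑ k, (R.con Y).r (T k) + 2 * Y.card) := by
  have e : ∀ Z ⊆ Finset.univ.image b, ∑ k, R.r (T k ∪ Z) = ∑ k, (R.con Z).r (T k) + n * Z.card := by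
    intro Z hZ
    have e1 : ∀ k ∈ (Finset.univ : Finset (Fin n)), R.r (T k ∪ Z) = (R.con Z).r (T k) + Z.card := by
      intro k _
      rw [← R.con_add, hb.indep hZ]
    rw [Finset.sum_congr rfl e1, Finset.sum_add_distrib, Finset.sum_const, Finset.card_univ, Fintype.card_fin,
      smul_eq_mul]
  have e1 := e X hX
  have e2 := e Y hY
  have e3 := e (X ∪ Y) (Finset.union_subset hX hY)
  have e4 := e (X ∩ Y) (Finset.inter_subset_left.trans hX)
  have hs : ∑ k, R.r (T k ∪ (X ∪ Y)) + ∑ k, R.r (T k ∪ (X ∩ Y)) ≤ ∑ k, R.r (T k ∪ X) + ∑ k, R.r (T k ∪ Y) := by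
    rw [← Finset.sum_add_distrib, ← Finset.sum_add_distrib]
    apply Finset.sum_le_sum
    intro k _
    have h1 := R.r_sub (T k ∪ X) (T k ∪ Y)
    have h2 : (T k ∪ X) ∪ (T k ∪ Y) = T k ∪ (X ∪ Y) := by
      ext y; simp only [Finset.mem_union]; tauto
    have h3 : (T k ∪ X) ∩ (T k ∪ Y) = T k ∪ (X ∩ Y) := by
      ext y; simp only [Finset.mem_union, Finset.mem_inter]; tauto
    rw [h2, h3] at h1
    exact h1
  have hc := Finset.card_union_add_card_inter X Y
  have hcn : n * (X ∪ Y).card + n * (X ∩ Y).card = n * X.card + n * Y.card := by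
    rw [← mul_add, ← mul_add, hc]
  omega

/-- [SD, size 3] STEP 3 (b), `m ≥ 2`: there is a good permutation.  Proof: if `π = 1` is not good there is a violator `Y`:
`∑ + 2 Y.card < 2 n`, so by `stepC` (`pairs_ok`) equality with `+ 1`, `Y.card = m`, all pairs have rank 1 mod `Y`.
`x` from `exists_loopless`, `y ≠ x` arbitrary, `π' = Equiv.swap x y`.  CLAIM: `π'` is good.  Otherwise a violator `Y'`, with
`Y'.card = m` and all pairs of `π'` of rank 1 mod `Y'`.
`Y' = Y`: `four_parallel` for `N = R.con Y`: `N.r {a x, c x, a y, c y} ≤ 1`.  Let `K` be a set of `m` indices containing `x, y`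
(`m ≥ 2`): `N.r (K.biUnion T) ≤ 1 + (m - 2)`, but `R.r (K.biUnion T) = 2 m ≤ N.r (K.biUnion T) + m`: contradiction.
`Y' ≠ Y`: `∑_k (R.con Y').r {a k, c k} ≤ ∑_k (R.con Y').r {a k, c (π' k)} + 2` (only `k = x, y` differ; there the left terms are `≤ 2`
and the right ones `= 1`).  So with `f(X) = ∑_k (R.con X).r {a k, c k} + 2 X.card`: `f(Y) = 2n - 1`, `f(Y') ≤ 2n + 1`, so by `f_submod`
`f(Y ∪ Y') + f(Y ∩ Y') ≤ 4 n`; both cardinalities are `≠ m` (`Y ≠ Y'` have the same cardinality `m`), so both are `≥ 2n` by `stepC`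
(`≥ 2n - 1` and equality excluded), so both `= 2n`, so `(Y ∩ Y').card ∈ {0, m, m+1, n}` and `< m`: it is `0`, and
`(Y ∪ Y').card = 2 m ∈ {0, m, m + 1, 2 m + 1}`: impossible for `m ≥ 2`. -/
theorem stepD (R : RkF ι) {n m : ℕ} (hn : n = 2 * m + 1) (hm : 2 ≤ m) (a c b : Fin n → ι) (ha : Bas R n a)
    (hc : Bas R n c) (hb : Bas R n b)
    (h1 : ∀ U V : Finset (Fin n), U.card = m + 1 → V.card = m → R.r (st a c U V) = n)
    (h2 : ∀ U V : Finset (Fin n), U.card = m → V.card = m + 1 → R.r (st a c U V) = n) :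
    ∃ π : Equiv.Perm (Fin n), Good R n 2 b (fun k => {a k, c (π k)}) := by
  classical
  by_contra hno
  push Not at hno
  -- violators
  have viol : ∀ π : Equiv.Perm (Fin n), ∃ Y ⊆ Finset.univ.image b, Y.card = m ∧
      2 * n = ∑ k, (R.con Y).r {a k, c (π k)} + 2 * Y.card + 1 ∧ ∀ k, (R.con Y).r {a k, c (π k)} = 1 := by
    intro π
    have h3 := hno π
    unfold Good at h3
    push Not at h3
    obtain ⟨Y, hY, hlt⟩ := h3
    obtain ⟨p1, p2⟩ := pairs_ok R hn a c ha h1 π
    obtain ⟨q1, q2, _⟩ := stepC R hn b hb (fun k => {a k, c (π k)}) p1 p2 Y hY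
    have h4 : 2 * n = ∑ k, (R.con Y).r {a k, c (π k)} + 2 * Y.card + 1 := by
      change ∑ k, (R.con Y).r {a k, c (π k)} + 2 * Y.card < 2 * n at hlt
      change 2 * n ≤ ∑ k, (R.con Y).r {a k, c (π k)} + 2 * Y.card + 1 at q1
      omega
    obtain ⟨h5, h6⟩ := q2 h4
    exact ⟨Y, hY, h5, h4, h6⟩
  obtain ⟨Y, hY, hYm, hYe, hY1⟩ := viol 1
  simp only [Equiv.Perm.coe_one, id_eq] at hYe hY1
  obtain ⟨x, hax, hcx⟩ := exists_loopless R hn a c b ha hc hb h1 1 Y hY hYm
  simp only [Equiv.Perm.coe_one, id_eq] at hcx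
  obtain ⟨y, hyx⟩ : ∃ y : Fin n, y ≠ x := by
    have : (Finset.univ.erase x).Nonempty := by
      rw [← Finset.card_pos, Finset.card_erase_of_mem (Finset.mem_univ x), Finset.card_univ, Fintype.card_fin]
      omega
    obtain ⟨y, hy⟩ := this
    exact ⟨y, (Finset.mem_erase.mp hy).1⟩
  obtain ⟨Y', hY', hYm', _, hY1'⟩ := viol (Equiv.swap x y)
  obtain ⟨p1, p2⟩ := pairs_ok R hn a c ha h1 1
  simp only [Equiv.Perm.coe_one, id_eq] at p1 p2
  have hx' := hY1' x
  have hy' := hY1' y
  rw [Equiv.swap_apply_left] at hx'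
  rw [Equiv.swap_apply_right] at hy'
  by_cases hYY : Y' = Y
  · subst hYY
    set N := R.con Y' with hN
    have hf := four_parallel N (a x) (c x) (a y) (c y) (hY1 x) (hY1 y) hx' hy' hax hcx
    obtain ⟨K, hK, hKc⟩ := Finset.exists_superset_card_eq (s := {x, y}) (n := m)
      (by rw [Finset.card_pair (Ne.symm hyx)]; exact hm) (by rw [Fintype.card_fin]; omega)
    have hxK : x ∈ K := hK (by simp)
    have hyK : y ∈ K := hK (by simp)
    have hyK' : y ∈ K.erase x := Finset.mem_erase.mpr ⟨hyx, hyK⟩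
    have h3 : N.r (K.biUnion (fun k => {a k, c k})) ≤ 1 + (m - 2) := by
      have e1 : K.biUnion (fun k => ({a k, c k} : Finset ι)) ⊆
          {a x, c x, a y, c y} ∪ ((K.erase x).erase y).biUnion (fun k => {a k, c k}) := by
        intro z hz
        rw [Finset.mem_biUnion] at hz
        obtain ⟨k, hk, hz⟩ := hz
        rw [Finset.mem_union]
        by_cases hkx : k = x
        · left
          subst hkx
          simp only [Finset.mem_insert, Finset.mem_singleton] at hz ⊢
          tauto
        · by_cases hky : k = y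
          · left
            subst hky
            simp only [Finset.mem_insert, Finset.mem_singleton] at hz ⊢
            tauto
          · right
            rw [Finset.mem_biUnion]
            exact ⟨k, Finset.mem_erase.mpr ⟨hky, Finset.mem_erase.mpr ⟨hkx, hk⟩⟩, hz⟩
      have gen : ∀ S : Finset (Fin n), N.r (S.biUnion (fun k => {a k, c k})) ≤ S.card := by
        intro S
        induction S using Finset.induction_on with
        | empty => simp [N.r_empty]
        | insert k S hk ih =>
          rw [Finset.biUnion_insert, Finset.card_insert_of_notMem hk]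
          have h4 := N.r_union_le {a k, c k} (S.biUnion (fun k => {a k, c k}))
          have h5 := hY1 k
          omega
      have c1 : ((K.erase x).erase y).card = m - 2 := by
        rw [Finset.card_erase_of_mem hyK', Finset.card_erase_of_mem hxK, hKc]
        omega
      have h5 := gen ((K.erase x).erase y)
      rw [c1] at h5
      have h6 := N.r_mono e1
      have h7 := N.r_union_le {a x, c x, a y, c y} (((K.erase x).erase y).biUnion (fun k => {a k, c k}))
      omega
    have h4 := p1 K (by omega)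
    have h5 := R.con_add Y' (K.biUnion (fun k => {a k, c k}))
    have h6 : R.r (K.biUnion (fun k => {a k, c k})) ≤ R.r (K.biUnion (fun k => {a k, c k}) ∪ Y') :=
      R.r_mono Finset.subset_union_left
    have h7 : R.r Y' = m := by rw [hb.indep hY, hYm]
    rw [← hN] at h5
    omega
  · -- uncrossing
    have hle : ∑ k, (R.con Y').r {a k, c k} ≤ ∑ k, (R.con Y').r {a k, c ((Equiv.swap x y) k)} + 2 := by
      have hxy : x ∈ (Finset.univ : Finset (Fin n)) := Finset.mem_univ x
      have hyx' : y ∈ (Finset.univ : Finset (Fin n)).erase x := Finset.mem_erase.mpr ⟨hyx, Finset.mem_univ y⟩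
      rw [← Finset.add_sum_erase _ _ hxy, ← Finset.add_sum_erase _ _ hyx', ← Finset.add_sum_erase _ (fun k =>
        (R.con Y').r {a k, c ((Equiv.swap x y) k)}) hxy, ← Finset.add_sum_erase _ (fun k =>
        (R.con Y').r {a k, c ((Equiv.swap x y) k)}) hyx']
      have e1 : ∑ k ∈ (Finset.univ.erase x).erase y, (R.con Y').r {a k, c k} =
          ∑ k ∈ (Finset.univ.erase x).erase y, (R.con Y').r {a k, c ((Equiv.swap x y) k)} := by
        apply Finset.sum_congr rfl
        intro k hk
        rw [Finset.mem_erase, Finset.mem_erase] at hk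
        rw [Equiv.swap_apply_of_ne_of_ne hk.2.1 hk.1]
      have two : ∀ k, (R.con Y').r {a k, c k} ≤ 2 := by
        intro k
        have h3 := (R.con Y').r_le_card {a k, c k}
        have h4 : ({a k, c k} : Finset ι).card ≤ 2 := Finset.card_le_two
        omega
      have t1 := two x
      have t2 := two y
      have t3 := hY1' x
      have t4 := hY1' y
      beta_reduce at t3 t4 ⊢
      omega
    have hs' : ∑ k, (R.con Y').r {a k, c ((Equiv.swap x y) k)} = n := by
      rw [Finset.sum_congr rfl (fun k _ => hY1' k)]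
      simp
    have hfs := f_submod R b hb (fun k => {a k, c k}) Y Y' hY hY'
    have hUb : Y ∪ Y' ⊆ Finset.univ.image b := Finset.union_subset hY hY'
    have hIb : Y ∩ Y' ⊆ Finset.univ.image b := Finset.inter_subset_left.trans hY
    obtain ⟨u1, u2, u3⟩ := stepC R hn b hb (fun k => {a k, c k}) p1 p2 (Y ∪ Y') hUb
    obtain ⟨i1, i2, i3⟩ := stepC R hn b hb (fun k => {a k, c k}) p1 p2 (Y ∩ Y') hIb
    have hcI : (Y ∩ Y').card < m := by
      rw [← hYm]
      apply Finset.card_lt_card
      rw [Finset.ssubset_iff_subset_ne]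
      refine ⟨Finset.inter_subset_left, ?_⟩
      intro h3
      apply hYY
      have h4 : Y ⊆ Y' := by rw [← h3]; exact Finset.inter_subset_right
      exact (Finset.eq_of_subset_of_card_le h4 (by omega)).symm
    have hcU := Finset.card_union_add_card_inter Y Y'
    beta_reduce at hfs u1 u2 u3 i1 i2 i3
    have hu : 2 * n ≤ ∑ k, (R.con (Y ∪ Y')).r {a k, c k} + 2 * (Y ∪ Y').card := by
      by_contra h3
      have h4 := (u2 (by omega)).1
      omega
    have hi : 2 * n ≤ ∑ k, (R.con (Y ∩ Y')).r {a k, c k} + 2 * (Y ∩ Y').card := by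
      by_contra h3
      have h4 := (i2 (by omega)).1
      omega
    have hu' := u3 (by omega)
    have hi' := i3 (by omega)
    omega

end Pool.Agent.RotaP
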