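import Pool.Agent.RotaP.StC

set_option autoImplicit false

namespace Pool.Agent.RotaP

variable {ι : Type*} [DecidableEq ι]

private theorem CV_sub (N : RkF ι) (p q q' : ι) (h1 : N.r {p, q} = 1) (h2 : N.r {p, q'} = 1)
    (hp : N.r {p} ≠ 0) : N.r {p, q, q'} ≤ 1 := by
  have h := N.r_sub {p, q} {p, q'}
  have e1 : ({p, q} : Finset ι) ∪ {p, q'} = {p, q, q'} := by
    ext y
    simp only [Finset.mem_union, Finset.mem_insert, Finset.mem_singleton]
    tauto
  have e2 : ({p} : Finset ι) ⊆ {p, q} ∩ {p, q'} := by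
    intro y hy
    rw [Finset.mem_singleton] at hy
    simp [hy]
  have h3 := N.r_mono e2
  rw [e1] at h
  omega

private theorem CV_loop (R : RkF ι) (a c : Fin 3 → ι)
    (h2 : ∀ U V : Finset (Fin 3), U.card = 1 → V.card = 2 → R.r (st a c U V) = 3)
    (X : Finset ι) (hXr : R.r X ≤ 1) (k i j : Fin 3) (hij : i ≠ j)
    (h3 : (R.con X).r {a k, c i} = 1) (h4 : (R.con X).r {a k, c j} = 1) : (R.con X).r {a k} = 0 := by
  by_contra hne
  have h5 := CV_sub (R.con X) (a k) (c i) (c j) h3 h4 hne
  have h6 := h2 {k} {i, j} (Finset.card_singleton k) (Finset.card_pair hij)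
  have e : st a c {k} {i, j} = {a k, c i, c j} := by
    unfold st
    rw [Finset.image_singleton, Finset.image_insert, Finset.image_singleton]
    rfl
  rw [e] at h6
  have h7 := R.con_add X {a k, c i, c j}
  have h8 : R.r {a k, c i, c j} ≤ R.r ({a k, c i, c j} ∪ X) := R.r_mono Finset.subset_union_left
  omega

/-- [CV, size 2] `n = 3`: two different permutations have no common violator `X`, `X.card = 1`, with all pairs of rank 1.
Proof: `N = R.con X`.  Every set `S` of type `(2,1)` or `(1,2)` has `N.r S ≥ 2` (`R.r S = 3 ≤ N.r S + 1`).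
If `π k ≠ π' k` then `N.r {a k} = 0`: otherwise `N.r {a k} = 1` and submodularity for `{a k, c (π k)}`, `{a k, c (π' k)}` gives
`N.r (st a c {k} {π k, π' k}) ≤ 1`.  There are two such indices `k ≠ k'` (`k' = π⁻¹ (π' k)`), so
`N.r (st a c {k, k'} {l}) ≤ N.r {c l} ≤ 1` for any `l`: contradiction. -/
theorem no_common (R : RkF ι) (a c b : Fin 3 → ι) (ha : Bas R 3 a) (hc : Bas R 3 c) (hb : Bas R 3 b)
    (h1 : ∀ U V : Finset (Fin 3), U.card = 2 → V.card = 1 → R.r (st a c U V) = 3)
    (h2 : ∀ U V : Finset (Fin 3), U.card = 1 → V.card = 2 → R.r (st a c U V) = 3)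
    (X : Finset ι) (hX : X ⊆ Finset.univ.image b) (hX1 : X.card = 1) (π π' : Equiv.Perm (Fin 3)) (hne : π ≠ π')
    (h3 : ∀ k, (R.con X).r {a k, c (π k)} = 1) (h4 : ∀ k, (R.con X).r {a k, c (π' k)} = 1) : False := by
  have hXr : R.r X ≤ 1 := (R.r_le_card X).trans hX1.le
  obtain ⟨k, hk⟩ : ∃ k, π k ≠ π' k := by
    by_contra hcon
    push Not at hcon
    exact hne (Equiv.ext hcon)
  have hk' : π (π.symm (π' k)) ≠ π' (π.symm (π' k)) := by
    intro h
    rw [Equiv.apply_symm_apply] at h
    have h5 := π'.injective h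
    apply hk
    nth_rewrite 1 [h5]
    rw [Equiv.apply_symm_apply]
  set k' := π.symm (π' k) with hk'd
  have hkk : k ≠ k' := by
    intro h
    apply hk
    have : π k = π k' := by rw [← h]
    rw [this, hk'd, Equiv.apply_symm_apply]
  have l1 := CV_loop R a c h2 X hXr k (π k) (π' k) hk (h3 k) (h4 k)
  have l2 := CV_loop R a c h2 X hXr k' (π k') (π' k') hk' (h3 k') (h4 k')
  have h6 := h1 {k, k'} {π k} (Finset.card_pair hkk) (Finset.card_singleton _)
  have e : st a c {k, k'} {π k} = {a k, a k', c (π k)} := by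
    unfold st
    rw [Finset.image_singleton, Finset.image_insert, Finset.image_singleton]
    ext y
    simp only [Finset.mem_union, Finset.mem_insert, Finset.mem_singleton]
    tauto
  rw [e] at h6
  have h7 : (R.con X).r {a k, a k', c (π k)} ≤ 1 := by
    have h8 : ({a k, a k', c (π k)} : Finset ι) = {a k'} ∪ {a k, c (π k)} := by
      ext y
      simp only [Finset.mem_union, Finset.mem_insert, Finset.mem_singleton]
      tauto
    rw [h8]
    have h9 := (R.con X).r_union_le {a k'} {a k, c (π k)}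
    have h10 := h3 k
    omega
  have h11 := R.con_add X {a k, a k', c (π k)}
  have h12 : R.r {a k, a k', c (π k)} ≤ R.r ({a k, a k', c (π k)} ∪ X) :=
    R.r_mono Finset.subset_union_left
  omega

/-- [SE, size 2] STEP 4, `n = 3`: there is a good permutation.  Proof: otherwise every `π` has a violator, which by `stepC`
(`m = 1`, `pairs_ok`) is `{b j}` for some `j : Fin 3` and all pairs have rank 1: a function from the six permutations to `Fin 3`,
not injective: `no_common`. -/
theorem stepE (R : RkF ι) (a c b : Fin 3 → ι) (ha : Bas R 3 a) (hc : Bas R 3 c) (hb : Bas R 3 b)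
    (h1 : ∀ U V : Finset (Fin 3), U.card = 2 → V.card = 1 → R.r (st a c U V) = 3)
    (h2 : ∀ U V : Finset (Fin 3), U.card = 1 → V.card = 2 → R.r (st a c U V) = 3) :
    ∃ π : Equiv.Perm (Fin 3), Good R 3 2 b (fun k => {a k, c (π k)}) := by
  by_contra hno
  push Not at hno
  have hv : ∀ π : Equiv.Perm (Fin 3), ∃ j : Fin 3, ∀ k, (R.con {b j}).r {a k, c (π k)} = 1 := by
    intro π
    have h3 := hno π
    unfold Good at h3
    push Not at h3
    obtain ⟨X, hX, hlt⟩ := h3
    have hp := pairs_ok (m := 1) R (by norm_num) a c ha (fun U V hU hV => h1 U V hU hV) π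
    obtain ⟨s1, s2, -⟩ := stepC (m := 1) R (by norm_num) b hb (fun k => {a k, c (π k)}) hp.1 hp.2 X hX
    obtain ⟨hX1, hall⟩ := s2 (by omega)
    obtain ⟨x, rfl⟩ := Finset.card_eq_one.mp hX1
    obtain ⟨j, -, hj⟩ := Finset.mem_image.mp (hX (Finset.mem_singleton_self x))
    refine ⟨j, ?_⟩
    rw [hj]
    exact hall
  choose f hf using hv
  have hninj : ¬ Function.Injective f := by
    intro hinj
    have := Fintype.card_le_of_injective f hinj
    rw [Fintype.card_perm, Fintype.card_fin] at this
    norm_num [Nat.factorial] at this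
  unfold Function.Injective at hninj
  push Not at hninj
  obtain ⟨π, π', heq, hne⟩ := hninj
  refine no_common R a c b ha hc hb h1 h2 {b (f π)} ?_ (Finset.card_singleton _) π π' hne (hf π) ?_
  · intro y hy
    rw [Finset.mem_singleton] at hy
    rw [hy]
    exact Finset.mem_image_of_mem _ (Finset.mem_univ _)
  · rw [heq]
    exact hf π'

end Pool.Agent.RotaP
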