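import Pool.Agent.RotaP.Defs

set_option autoImplicit false

namespace Pool.Agent.RotaP

namespace RkF

variable {ι κ : Type*} [DecidableEq ι] [DecidableEq κ]

private theorem SH_aux (R : RkF ι) (I : Finset κ) (F : κ → Finset ι) (k : ℕ) (S : Finset ι) :
    (∀ x ∈ S, k ≤ (I.filter (fun i => x ∈ F i)).card) →
    k * R.r S ≤ ∑ i ∈ I, R.r (F i ∩ S) := by
  induction S using Finset.induction_on with
  | empty => intro _; simp [R.r_empty]
  | insert x S hx ih =>
    intro h
    have h1 := ih (fun y hy => h y (Finset.mem_insert_of_mem hy))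
    have h2 := h x (Finset.mem_insert_self x S)
    set δ := R.r (insert x S) - R.r S with hδ
    have hm : R.r S ≤ R.r (insert x S) := R.r_mono (Finset.subset_insert x S)
    have h3 : ∀ i ∈ I, R.r (F i ∩ S) + (if x ∈ F i then δ else 0) ≤ R.r (F i ∩ insert x S) := by
      intro i _
      by_cases hxi : x ∈ F i
      · rw [if_pos hxi]
        have h4 := R.r_sub (F i ∩ insert x S) S
        have e1 : (F i ∩ insert x S) ∪ S = insert x S := by
          ext y
          simp only [Finset.mem_union, Finset.mem_inter, Finset.mem_insert]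
          constructor
          · rintro (⟨_, h⟩ | h)
            · exact h
            · exact Or.inr h
          · rintro (rfl | h)
            · exact Or.inl ⟨hxi, Or.inl rfl⟩
            · exact Or.inr h
        have e2 : (F i ∩ insert x S) ∩ S = F i ∩ S := by
          ext y
          simp only [Finset.mem_inter, Finset.mem_insert]
          tauto
        rw [e1, e2] at h4
        omega
      · rw [if_neg hxi, add_zero]
        exact R.r_mono (Finset.inter_subset_inter_left (Finset.subset_insert x S))
    have h5 := Finset.sum_le_sum h3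
    rw [Finset.sum_add_distrib, ← Finset.sum_filter, Finset.sum_const, smul_eq_mul] at h5
    have h6 : k * δ ≤ (I.filter (fun i => x ∈ F i)).card * δ := Nat.mul_le_mul_right δ h2
    have h7 : k * R.r (insert x S) = k * R.r S + k * δ := by
      rw [← mul_add]
      congr 1
      omega
    omega

/-- [SH, size 2] SHEARER.  Proof: show `k * r S ≤ ∑ r (F i ∩ S)` by induction on `S` (`Finset.induction_on`), then `r_mono`.
Step `insert x S`, `x ∉ S`: if `x ∈ F i`, `r (F i ∩ insert x S) - r (F i ∩ S) ≥ r (insert x S) - r S` (submodularity for the sets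
`F i ∩ insert x S` and `S`: union `insert x S`, intersection `F i ∩ S`); if `x ∉ F i` the intersection does not change.
At least `k` indices contain `x`. -/
theorem shearer (R : RkF ι) (I : Finset κ) (F : κ → Finset ι) (S : Finset ι) (k : ℕ)
    (h : ∀ x ∈ S, k ≤ (I.filter (fun i => x ∈ F i)).card) :
    k * R.r S ≤ ∑ i ∈ I, R.r (F i) :=
  (SH_aux R I F k S h).trans (Finset.sum_le_sum fun _ _ => R.r_mono Finset.inter_subset_left)

/-- [SH] subadditivity for a covering; the special case `k = 1` (every `x ∈ S` is in some `F i`). -/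
theorem cover_le (R : RkF ι) (I : Finset κ) (F : κ → Finset ι) (S : Finset ι)
    (h : ∀ x ∈ S, ∃ i ∈ I, x ∈ F i) : R.r S ≤ ∑ i ∈ I, R.r (F i) := by
  have h1 := shearer R I F S 1 (fun x hx => by
    obtain ⟨i, hi, hxi⟩ := h x hx
    exact Finset.card_pos.mpr ⟨i, Finset.mem_filter.mpr ⟨hi, hxi⟩⟩)
  rwa [one_mul] at h1

end RkF

end Pool.Agent.RotaP
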