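import Pool.Agent.RotaP.CArr
import Pool.Agent.RotaP.Sh

set_option autoImplicit false

namespace Pool.Agent.RotaP

variable {ι : Type*} [DecidableEq ι]

/-- [TW, size 2] THEOREM I: two values.  Proof: `n = 0` trivial.  `n ≥ 1`: `arr_of_good` with `σ₀ i k = i + k` (addition in `Fin n`,
`Equiv.addLeft i`; get `NeZero n`).  `T k = P.image (fun i => a (i + k))`.  For `X ⊆ univ.image b`: `shearer` for `R.con X`,
`I = univ`, `S = univ.image a`, `k = P.card`: the element `a j` is in `T k` for `k = j - i`, `i ∈ P` (`P.card` different values).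
So `P.card * (R.con X).r (univ.image a) ≤ ∑`, and `(R.con X).r (univ.image a) = n - X.card` (`Bas.con_eq`). -/
theorem arr_two (R : RkF ι) {n : ℕ} (a b : Fin n → ι) (ha : Bas R n a) (hb : Bas R n b)
    (rows : Fin n → Fin n → ι) (P : Finset (Fin n)) (h1 : ∀ i ∈ P, rows i = a) (h2 : ∀ i, i ∉ P → rows i = b) :
    Arr R n rows := by
  rcases Nat.eq_zero_or_pos n with h0 | h0
  · subst h0
    exact ⟨fun i => i.elim0, fun k => k.elim0⟩
  have : NeZero n := ⟨by omega⟩
  refine arr_of_good R b hb rows P h2 (fun i => Equiv.addLeft i) ?_
  intro X hX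
  have hsh := (R.con X).shearer Finset.univ
    (fun k => P.image (fun i => rows i ((Equiv.addLeft i) k))) (Finset.univ.image a) P.card ?_
  · have hc := hb.con_eq hX ha.eq
    have e : P.card * n = P.card * (R.con X).r (Finset.univ.image a) + P.card * X.card := by
      rw [← Nat.mul_add, hc]
    have e2 : ∑ k, (R.con X).r (P.image (fun i => rows i ((Equiv.addLeft i) k))) + P.card * X.card ≥
        P.card * n := by
      rw [e]
      exact Nat.add_le_add_right hsh _
    exact e2
  · intro x hx
    obtain ⟨j, -, rfl⟩ := Finset.mem_image.mp hx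
    calc P.card = (P.image (fun i => j - i)).card :=
          (Finset.card_image_of_injective _ (fun i i' h => by
            have h' : j - i = j - i' := h
            exact sub_right_injective h')).symm
      _ ≤ _ := Finset.card_le_card (by
          intro k hk
          obtain ⟨i, hi, rfl⟩ := Finset.mem_image.mp hk
          simp only [Finset.mem_filter, Finset.mem_univ, true_and, Finset.mem_image]
          refine ⟨i, hi, ?_⟩
          rw [h1 i hi]
          show a (i + (j - i)) = a j
          rw [add_sub_cancel])

/-- [PR, size 2] pairs: it is enough to find a permutation `π` for which the pairs `{a k, c (π k)}` are good.  Proof: `arr_of_good`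
with `P = {p, q}`, `σ₀ p = 1`, `σ₀ q = π`. -/
theorem arr_of_pairs (R : RkF ι) {n : ℕ} (a c b : Fin n → ι) (hb : Bas R n b) (π : Equiv.Perm (Fin n))
    (hG : Good R n 2 b (fun k => {a k, c (π k)})) (rows : Fin n → Fin n → ι) (p q : Fin n) (hpq : p ≠ q)
    (hp : rows p = a) (hq : rows q = c) (h : ∀ i, i ≠ p → i ≠ q → rows i = b) : Arr R n rows := by
  have hcard : ({p, q} : Finset (Fin n)).card = 2 := Finset.card_pair hpq
  refine arr_of_good R b hb rows {p, q} (fun i hi => ?_) (fun i => if i = p then 1 else π) ?_
  · simp only [Finset.mem_insert, Finset.mem_singleton, not_or] at hi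
    exact h i hi.1 hi.2
  · rw [hcard]
    have e : (fun k => ({p, q} : Finset (Fin n)).image
        (fun i => rows i ((if i = p then (1 : Equiv.Perm (Fin n)) else π) k))) =
        (fun k => {a k, c (π k)}) := by
      funext k
      rw [Finset.image_insert, Finset.image_singleton, if_pos rfl, if_neg hpq.symm, hp, hq]
      rfl
    rw [e]
    exact hG

end Pool.Agent.RotaP
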