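import Pool.Agent.RotaP.StB
import Pool.Agent.RotaP.StD
import Pool.Agent.RotaP.StE
import Pool.Agent.RotaP.Two

set_option autoImplicit false

namespace Pool.Agent.RotaP

variable {ι : Type*} [DecidableEq ι]

theorem exists_good (R : RkF ι) {n : ℕ} (hn1 : 2 ≤ n) (a c b : Fin n → ι) (ha : Bas R n a) (hc : Bas R n c)
    (hb : Bas R n b) : ∃ π : Equiv.Perm (Fin n), Good R n 2 b (fun k => {a k, c (π k)}) := by
  rcases Nat.even_or_odd' n with ⟨m, hm | hm⟩
  · exact even_good R hm a c b ha hc hb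
  · rcases stepB R hm a c b ha hc hb with h | ⟨h1, h2⟩
    · exact h
    · rcases Nat.lt_or_ge m 2 with h3 | h3
      · obtain rfl : m = 1 := by omega
        obtain rfl : n = 3 := by omega
        exact stepE R a c b ha hc hb h1 h2
      · exact stepD R hm h3 a c b ha hc hb h1 h2

/-- THEOREM II, abstract form. -/
theorem arr_main (R : RkF ι) {n : ℕ} (a c b : Fin n → ι) (ha : Bas R n a) (hc : Bas R n c) (hb : Bas R n b)
    (rows : Fin n → Fin n → ι) (p q : Fin n) (hpq : p ≠ q)
    (hp : rows p = a) (hq : rows q = c) (h : ∀ i, i ≠ p → i ≠ q → rows i = b) : Arr R n rows := by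
  have h2 : 2 ≤ n := by
    have hp' := p.2
    have hq' := q.2
    have h3 : p.1 ≠ q.1 := fun e => hpq (Fin.ext e)
    omega
  obtain ⟨π, hπ⟩ := exists_good R h2 a c b ha hc hb
  exact arr_of_pairs R a c b hb π hπ rows p q hpq hp hq h

end Pool.Agent.RotaP
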