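import Pool.Agent.RotaP.Gd
import Pool.Agent.RotaP.Main

set_option autoImplicit false

namespace Pool.Agent.RotaP

variable {ι : Type*} [DecidableEq ι]

/-- rows of which at most two are exceptional (Theorem II) -/
theorem arr_few {κ : Type*} [DecidableEq κ] (R : RkF ι) {n : ℕ} (a : κ → Fin n → ι) (ha : ∀ x, Bas R n (a x))
    (c : Fin n → κ) (β : κ) (h : (Finset.univ.filter (fun i => c i ≠ β)).card ≤ 2) :
    Arr R n (fun i => a (c i)) := by
  rcases Nat.lt_or_ge n 2 with h1 | h1
  · -- `n ≤ 1`
    refine ⟨fun _ => 1, fun k => ?_⟩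
    have hsub : ∀ i : Fin n, i = k := by
      intro i
      apply Fin.ext
      have := i.2
      have := k.2
      omega
    refine Eq.trans ?_ (ha (c k)).eq
    congr 1
    ext y
    simp only [Finset.mem_image, Finset.mem_univ, true_and, Equiv.Perm.coe_one, id_eq]
    constructor
    · rintro ⟨i, rfl⟩
      exact ⟨k, by rw [hsub i]⟩
    · rintro ⟨l, rfl⟩
      exact ⟨k, by rw [hsub l]⟩
  · obtain ⟨S, hS, hSc⟩ := Finset.exists_superset_card_eq (n := 2) h (by rw [Fintype.card_fin]; exact h1)
    obtain ⟨p, q, hpq, rfl⟩ := Finset.card_eq_two.mp hSc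
    refine arr_main R (a (c p)) (a (c q)) (a β) (ha _) (ha _) (ha _) _ p q hpq rfl rfl ?_
    intro i hip hiq
    have h2 : c i = β := by
      by_contra h3
      have h4 := hS (Finset.mem_filter.mpr ⟨Finset.mem_univ i, h3⟩)
      rw [Finset.mem_insert, Finset.mem_singleton] at h4
      rcases h4 with h4 | h4
      · exact hip h4
      · exact hiq h4
    rw [h2]

/-- rows with two values -/
theorem arr_two_col {κ : Type*} [DecidableEq κ] (R : RkF ι) {n : ℕ} (a : κ → Fin n → ι) (ha : ∀ x, Bas R n (a x))
    (c : Fin n → κ) (x0 x1 : κ) (h : ∀ i, c i = x0 ∨ c i = x1) : Arr R n (fun i => a (c i)) := by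
  refine arr_two R (a x0) (a x1) (ha _) (ha _) _ (Finset.univ.filter (fun i => c i = x0)) ?_ ?_
  · intro i hi
    rw [(Finset.mem_filter.mp hi).2]
  · intro i hi
    have h2 : c i = x1 := by
      rcases h i with h3 | h3
      · exact absurd (Finset.mem_filter.mpr ⟨Finset.mem_univ i, h3⟩) hi
      · exact h3
    rw [h2]

/-- a colouring with given class sizes -/
theorem exists_col {K : ℕ} (m : Fin K → ℕ) :
    ∃ c : Fin (∑ x, m x) → Fin K, ∀ x, (Finset.univ.filter (fun i => c i = x)).card = m x := by
  refine ⟨fun i => (finSigmaFinEquiv.symm i).1, fun x => ?_⟩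
  rw [← Fintype.card_subtype]
  have e1 : {i : Fin (∑ x, m x) // (finSigmaFinEquiv.symm i).1 = x} ≃
      {p : (i : Fin K) × Fin (m i) // p.1 = x} :=
    finSigmaFinEquiv.symm.subtypeEquiv (fun i => Iff.rfl)
  rw [Fintype.card_congr (e1.trans (Equiv.sigmaSubtype x)), Fintype.card_fin]

/-- the multiplicities of the colours `< j` -/
def lev {K : ℕ} (m : Fin K → ℕ) (j : ℕ) (x : Fin K) : ℕ := if x.val < j then m x else 0

theorem lev_succ_of_lt {K : ℕ} (m : Fin K → ℕ) (j : ℕ) (hj : j < K) :
    lev m (j + 1) = Function.update (lev m j) ⟨j, hj⟩ (m ⟨j, hj⟩) := by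
  funext x
  by_cases hx : x = ⟨j, hj⟩
  · subst hx
    rw [Function.update_self, lev, if_pos (Nat.lt_succ_self j)]
  · rw [Function.update_of_ne hx, lev, lev]
    have h1 : x.val ≠ j := fun h => hx (Fin.ext h)
    by_cases h2 : x.val < j
    · rw [if_pos h2, if_pos (by omega)]
    · rw [if_neg h2, if_neg (by omega)]

theorem lev_of_le {K : ℕ} (m : Fin K → ℕ) (j : ℕ) (hj : K ≤ j) : lev m j = m := by
  funext x
  rw [lev, if_pos (by have := x.2; omega)]

/-- the chain: every new class has a size divisible by the number of the previous bases -/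
theorem chain {K : ℕ} (m : Fin K → ℕ) (t : ℕ) (h0 : Gd ι (lev m t))
    (hdiv : ∀ j, t ≤ j → (∑ x, lev m j x) ∣ (∑ x, lev m (j + 1) x)) : ∀ j, t ≤ j → Gd ι (lev m j) := by
  intro j hj
  induction j, hj using Nat.le_induction with
  | base => exact h0
  | succ j hj ih =>
    rcases Nat.lt_or_ge j K with h1 | h1
    · have hβ : lev m j ⟨j, h1⟩ = 0 := by rw [lev, if_neg (lt_irrefl j)]
      have hsum : ∑ x, lev m (j + 1) x = ∑ x, lev m j x + m ⟨j, h1⟩ := by
        rw [lev_succ_of_lt m j h1, Finset.sum_update_of_mem (Finset.mem_univ _), add_comm]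
        congr 1
        rw [← Finset.sum_sdiff (Finset.subset_univ {(⟨j, h1⟩ : Fin K)}), Finset.sum_singleton, hβ, add_zero]
      have hd := hdiv j hj
      rw [hsum] at hd
      obtain ⟨q, hq⟩ := (Nat.dvd_add_right (dvd_refl _)).mp hd
      have key : ∀ q : ℕ, Gd ι (Function.update (lev m j) ⟨j, h1⟩ ((∑ x, lev m j x) * q)) := by
        intro q
        induction q with
        | zero =>
          rw [mul_zero]
          have e : Function.update (lev m j) ⟨j, h1⟩ 0 = lev m j := by
            rw [← hβ, Function.update_eq_self]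
          rw [e]
          exact ih
        | succ q ihq =>
          have h2 : Gd ι (Function.update (lev m j) ⟨j, h1⟩ 0) := by
            have e : Function.update (lev m j) ⟨j, h1⟩ 0 = lev m j := by
              rw [← hβ, Function.update_eq_self]
            rw [e]
            exact ih
          have h3 := gd_add (ι := ι) (lev m j) ⟨j, h1⟩ hβ _ _ ihq h2
          rw [add_zero, ← mul_add_one] at h3
          exact h3
      rw [lev_succ_of_lt m j h1, hq]
      exact key q
    · rw [lev_of_le m (j + 1) (by omega)]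
      rwa [lev_of_le m j h1] at ih

/-- base case: two colours -/
theorem gd_two {K : ℕ} (m : Fin K → ℕ) : Gd ι (lev m 2) := by
  obtain ⟨c, hc⟩ := exists_col (lev m 2)
  refine gd_of_arr (lev m 2) _ rfl c hc ?_
  intro R a ha
  have hcol : ∀ i, (c i).val < 2 := by
    intro i
    by_contra h
    have h1 : (Finset.univ.filter (fun j => c j = c i)).card = 0 := by
      rw [hc, lev, if_neg h]
    have h2 : i ∈ Finset.univ.filter (fun j => c j = c i) := Finset.mem_filter.mpr ⟨Finset.mem_univ i, rfl⟩
    rw [Finset.card_eq_zero] at h1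
    rw [h1] at h2
    exact absurd h2 (Finset.notMem_empty i)
  by_cases hK0 : ∃ i : Fin (∑ x, lev m 2 x), True
  · obtain ⟨i0, _⟩ := hK0
    by_cases hK1 : ∃ i, c i ≠ c i0
    · obtain ⟨i1, hi1⟩ := hK1
      refine arr_two_col R a ha c (c i0) (c i1) ?_
      intro i
      have h0 := hcol i
      have h1 := hcol i0
      have h2 := hcol i1
      have h3 : (c i1).val ≠ (c i0).val := fun h => hi1 (Fin.ext h)
      by_cases h4 : (c i).val = (c i0).val
      · exact Or.inl (Fin.ext h4)
      · right
        apply Fin.ext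
        omega
    · push Not at hK1
      exact arr_two_col R a ha c (c i0) (c i0) (fun i => Or.inl (hK1 i))
  · refine ⟨fun _ => 1, fun k => ?_⟩
    exact absurd ⟨k, trivial⟩ hK0

/-- base case: three colours, the first two with at most two bases -/
theorem gd_three {K : ℕ} (m : Fin K → ℕ) (h2 : ∑ x, lev m 2 x ≤ 2) : Gd ι (lev m 3) := by
  rcases Nat.lt_or_ge 2 K with hK | hK
  · obtain ⟨c, hc⟩ := exists_col (lev m 3)
    refine gd_of_arr (lev m 3) _ rfl c hc ?_
    intro R a ha
    refine arr_few R a ha c ⟨2, hK⟩ ?_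
    have h3 : (Finset.univ.filter (fun i => c i ≠ ⟨2, hK⟩)).card =
        ∑ x ∈ Finset.univ.erase (⟨2, hK⟩ : Fin K), (Finset.univ.filter (fun i => c i = x)).card := by
      rw [Finset.card_eq_sum_card_fiberwise (f := c) (t := Finset.univ.erase (⟨2, hK⟩ : Fin K))]
      · apply Finset.sum_congr rfl
        intro x hx
        congr 1
        ext i
        simp only [Finset.mem_filter, Finset.mem_univ, true_and, ne_eq]
        constructor
        · rintro ⟨_, h⟩
          exact h
        · intro h
          refine ⟨?_, h⟩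
          rw [h]
          exact (Finset.mem_erase.mp hx).1
      · intro i hi
        have := (Finset.mem_filter.mp hi).2
        exact Finset.mem_coe.mpr (Finset.mem_erase.mpr ⟨this, Finset.mem_univ _⟩)
    rw [h3]
    refine le_trans ?_ h2
    calc ∑ x ∈ Finset.univ.erase (⟨2, hK⟩ : Fin K), (Finset.univ.filter (fun i => c i = x)).card
        = ∑ x ∈ Finset.univ.erase (⟨2, hK⟩ : Fin K), lev m 2 x := by
          apply Finset.sum_congr rfl
          intro x hx
          have hne := (Finset.mem_erase.mp hx).1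
          rw [hc, lev, lev]
          have h1 : x.val ≠ 2 := fun h => hne (Fin.ext h)
          by_cases h4 : x.val < 2
          · rw [if_pos h4, if_pos (by omega)]
          · rw [if_neg h4, if_neg (by omega)]
      _ ≤ ∑ x, lev m 2 x := Finset.sum_le_sum_of_subset (Finset.subset_univ _)
  · rw [lev_of_le m 3 (by omega), ← lev_of_le m 2 hK]
    exact gd_two m

/-- abstract form of the theorem -/
theorem gd_classes {K : ℕ} (m : Fin K → ℕ)
    (h : (∀ j, 2 ≤ j → (∑ x, lev m j x) ∣ (∑ x, lev m (j + 1) x)) ∨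
      (∑ x, lev m 2 x ≤ 2 ∧ ∀ j, 3 ≤ j → (∑ x, lev m j x) ∣ (∑ x, lev m (j + 1) x))) : Gd ι m := by
  have e : lev m (K + 3) = m := lev_of_le m _ (by omega)
  rw [← e]
  rcases h with h | ⟨h1, h2⟩
  · exact chain m 2 (gd_two m) h _ (by omega)
  · exact chain m 3 (gd_three m h1) h2 _ (by omega)

end Pool.Agent.RotaP
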