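import Mathlib

/-!
# Rota's basis conjecture, bases that coincide up to parallel elements: rank functions

`RkF ι` is a matroid rank function on the finite subsets of `ι` (no finiteness of `ι` needed).
`con X` is the contraction of `X`.
-/

set_option autoImplicit false

namespace Pool.Agent.RotaP

/-- A matroid rank function on the finite subsets of `ι`. -/
structure RkF (ι : Type*) [DecidableEq ι] where
  /-- the rank -/
  r : Finset ι → ℕ
  r_empty : r ∅ = 0
  r_mono : ∀ {S T : Finset ι}, S ⊆ T → r S ≤ r T
  r_insert : ∀ (x : ι) (S : Finset ι), r (insert x S) ≤ r S + 1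
  r_sub : ∀ S T : Finset ι, r (S ∪ T) + r (S ∩ T) ≤ r S + r T

namespace RkF

variable {ι : Type*} [DecidableEq ι] (R : RkF ι)

theorem r_union_le (S T : Finset ι) : R.r (S ∪ T) ≤ R.r S + R.r T := by
  have := R.r_sub S T
  omega

theorem r_le_card (S : Finset ι) : R.r S ≤ S.card := by
  induction S using Finset.induction_on with
  | empty => simp [R.r_empty]
  | insert x S hx ih =>
    rw [Finset.card_insert_of_notMem hx]
    have := R.r_insert x S
    omega

theorem r_union_card (S T : Finset ι) : R.r (S ∪ T) ≤ R.r S + T.card :=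
  (R.r_union_le S T).trans (Nat.add_le_add_left (R.r_le_card T) _)

theorem r_le_add_sdiff (S T : Finset ι) : R.r T ≤ R.r S + (T \ S).card := by
  calc R.r T ≤ R.r (S ∪ (T \ S)) := R.r_mono (by intro x hx; by_cases h : x ∈ S <;> simp [h, hx])
    _ ≤ _ := R.r_union_card S _

/-- The subsets of an independent set are independent. -/
theorem indep_sub {S T : Finset ι} (h : R.r T = T.card) (hST : S ⊆ T) : R.r S = S.card := by
  have h1 := R.r_le_card S
  have h2 := R.r_le_add_sdiff S T
  have h3 := Finset.card_sdiff_add_card_eq_card hST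
  omega

/-- The contraction of `X`. -/
def con (X : Finset ι) : RkF ι where
  r S := R.r (S ∪ X) - R.r X
  r_empty := by simp
  r_mono := by
    intro S T h
    have : R.r (S ∪ X) ≤ R.r (T ∪ X) := R.r_mono (Finset.union_subset_union_left h)
    omega
  r_insert := by
    intro x S
    have h1 := R.r_insert x (S ∪ X)
    rw [← Finset.insert_union] at h1
    omega
  r_sub := by
    intro S T
    have h := R.r_sub (S ∪ X) (T ∪ X)
    have e1 : (S ∪ X) ∪ (T ∪ X) = (S ∪ T) ∪ X := by
      ext y; simp only [Finset.mem_union]; tauto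
    have e2 : (S ∪ X) ∩ (T ∪ X) = (S ∩ T) ∪ X := by
      ext y; simp only [Finset.mem_union, Finset.mem_inter]; tauto
    rw [e1, e2] at h
    have m1 : R.r X ≤ R.r ((S ∪ T) ∪ X) := R.r_mono Finset.subset_union_right
    have m2 : R.r X ≤ R.r ((S ∩ T) ∪ X) := R.r_mono Finset.subset_union_right
    have m3 : R.r X ≤ R.r (S ∪ X) := R.r_mono Finset.subset_union_right
    have m4 : R.r X ≤ R.r (T ∪ X) := R.r_mono Finset.subset_union_right
    omega

theorem con_r (X S : Finset ι) : (R.con X).r S = R.r (S ∪ X) - R.r X := rfl

theorem con_add (X S : Finset ι) : (R.con X).r S + R.r X = R.r (S ∪ X) := by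
  have m : R.r X ≤ R.r (S ∪ X) := R.r_mono Finset.subset_union_right
  rw [con_r]; omega

theorem con_empty (S : Finset ι) : (R.con ∅).r S = R.r S := by
  rw [con_r, R.r_empty]; simp

theorem con_le (X S : Finset ι) : (R.con X).r S ≤ R.r S := by
  have := R.con_add X S
  have := R.r_union_le S X
  omega

end RkF

end Pool.Agent.RotaP
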