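import Pool.Agent.RotaP.Defs

set_option autoImplicit false

namespace Pool.Agent.RotaP

variable {ι κ : Type*} [DecidableEq ι] [DecidableEq κ]

/-- the fibre over `i` of a finite set of pairs -/
def fib (i : κ) (S : Finset (κ × ι)) : Finset ι := (S.filter (fun p => p.1 = i)).image Prod.snd

theorem mem_fib {i : κ} {S : Finset (κ × ι)} {x : ι} : x ∈ fib i S ↔ (i, x) ∈ S := by
  simp only [fib, Finset.mem_image, Finset.mem_filter]
  constructor
  · rintro ⟨⟨j, y⟩, ⟨h, rfl⟩, rfl⟩
    exact h
  · intro h
    exact ⟨(i, x), ⟨h, rfl⟩, rfl⟩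

theorem fib_insert_self (i : κ) (x : ι) (S : Finset (κ × ι)) :
    fib i (insert (i, x) S) = insert x (fib i S) := by
  ext y
  simp only [mem_fib, Finset.mem_insert, Prod.mk.injEq, true_and]

theorem fib_insert_ne {i j : κ} (h : i ≠ j) (x : ι) (S : Finset (κ × ι)) :
    fib i (insert (j, x) S) = fib i S := by
  ext y
  simp only [mem_fib, Finset.mem_insert, Prod.mk.injEq, h, false_and, false_or]

theorem fib_union (i : κ) (S T : Finset (κ × ι)) : fib i (S ∪ T) = fib i S ∪ fib i T := by
  ext y
  simp only [mem_fib, Finset.mem_union]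

theorem fib_inter (i : κ) (S T : Finset (κ × ι)) : fib i (S ∩ T) = fib i S ∩ fib i T := by
  ext y
  simp only [mem_fib, Finset.mem_inter]

theorem fib_mono (i : κ) {S T : Finset (κ × ι)} (h : S ⊆ T) : fib i S ⊆ fib i T := by
  intro y hy
  rw [mem_fib] at hy ⊢
  exact h hy

namespace RkF

/-- the direct sum, over `i ∈ I`, of the rank functions `R i` -/
def dsum (I : Finset κ) (R : κ → RkF ι) : RkF (κ × ι) where
  r S := ∑ i ∈ I, (R i).r (fib i S)
  r_empty := by
    apply Finset.sum_eq_zero
    intro i _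
    have : fib i (∅ : Finset (κ × ι)) = ∅ := by
      ext y; simp [mem_fib]
    rw [this, (R i).r_empty]
  r_mono := by
    intro S T h
    exact Finset.sum_le_sum fun i _ => (R i).r_mono (fib_mono i h)
  r_insert := by
    rintro ⟨j, x⟩ S
    by_cases hj : j ∈ I
    · rw [← Finset.add_sum_erase I _ hj, ← Finset.add_sum_erase I _ hj, fib_insert_self]
      have h1 := (R j).r_insert x (fib j S)
      have h2 : ∑ i ∈ I.erase j, (R i).r (fib i (insert (j, x) S)) = ∑ i ∈ I.erase j, (R i).r (fib i S) := by
        apply Finset.sum_congr rfl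
        intro i hi
        rw [fib_insert_ne (Finset.ne_of_mem_erase hi)]
      omega
    · have h2 : ∑ i ∈ I, (R i).r (fib i (insert (j, x) S)) = ∑ i ∈ I, (R i).r (fib i S) := by
        apply Finset.sum_congr rfl
        intro i hi
        rw [fib_insert_ne (by rintro rfl; exact hj hi)]
      omega
  r_sub := by
    intro S T
    rw [← Finset.sum_add_distrib, ← Finset.sum_add_distrib]
    refine Finset.sum_le_sum fun i _ => ?_
    rw [fib_union, fib_inter]
    exact (R i).r_sub _ _

theorem dsum_r (I : Finset κ) (R : κ → RkF ι) (S : Finset (κ × ι)) :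
    (dsum I R).r S = ∑ i ∈ I, (R i).r (fib i S) := rfl

end RkF

end Pool.Agent.RotaP
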