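import Pool.Agent.RotaP.CArr
import Pool.Agent.RotaP.Sh

set_option autoImplicit false

namespace Pool.Agent.RotaP

variable {ι : Type*} [DecidableEq ι]

/-- [EX, size 1] a permutation with prescribed images of two complementary sets and, if wanted, one more point.
(`Finset.equivOfCardEq`-like bijections on the three parts, or `Equiv.Perm.exists_extending...`; any proof.) -/
theorem exists_perm {n : ℕ} (U V : Finset (Fin n)) (h : U.card = V.card) :
    ∃ π : Equiv.Perm (Fin n), ∀ i, i ∈ U ↔ π i ∈ V := by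
  have hc : Fintype.card {x // x ∈ U} = Fintype.card {x // x ∈ V} := by
    rw [Fintype.card_coe, Fintype.card_coe, h]
  let e := Fintype.equivOfCardEq hc
  refine ⟨e.extendSubtype, fun i => ⟨fun hi => e.extendSubtype_mem i hi, fun hi => ?_⟩⟩
  by_contra hni
  exact e.extendSubtype_not_mem i hni hi

/-- [EX, size 1] the same with three parts `U, {x}, rest` and `V, {z}, rest`. -/
theorem exists_perm' {n : ℕ} (U V : Finset (Fin n)) (x z : Fin n) (hx : x ∉ U) (hz : z ∉ V) (h : U.card = V.card) :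
    ∃ π : Equiv.Perm (Fin n), (∀ i, i ∈ U ↔ π i ∈ V) ∧ π x = z := by
  obtain ⟨π, hπ⟩ := exists_perm U V h
  have hx' : π x ∉ V := fun hh => hx ((hπ x).mpr hh)
  refine ⟨π.trans (Equiv.swap (π x) z), fun i => ?_, ?_⟩
  · rw [hπ i, Equiv.trans_apply]
    by_cases h1 : π i = π x
    · rw [h1, Equiv.swap_apply_left]
      exact ⟨fun hh => absurd hh hx', fun hh => absurd hh hz⟩
    · by_cases h2 : π i = z
      · rw [h2, Equiv.swap_apply_right]
        exact ⟨fun hh => absurd hh hz, fun hh => absurd hh hx'⟩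
      · rw [Equiv.swap_apply_of_ne_of_ne h1 h2]
  · rw [Equiv.trans_apply, Equiv.swap_apply_left]

private theorem EV_cover (N : RkF ι) {n : ℕ} (a c : Fin n → ι) (U V : Finset (Fin n))
    (π : Equiv.Perm (Fin n)) (hπ : ∀ i, i ∈ U ↔ π i ∈ V) :
    N.r (st a c U V) ≤ ∑ k ∈ U, N.r {a k, c (π k)} := by
  refine N.cover_le U (fun k => {a k, c (π k)}) _ (fun x hx => ?_)
  simp only [st, Finset.mem_union, Finset.mem_image] at hx
  rcases hx with ⟨i, hi, rfl⟩ | ⟨j, hj, rfl⟩
  · exact ⟨i, hi, by simp⟩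
  · refine ⟨π.symm j, ?_, ?_⟩
    · rw [hπ, Equiv.apply_symm_apply]
      exact hj
    · rw [Equiv.apply_symm_apply]
      simp

/-- [EV, size 2] THEOREM II, even case: a good permutation.  Proof: `greene` for some `U` with `U.card = m`
(`Finset.exists_subset_card_eq`) gives `V`, `V.card = m`; `π` from `exists_perm U V`.  For `X ⊆ univ.image b` put `N = R.con X`.
The sum of `N.r {a k, c (π k)}` over `k ∈ U` is `≥ N.r (st a c U V)` (`cover_le`), over `k ∉ U` it is `≥ N.r (st a c Uᶜ Vᶜ)`;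
both are `n - X.card` by `Bas.con_eq`. -/
theorem even_good (R : RkF ι) {n m : ℕ} (hn : n = 2 * m) (a c b : Fin n → ι) (ha : Bas R n a) (hc : Bas R n c)
    (hb : Bas R n b) : ∃ π : Equiv.Perm (Fin n), Good R n 2 b (fun k => {a k, c (π k)}) := by
  obtain ⟨U, -, hU⟩ := Finset.exists_subset_card_eq (s := (Finset.univ : Finset (Fin n))) (n := m)
    (by rw [Finset.card_univ, Fintype.card_fin]; omega)
  obtain ⟨V, hUV, hV1, hV2⟩ := greene R a c ha hc U
  obtain ⟨π, hπ⟩ := exists_perm U V (by omega)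
  refine ⟨π, fun X hX => ?_⟩
  have e1 := EV_cover (R.con X) a c U V π hπ
  have e2 := EV_cover (R.con X) a c Uᶜ Vᶜ π
    (fun i => by rw [Finset.mem_compl, Finset.mem_compl, hπ i])
  have e3 := hb.con_eq hX hV1
  have e4 := hb.con_eq hX hV2
  have e5 : ∑ k, (R.con X).r {a k, c (π k)} = ∑ k ∈ U, (R.con X).r {a k, c (π k)} +
      ∑ k ∈ Uᶜ, (R.con X).r {a k, c (π k)} := (Finset.sum_add_sum_compl U _).symm
  show 2 * n ≤ ∑ k, (R.con X).r {a k, c (π k)} + 2 * X.card
  omega

end Pool.Agent.RotaP
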