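import Pool.Agent.RotaP.Tra
import Pool.Agent.RotaP.Main

set_option autoImplicit false

namespace Pool.Agent.RotaP

private theorem FI_ne (α : Type*) (M : Matroid α) (n : ℕ) (B : Fin n → Set α)
    (hB : ∀ i, M.IsBase (B i)) (hn : ∀ i, (B i).encard = (n : ℕ∞))
    (hd : ∀ i j, i ≠ j → Disjoint (B i) (B j)) (p q : Fin n) (hpq : p ≠ q)
    (hpar : ∀ i j, i ≠ p → i ≠ q → j ≠ p → j ≠ q → ∀ x ∈ B i, ∃ y ∈ B j, M.closure {x} = M.closure {y}) :
    ∃ T : Fin n → Set α, (∀ k, M.IsBase (T k)) ∧ (∀ k i, (T k ∩ B i).encard = 1) ∧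
      (∀ k l, k ≠ l → Disjoint (T k) (T l)) := by
  classical
  by_cases hex : ∃ i0 : Fin n, i0 ≠ p ∧ i0 ≠ q
  · obtain ⟨i0, h1, h2⟩ := hex
    refine transfer M n B hB hn hd (fun i => if i = p then p else if i = q then q else i0) ?_ ?_
    · intro i x hx
      by_cases hip : i = p
      · rw [if_pos hip] at hx
        exact ⟨x, by rw [hip]; exact hx, rfl⟩
      · rw [if_neg hip] at hx
        by_cases hiq : i = q
        · rw [if_pos hiq] at hx
          exact ⟨x, by rw [hiq]; exact hx, rfl⟩
        · rw [if_neg hiq] at hx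
          exact hpar i0 i h1 h2 hip hiq x hx
    · intro a ha
      refine arr_main (ofM M) (a p) (a q) (a i0) (bas_of_range M n _ (hB p) (hn p) _ (ha p))
        (bas_of_range M n _ (hB q) (hn q) _ (ha q)) (bas_of_range M n _ (hB i0) (hn i0) _ (ha i0))
        _ p q hpq ?_ ?_ ?_
      · rw [if_pos rfl]
      · rw [if_neg hpq.symm, if_pos rfl]
      · intro i hi hi'
        rw [if_neg hi, if_neg hi']
  · push Not at hex
    refine transfer M n B hB hn hd id (fun i x hx => ⟨x, hx, rfl⟩) ?_
    intro a ha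
    refine arr_main (ofM M) (a p) (a q) (a p) (bas_of_range M n _ (hB p) (hn p) _ (ha p))
      (bas_of_range M n _ (hB q) (hn q) _ (ha q)) (bas_of_range M n _ (hB p) (hn p) _ (ha p))
      _ p q hpq rfl rfl ?_
    intro i hi hi'
    exact absurd (hex i hi) hi'

/-- [FI, size 2] THEOREM II for matroids.  Proof: `n = 1` (`p = q = 0`): `T = B`.  `n ≥ 2`: WLOG `p ≠ q` (if `p = q` take any other
index for `q`, the hypothesis becomes weaker).  If there is `i0 ≠ p, q`: `transfer` with `rep p = p`, `rep q = q`, `rep i = i0`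
otherwise, and `arr_main` with `a p, a q, a i0` (`bas_of_range`).  If there is none, `rep = id` and `b = a p`. -/
theorem rota_parallel (α : Type*) (M : Matroid α) (n : ℕ) (B : Fin n → Set α)
    (hB : ∀ i, M.IsBase (B i)) (hn : ∀ i, (B i).encard = (n : ℕ∞))
    (hd : ∀ i j, i ≠ j → Disjoint (B i) (B j)) (p q : Fin n)
    (hpar : ∀ i j, i ≠ p → i ≠ q → j ≠ p → j ≠ q → ∀ x ∈ B i, ∃ y ∈ B j, M.closure {x} = M.closure {y}) :
    ∃ T : Fin n → Set α, (∀ k, M.IsBase (T k)) ∧ (∀ k i, (T k ∩ B i).encard = 1) ∧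
      (∀ k l, k ≠ l → Disjoint (T k) (T l)) := by
  by_cases hpq : p = q
  · subst hpq
    by_cases hex : ∃ q' : Fin n, q' ≠ p
    · obtain ⟨q', hq'⟩ := hex
      exact FI_ne α M n B hB hn hd p q' hq'.symm
        (fun i j hi _ hj _ => hpar i j hi hi hj hj)
    · push Not at hex
      have hsub : ∀ i j : Fin n, i = j := fun i j => (hex i).trans (hex j).symm
      have hn1 : n = 1 := by
        have h1 := p.2
        by_contra hne
        have h2 : 2 ≤ n := by omega
        have h3 := hsub ⟨0, by omega⟩ ⟨1, by omega⟩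
        simp at h3
      refine ⟨B, hB, fun k i => ?_, fun k l hkl => absurd (hsub k l) hkl⟩
      rw [hsub k i, Set.inter_self, hn i, hn1]
      rfl
  · exact FI_ne α M n B hB hn hd p q hpq hpar

/-- [FT, size 2] THEOREM I for matroids: the indices are split into two classes (`P i` or not), bases of the same class are
parallel.  Proof: `transfer` with `rep i` = a fixed representative of the class of `i`, `arr_two`. -/
theorem rota_two (α : Type*) (M : Matroid α) (n : ℕ) (B : Fin n → Set α)
    (hB : ∀ i, M.IsBase (B i)) (hn : ∀ i, (B i).encard = (n : ℕ∞))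
    (hd : ∀ i j, i ≠ j → Disjoint (B i) (B j)) (P : Fin n → Prop)
    (hpar : ∀ i j, (P i ↔ P j) → ∀ x ∈ B i, ∃ y ∈ B j, M.closure {x} = M.closure {y}) :
    ∃ T : Fin n → Set α, (∀ k, M.IsBase (T k)) ∧ (∀ k i, (T k ∩ B i).encard = 1) ∧
      (∀ k l, k ≠ l → Disjoint (T k) (T l)) := by
  classical
  by_cases hT : ∃ i, P i
  · by_cases hF : ∃ i, ¬ P i
    · obtain ⟨i1, h1⟩ := hT
      obtain ⟨i2, h2⟩ := hF
      refine transfer M n B hB hn hd (fun i => if P i then i1 else i2) ?_ ?_
      · intro i x hx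
        by_cases hi : P i
        · rw [if_pos hi] at hx
          exact hpar i1 i (iff_of_true h1 hi) x hx
        · rw [if_neg hi] at hx
          exact hpar i2 i (iff_of_false h2 hi) x hx
      · intro a ha
        refine arr_two (ofM M) (a i1) (a i2) (bas_of_range M n _ (hB i1) (hn i1) _ (ha i1))
          (bas_of_range M n _ (hB i2) (hn i2) _ (ha i2)) _ (Finset.univ.filter P) ?_ ?_
        · intro i hi
          rw [if_pos (Finset.mem_filter.mp hi).2]
        · intro i hi
          rw [if_neg (fun h => hi (Finset.mem_filter.mpr ⟨Finset.mem_univ _, h⟩))]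
    · push Not at hF
      obtain ⟨i1, h1⟩ := hT
      refine transfer M n B hB hn hd (fun _ => i1)
        (fun i x hx => hpar i1 i (iff_of_true h1 (hF i)) x hx) ?_
      intro a ha
      exact arr_two (ofM M) (a i1) (a i1) (bas_of_range M n _ (hB i1) (hn i1) _ (ha i1))
        (bas_of_range M n _ (hB i1) (hn i1) _ (ha i1)) _ ∅ (fun i hi => absurd hi (Finset.notMem_empty i))
        (fun i _ => rfl)
  · push Not at hT
    rcases Nat.eq_zero_or_pos n with h0 | h0
    · subst h0
      exact ⟨B, hB, fun k => k.elim0, fun k => k.elim0⟩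
    · have i1 : Fin n := ⟨0, h0⟩
      refine transfer M n B hB hn hd (fun _ => i1)
        (fun i x hx => hpar i1 i (iff_of_false (hT i1) (hT i)) x hx) ?_
      intro a ha
      exact arr_two (ofM M) (a i1) (a i1) (bas_of_range M n _ (hB i1) (hn i1) _ (ha i1))
        (bas_of_range M n _ (hB i1) (hn i1) _ (ha i1)) _ ∅ (fun i hi => absurd hi (Finset.notMem_empty i))
        (fun i _ => rfl)

end Pool.Agent.RotaP
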