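import Pool.Agent.RotaP.Tra
import Pool.Agent.RotaP.Chain

set_option autoImplicit false

namespace Pool.Agent.RotaP

/-- The bases fall into classes of pairwise parallel bases (`c i` is the class of `B i`), `s j` is the number of bases in the classes
`0, .., j - 1`. -/
theorem rota_classes (α : Type*) (M : Matroid α) (n : ℕ) (B : Fin n → Set α)
    (hB : ∀ i, M.IsBase (B i)) (hn : ∀ i, (B i).encard = (n : ℕ∞))
    (hd : ∀ i j, i ≠ j → Disjoint (B i) (B j)) (c : Fin n → ℕ)
    (hpar : ∀ i j, c i = c j → ∀ x ∈ B i, ∃ y ∈ B j, M.closure {x} = M.closure {y})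
    (s : ℕ → ℕ) (hs : ∀ j, s j = (Finset.univ.filter (fun i => c i < j)).card)
    (h : (∀ j, 2 ≤ j → s j ∣ s (j + 1)) ∨ (s 2 ≤ 2 ∧ ∀ j, 3 ≤ j → s j ∣ s (j + 1))) :
    ∃ T : Fin n → Set α, (∀ k, M.IsBase (T k)) ∧ (∀ k i, (T k ∩ B i).encard = 1) ∧
      (∀ k l, k ≠ l → Disjoint (T k) (T l)) := by
  classical
  rcases Nat.eq_zero_or_pos n with h0 | h0
  · subst h0
    exact ⟨fun k => k.elim0, fun k => k.elim0, fun k => k.elim0, fun k => k.elim0⟩
  -- colours in `Fin K`
  obtain ⟨K, hK⟩ : ∃ K : ℕ, ∀ i, c i < K := ⟨Finset.univ.sup c + 1, fun i =>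
    Nat.lt_succ_of_le (Finset.le_sup (Finset.mem_univ i))⟩
  let c' : Fin n → Fin K := fun i => ⟨c i, hK i⟩
  let m : Fin K → ℕ := fun x => (Finset.univ.filter (fun i => c' i = x)).card
  have hm : ∑ x, m x = n := by
    have h1 := Finset.card_eq_sum_card_fiberwise (f := c') (s := Finset.univ) (t := Finset.univ)
      (fun i _ => Finset.mem_coe.mpr (Finset.mem_univ _))
    rw [Finset.card_univ, Fintype.card_fin] at h1
    exact h1.symm
  have hlev : ∀ j, ∑ x, lev m j x = s j := by
    intro j
    rw [hs j]
    have h1 := Finset.card_eq_sum_card_fiberwise (f := c') (s := Finset.univ.filter (fun i => c i < j))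
      (t := Finset.univ) (fun i _ => Finset.mem_coe.mpr (Finset.mem_univ _))
    rw [h1]
    apply Finset.sum_congr rfl
    intro x _
    rw [lev]
    by_cases hx : x.val < j
    · rw [if_pos hx]
      change (Finset.univ.filter (fun i => c' i = x)).card = _
      congr 1
      ext i
      simp only [Finset.mem_filter, Finset.mem_univ, true_and]
      constructor
      · intro h2
        refine ⟨?_, h2⟩
        have : c i = x.val := by rw [← h2]
        omega
      · exact fun h2 => h2.2
    · rw [if_neg hx]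
      symm
      rw [Finset.card_eq_zero]
      ext i
      simp only [Finset.mem_filter, Finset.mem_univ, true_and, Finset.notMem_empty, iff_false, not_and]
      intro h2 h3
      have : c i = x.val := by rw [← h3]
      omega
  have hgd : Gd α m := by
    apply gd_classes m
    rcases h with h | ⟨h1, h2⟩
    · left
      intro j hj
      rw [hlev, hlev]
      exact h j hj
    · right
      refine ⟨by rw [hlev]; exact h1, fun j hj => ?_⟩
      rw [hlev, hlev]
      exact h2 j hj
  -- representatives
  have hrep : ∀ x : Fin K, ∃ i : Fin n, (∃ i', c' i' = x) → c' i = x := by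
    intro x
    by_cases hx : ∃ i', c' i' = x
    · obtain ⟨i', hi'⟩ := hx
      exact ⟨i', fun _ => hi'⟩
    · exact ⟨⟨0, h0⟩, fun h => absurd h hx⟩
  choose rp hrp using hrep
  refine transfer M n B hB hn hd (fun i => rp (c' i)) ?_ ?_
  · intro i x hx
    have h1 : c' (rp (c' i)) = c' i := hrp (c' i) ⟨i, rfl⟩
    have h2 : c (rp (c' i)) = c i := congrArg Fin.val h1
    exact hpar (rp (c' i)) i h2 x hx
  · intro a ha
    exact arr_of_gd m n hm.symm c' (fun x => rfl) hgd (ofM M) (fun x => a (rp x))
      (fun x => bas_of_range M n _ (hB _) (hn _) _ (ha _))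

end Pool.Agent.RotaP
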