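import Pool.Agent.RotaP.CArr

set_option autoImplicit false

namespace Pool.Agent.RotaP

variable {ι κ : Type*} [DecidableEq ι] [DecidableEq κ] [Fintype κ]

/-- `A x` (`x : κ`) are bases (finite sets of `n` elements, `n = ∑ x, m x`) of a matroid of rank `n`; there are `n` columns, the
column `j` has `m x` elements of `A x`, every element of `A x` is in `m x` columns, the columns have rank `n`. -/
def Sol (R : RkF ι) (m : κ → ℕ) (A : κ → Finset ι) : Prop :=
  ∃ T : Fin (∑ x, m x) → κ → Finset ι,
    (∀ j x, T j x ⊆ A x ∧ (T j x).card = m x) ∧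
    (∀ x, ∀ y ∈ A x, (Finset.univ.filter (fun j => y ∈ T j x)).card = m x) ∧
    ∀ j, R.r (Finset.univ.biUnion (T j)) = ∑ x, m x

/-- every instance with the multiplicities `m` has a solution -/
def Gd (ι : Type*) [DecidableEq ι] (m : κ → ℕ) : Prop :=
  ∀ (R : RkF ι) (A : κ → Finset ι), (∀ S, R.r S ≤ ∑ x, m x) →
    (∀ x, (A x).card = ∑ x, m x ∧ R.r (A x) = ∑ x, m x) → Sol R m A

/-- [GF, size 2] Greene exchange for finite sets.  Proof: `completion` with `κ = Bool`, `k = 1`, as in `greene` (CArr.lean); or
enumerate `A`, `C` by `Fin n` and use `greene`. -/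
theorem greene_finset (R : RkF ι) (n : ℕ) (hR : ∀ S, R.r S ≤ n) (P1 P2 C : Finset ι)
    (hd : Disjoint P1 P2) (hc : P1.card + P2.card = n) (hr : R.r (P1 ∪ P2) = n) (hC : C.card = n)
    (hCr : R.r C = n) : ∃ C1 ⊆ C, C1.card = P1.card ∧ R.r (C1 ∪ P2) = n ∧ R.r ((C \ C1) ∪ P1) = n := by
  set T : Bool → Finset ι := fun β => if β then P1 else P2 with hT
  have hTt : T true = P1 := by rw [hT]; rfl
  have hTf : T false = P2 := by rw [hT]; rfl
  have hind : ∀ X ⊆ C, R.r X = X.card := fun X hX => R.indep_sub (hCr.trans hC.symm) hX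
  obtain ⟨Q, hQ, hQ'⟩ := RkF.completion R (Finset.univ : Finset Bool) T C 1 (by
    intro X hX
    rw [Fintype.sum_bool, Fintype.sum_bool, hTt, hTf]
    have h1 := R.r_sub (P1 ∪ X) (P2 ∪ X)
    have h2 : P1 ∪ P2 ⊆ (P1 ∪ X) ∪ (P2 ∪ X) := by
      intro y hy
      simp only [Finset.mem_union] at hy ⊢
      tauto
    have h3 : X ⊆ (P1 ∪ X) ∩ (P2 ∪ X) := by
      intro y hy
      rw [Finset.mem_inter, Finset.mem_union, Finset.mem_union]
      exact ⟨Or.inr hy, Or.inr hy⟩
    have h4 := R.r_mono h2
    have h5 := R.r_mono h3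
    rw [hr] at h4
    rw [hind X hX] at h5
    omega)
  have hQt := hQ true (Finset.mem_univ _)
  have hQf := hQ false (Finset.mem_univ _)
  rw [hTt] at hQt
  rw [hTf] at hQf
  have hone : ∀ y ∈ C, (y ∈ Q true ∧ y ∉ Q false) ∨ (y ∉ Q true ∧ y ∈ Q false) := by
    intro y hy
    have h1 := hQ' y hy
    by_cases ht : y ∈ Q true
    · by_cases hf : y ∈ Q false
      · exfalso
        have : Finset.univ.filter (fun i => y ∈ Q i) = (Finset.univ : Finset Bool) := by
          ext β
          cases β <;> simp [ht, hf]
        rw [this] at h1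
        simp at h1
      · exact Or.inl ⟨ht, hf⟩
    · by_cases hf : y ∈ Q false
      · exact Or.inr ⟨ht, hf⟩
      · exfalso
        have : Finset.univ.filter (fun i => y ∈ Q i) = (∅ : Finset Bool) := by
          ext β
          cases β <;> simp [ht, hf]
        rw [this] at h1
        simp at h1
  have e1 : C \ Q false = Q true := by
    ext y
    rw [Finset.mem_sdiff]
    constructor
    · rintro ⟨hy, hy'⟩
      rcases hone y hy with h | h
      · exact h.1
      · exact absurd h.2 hy'
    · intro hy
      have hyC := hQt.1 hy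
      refine ⟨hyC, ?_⟩
      rcases hone y hyC with h | h
      · exact h.2
      · exact absurd hy h.1
  have e2 : (Q true).card + (Q false).card = n := by
    have h1 := Finset.card_sdiff_add_card_eq_card hQf.1
    rw [e1, hC] at h1
    exact h1
  have l1 := hR (P1 ∪ Q true)
  have l2 := hR (P2 ∪ Q false)
  have m1 := hQt.2
  have m2 := hQf.2
  refine ⟨Q false, hQf.1, by omega, ?_, ?_⟩
  · rw [Finset.union_comm]
    omega
  · rw [e1, Finset.union_comm]
    omega

/-- `Sol` with the columns indexed by any finite type with `∑ x, m x` elements. -/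
private theorem AD_reindex (R : RkF ι) (m : κ → ℕ) (A : κ → Finset ι) {J : Type} [Fintype J]
    (hJ : Fintype.card J = ∑ x, m x) (T : J → κ → Finset ι)
    (h1 : ∀ j x, T j x ⊆ A x ∧ (T j x).card = m x)
    (h2 : ∀ x, ∀ y ∈ A x, (Finset.univ.filter (fun j => y ∈ T j x)).card = m x)
    (h3 : ∀ j, R.r (Finset.univ.biUnion (T j)) = ∑ x, m x) : Sol R m A := by
  classical
  have e : Fin (∑ x, m x) ≃ J := (Fintype.equivFinOfCardEq hJ).symm
  refine ⟨fun j => T (e j), fun j x => h1 (e j) x, fun x y hy => ?_, fun j => h3 (e j)⟩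
  rw [← h2 x y hy]
  refine Finset.card_bij (fun j _ => e j) ?_ ?_ ?_
  · intro j hj
    rw [Finset.mem_filter] at hj ⊢
    exact ⟨Finset.mem_univ _, hj.2⟩
  · intro a _ b _ h
    exact e.injective h
  · intro b hb
    rw [Finset.mem_filter] at hb
    refine ⟨e.symm b, ?_, e.apply_symm_apply b⟩
    rw [Finset.mem_filter]
    refine ⟨Finset.mem_univ _, ?_⟩
    show y ∈ T (e (e.symm b)) x
    rw [e.apply_symm_apply]
    exact hb.2

/-- one half: contract `P2`, columns `T1 j` with `P2` added at `β` -/
private theorem AD_half (m : κ → ℕ) (β : κ) (hβ : m β = 0) (u w n : ℕ)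
    (hn : u + (∑ x, m x) + w = n) (hu : Gd ι (Function.update m β u)) (R : RkF ι)
    (hR : ∀ S, R.r S ≤ n) (P2 : Finset ι) (hP2 : P2.card = w) (hP2r : R.r P2 = w)
    (A1 : κ → Finset ι) (h1 : ∀ x, (A1 x).card = u + ∑ x, m x) (h2 : ∀ x, R.r (A1 x ∪ P2) = n) :
    ∃ T : Fin (u + ∑ x, m x) → κ → Finset ι,
      (∀ j x, T j x ⊆ A1 x ∧ (T j x).card = Function.update m β u x) ∧
      (∀ x, ∀ y ∈ A1 x, (Finset.univ.filter (fun j => y ∈ T j x)).card = Function.update m β u x) ∧
      ∀ j, R.r (Finset.univ.biUnion (T j) ∪ P2) = n := by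
  classical
  have hsum : ∑ x, Function.update m β u x = u + ∑ x, m x := by
    rw [Finset.sum_update_of_mem (Finset.mem_univ β)]
    congr 1
    rw [← Finset.sum_sdiff (Finset.subset_univ ({β} : Finset κ))]
    simp [hβ]
  have h3 := hu (R.con P2) A1 (fun S => by
    rw [hsum, R.con_r, hP2r]
    have := hR (S ∪ P2)
    omega) (fun x => ⟨by rw [hsum]; exact h1 x, by
      rw [hsum, R.con_r, hP2r, h2]
      omega⟩)
  obtain ⟨T, hT1, hT2, hT3⟩ := h3
  have key : ∀ (N : ℕ), N = u + ∑ x, m x → ∀ T : Fin N → κ → Finset ι,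
      (∀ j x, T j x ⊆ A1 x ∧ (T j x).card = Function.update m β u x) →
      (∀ x, ∀ y ∈ A1 x, (Finset.univ.filter (fun j => y ∈ T j x)).card = Function.update m β u x) →
      (∀ j, (R.con P2).r (Finset.univ.biUnion (T j)) = u + ∑ x, m x) →
      ∃ T : Fin (u + ∑ x, m x) → κ → Finset ι,
      (∀ j x, T j x ⊆ A1 x ∧ (T j x).card = Function.update m β u x) ∧
      (∀ x, ∀ y ∈ A1 x, (Finset.univ.filter (fun j => y ∈ T j x)).card = Function.update m β u x) ∧
      ∀ j, R.r (Finset.univ.biUnion (T j) ∪ P2) = n := by
    intro N hN T hT1 hT2 hT3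
    subst hN
    refine ⟨T, hT1, hT2, fun j => ?_⟩
    rw [← R.con_add, hT3 j, hP2r]
    omega
  exact key _ hsum T hT1 hT2 (fun j => by rw [hT3 j, hsum])

/-- [AD, size 3] ADDITIVITY (helper17).  `s = ∑ x, m x`, `n = u + v + 2 s`.  Proof: `P1 ⊆ A β` with `u + s` elements,
`P2 = A β \ P1` (`v + s` elements).  For `x ≠ β` take `C1 x` from `greene_finset` (`C = A x`).
`A1 β = P1`, `A1 x = C1 x`; `A2 β = P2`, `A2 x = A x \ C1 x`.  `R1 = R.con P2` has all ranks `≤ u + s` and
`R1.r (A1 x) = n - (v + s) = u + s` (`con_r`); same for `R2 = R.con P1`.  The hypotheses give `T1 : Fin (u + s) → ..`,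
`T2 : Fin (v + s) → ..`; columns: `T1 j` with `T1 j β ∪ P2` at `β`, and `T2 j` with `T2 j β ∪ P1` at `β` (disjoint unions).
Reindex `Fin (u + s) ⊕ Fin (v + s) ≃ Fin n` (`finSumFinEquiv`, casts: best prove first a version of the statement in which the columns
are indexed by an arbitrary finite type with `n` elements). -/
theorem gd_add (m : κ → ℕ) (β : κ) (hβ : m β = 0) (u v : ℕ) (hu : Gd ι (Function.update m β u))
    (hv : Gd ι (Function.update m β v)) : Gd ι (Function.update m β (u + v + ∑ x, m x)) := by
  classical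
  intro R A hR hA
  set s : ℕ := ∑ x, m x with hs
  have hsum : ∀ w, ∑ x, Function.update m β w x = w + s := by
    intro w
    rw [Finset.sum_update_of_mem (Finset.mem_univ β)]
    congr 1
    rw [hs, ← Finset.sum_sdiff (Finset.subset_univ ({β} : Finset κ))]
    simp [hβ]
  rw [hsum] at hR
  simp only [hsum] at hA
  set n : ℕ := u + v + s + s with hn
  obtain ⟨P1, hP1, hP1c⟩ := Finset.exists_subset_card_eq (s := A β) (n := u + s) (by
    rw [(hA β).1]
    omega)
  set P2 : Finset ι := A β \ P1 with hP2
  have hP2c : P2.card = v + s := by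
    have h1 := Finset.card_sdiff_add_card_eq_card hP1
    rw [(hA β).1, ← hP2] at h1
    omega
  have hd : Disjoint P1 P2 := Finset.disjoint_sdiff
  have hPu : P1 ∪ P2 = A β := Finset.union_sdiff_of_subset hP1
  have hP2s : P2 ⊆ A β := Finset.sdiff_subset
  have hindA : R.r (A β) = (A β).card := by rw [(hA β).1, (hA β).2]
  have hP1r : R.r P1 = u + s := by rw [R.indep_sub hindA hP1, hP1c]
  have hP2r : R.r P2 = v + s := by rw [R.indep_sub hindA hP2s, hP2c]
  have hG := fun x => greene_finset R n hR P1 P2 (A x) hd (by omega) (by rw [hPu]; exact (hA β).2)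
    (hA x).1 (hA x).2
  choose C1 hC1 hC1c hC1r hC1r' using hG
  set A1 : κ → Finset ι := fun x => if x = β then P1 else C1 x with hA1
  set A2 : κ → Finset ι := fun x => if x = β then P2 else A x \ C1 x with hA2
  have hA1s : ∀ x, A1 x ⊆ A x := by
    intro x
    rw [hA1]
    by_cases h : x = β
    · subst h
      simp only [if_true]
      exact hP1
    · simp only [h, if_false]
      exact hC1 x
  have hA2e : ∀ x, A2 x = A x \ A1 x := by
    intro x
    rw [hA1, hA2]
    by_cases h : x = β
    · subst h
      simp only [if_true]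
      exact hP2
    · simp only [h, if_false]
  have hA1c : ∀ x, (A1 x).card = u + s := by
    intro x
    rw [hA1]
    by_cases h : x = β
    · subst h
      simp only [if_true]
      exact hP1c
    · simp only [h, if_false]
      rw [hC1c, hP1c]
  have hA2c : ∀ x, (A2 x).card = v + s := by
    intro x
    rw [hA2e]
    have h1 := Finset.card_sdiff_add_card_eq_card (hA1s x)
    rw [(hA x).1, hA1c] at h1
    omega
  have hA1r : ∀ x, R.r (A1 x ∪ P2) = n := by
    intro x
    rw [hA1]
    by_cases h : x = β
    · subst h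
      simp only [if_true]
      rw [hPu, (hA x).2]
    · simp only [h, if_false]
      exact hC1r x
  have hA2r : ∀ x, R.r (A2 x ∪ P1) = n := by
    intro x
    rw [hA2]
    by_cases h : x = β
    · subst h
      simp only [if_true]
      rw [Finset.union_comm, hPu, (hA x).2]
    · simp only [h, if_false]
      exact hC1r' x
  obtain ⟨T1, t1a, t1b, t1c⟩ := AD_half m β hβ u (v + s) n (by omega) hu R hR P2 hP2c hP2r A1 hA1c hA1r
  obtain ⟨T2, t2a, t2b, t2c⟩ := AD_half m β hβ v (u + s) n (by omega) hv R hR P1 hP1c hP1r A2 hA2c hA2r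
  have hdis : ∀ x, ∀ y ∈ A1 x, y ∉ A2 x := by
    intro x y hy
    rw [hA2e, Finset.mem_sdiff]
    exact fun h => h.2 hy
  have hA1β : A1 β = P1 := by rw [hA1]; simp
  have hA2β : A2 β = P2 := by rw [hA2]; simp
  refine AD_reindex R _ A (J := Fin (u + s) ⊕ Fin (v + s)) (by
      rw [Fintype.card_sum, Fintype.card_fin, Fintype.card_fin, hsum]
      omega)
    (fun j x => match j with
      | Sum.inl j => if x = β then T1 j x ∪ P2 else T1 j x
      | Sum.inr j => if x = β then T2 j x ∪ P1 else T2 j x) ?_ ?_ ?_
  · rintro (j | j) x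
    · by_cases h : x = β
      · subst h
        simp only [if_true, Function.update_self]
        refine ⟨Finset.union_subset ((t1a j x).1.trans (hA1s x)) hP2s, ?_⟩
        have h1 := t1a j x
        rw [hA1β, Function.update_self] at h1
        rw [Finset.card_union_of_disjoint (Finset.disjoint_of_subset_left h1.1 hd), h1.2, hP2c]
        omega
      · simp only [h, if_false]
        have h1 := t1a j x
        rw [Function.update_of_ne h] at h1 ⊢
        exact ⟨h1.1.trans (hA1s x), h1.2⟩
    · by_cases h : x = β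
      · subst h
        simp only [if_true, Function.update_self]
        have h1 := t2a j x
        rw [hA2β, Function.update_self] at h1
        refine ⟨Finset.union_subset (h1.1.trans hP2s) hP1, ?_⟩
        rw [Finset.card_union_of_disjoint (Finset.disjoint_of_subset_left h1.1 hd.symm), h1.2, hP1c]
        omega
      · simp only [h, if_false]
        have h1 := t2a j x
        rw [Function.update_of_ne h] at h1 ⊢
        refine ⟨h1.1.trans ?_, h1.2⟩
        rw [hA2e]
        exact Finset.sdiff_subset
  · intro x y hy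
    have hsplit : ∀ (p : Fin (u + s) ⊕ Fin (v + s) → Prop) [DecidablePred p],
        (Finset.univ.filter p).card = (Finset.univ.filter (fun j => p (Sum.inl j))).card +
          (Finset.univ.filter (fun j => p (Sum.inr j))).card := by
      intro p _
      rw [Finset.card_filter, Finset.card_filter, Finset.card_filter, Fintype.sum_sum_type]
    rw [hsplit]
    by_cases h : x = β
    · subst h
      simp only [if_true, Function.update_self]
      by_cases hy1 : y ∈ P1
      · have hy2 : y ∉ P2 := fun h' => (Finset.disjoint_left.mp hd) hy1 h'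
        have e1 : (Finset.univ.filter (fun j : Fin (u + s) => y ∈ T1 j x ∪ P2)).card = u := by
          have h1 := t1b x y (by rw [hA1β]; exact hy1)
          rw [Function.update_self] at h1
          refine Eq.trans ?_ h1
          congr 1
          ext j
          simp [hy2]
        have e2 : (Finset.univ.filter (fun j : Fin (v + s) => y ∈ T2 j x ∪ P1)).card = v + s := by
          rw [Finset.filter_true_of_mem (fun j _ => Finset.mem_union_right _ hy1), Finset.card_univ,
            Fintype.card_fin]
        rw [e1, e2]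
        omega
      · have hy2 : y ∈ P2 := by
          rw [hP2, Finset.mem_sdiff]
          exact ⟨hy, hy1⟩
        have e1 : (Finset.univ.filter (fun j : Fin (u + s) => y ∈ T1 j x ∪ P2)).card = u + s := by
          rw [Finset.filter_true_of_mem (fun j _ => Finset.mem_union_right _ hy2), Finset.card_univ,
            Fintype.card_fin]
        have e2 : (Finset.univ.filter (fun j : Fin (v + s) => y ∈ T2 j x ∪ P1)).card = v := by
          have h1 := t2b x y (by rw [hA2β]; exact hy2)
          rw [Function.update_self] at h1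
          refine Eq.trans ?_ h1
          congr 1
          ext j
          simp [hy1]
        rw [e1, e2]
        omega
    · simp only [h, if_false]
      rw [Function.update_of_ne h]
      by_cases hy1 : y ∈ A1 x
      · have h1 := t1b x y hy1
        rw [Function.update_of_ne h] at h1
        have e2 : (Finset.univ.filter (fun j : Fin (v + s) => y ∈ T2 j x)).card = 0 := by
          rw [Finset.card_eq_zero, Finset.filter_eq_empty_iff]
          intro j _ h'
          exact hdis x y hy1 ((t2a j x).1 h')
        rw [h1, e2, add_zero]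
      · have hy2 : y ∈ A2 x := by
          rw [hA2e, Finset.mem_sdiff]
          exact ⟨hy, hy1⟩
        have h1 := t2b x y hy2
        rw [Function.update_of_ne h] at h1
        have e2 : (Finset.univ.filter (fun j : Fin (u + s) => y ∈ T1 j x)).card = 0 := by
          rw [Finset.card_eq_zero, Finset.filter_eq_empty_iff]
          intro j _ h'
          exact hy1 ((t1a j x).1 h')
        rw [h1, e2, zero_add]
  · have hbi : ∀ (T : κ → Finset ι) (P : Finset ι),
        Finset.univ.biUnion (fun x => if x = β then T x ∪ P else T x) = Finset.univ.biUnion T ∪ P := by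
      intro T P
      ext y
      simp only [Finset.mem_biUnion, Finset.mem_univ, true_and, Finset.mem_union]
      constructor
      · rintro ⟨x, hx⟩
        by_cases h : x = β
        · rw [if_pos h, Finset.mem_union] at hx
          rcases hx with hx | hx
          · exact Or.inl ⟨x, hx⟩
          · exact Or.inr hx
        · rw [if_neg h] at hx
          exact Or.inl ⟨x, hx⟩
      · rintro (⟨x, hx⟩ | hy)
        · refine ⟨x, ?_⟩
          by_cases h : x = β
          · rw [if_pos h]
            exact Finset.mem_union_left _ hx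
          · rw [if_neg h]
            exact hx
        · refine ⟨β, ?_⟩
          rw [if_pos rfl]
          exact Finset.mem_union_right _ hy
    rintro (j | j)
    · rw [hsum]
      have h1 := t1c j
      rw [← hbi] at h1
      exact h1.trans (by omega)
    · rw [hsum]
      have h1 := t2c j
      rw [← hbi] at h1
      exact h1.trans (by omega)

/-- [AS, size 3] from arrays to solutions.  Proof: `n = ∑ x, m x`.  Given finite sets `A x` enumerate them: `a x : Fin n → ι` with image
`A x` (`Bas R n (a x)`), get `σ` with `R.r (image (fun i => a (c i) (σ i k))) = n` for all `k`: the `n` elements of column `k` are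
different.  `T k x = image over {i : c i = x} of a x (σ i k)`: `m x` elements; `y = a x l ∈ A x` is in `T k x` iff `σ i k = l` for some
(exactly one) `i` with `c i = x`, i.e. `k = (σ i)⁻¹ l`: `m x` values of `k`. -/
theorem gd_of_arr (m : κ → ℕ) (n : ℕ) (hn : n = ∑ x, m x) (c : Fin n → κ)
    (hc : ∀ x, (Finset.univ.filter (fun i => c i = x)).card = m x)
    (h : ∀ (R : RkF ι) (a : κ → Fin n → ι), (∀ x, Bas R n (a x)) → Arr R n (fun i => a (c i))) : Gd ι m := by
  subst hn
  intro R A hR hA
  -- enumerations
  have henum : ∀ x, ∃ a : Fin (∑ x, m x) → ι, Finset.univ.image a = A x := by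
    intro x
    let e := (A x).equivFinOfCardEq (hA x).1
    refine ⟨fun i => (e.symm i).1, ?_⟩
    ext y
    simp only [Finset.mem_image, Finset.mem_univ, true_and]
    constructor
    · rintro ⟨i, rfl⟩
      exact (e.symm i).2
    · intro hy
      exact ⟨e ⟨y, hy⟩, by simp⟩
  choose a ha using henum
  have hB : ∀ x, Bas R (∑ x, m x) (a x) := fun x => ⟨hR, by rw [ha x]; exact (hA x).2⟩
  obtain ⟨σ, hσ⟩ := h R a hB
  -- columns are injective
  have hinj : ∀ k, Function.Injective (fun i => a (c i) (σ i k)) := by
    intro k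
    have h1 : R.r (Finset.univ.image (fun i => a (c i) (σ i k))) = ∑ x, m x := hσ k
    have h2 := R.r_le_card (Finset.univ.image (fun i => a (c i) (σ i k)))
    have h3 : (Finset.univ.image (fun i => a (c i) (σ i k))).card ≤ (Finset.univ : Finset (Fin (∑ x, m x))).card :=
      Finset.card_image_le
    rw [Finset.card_univ, Fintype.card_fin] at h3
    have h4 : (Finset.univ.image (fun i => a (c i) (σ i k))).card = (Finset.univ : Finset (Fin (∑ x, m x))).card := by
      rw [Finset.card_univ, Fintype.card_fin]
      omega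
    have h5 := Finset.card_image_iff.mp h4
    intro p q hpq
    exact h5 (by simp) (by simp) hpq
  refine ⟨fun k x => (Finset.univ.filter (fun i => c i = x)).image (fun i => a (c i) (σ i k)), ?_, ?_, ?_⟩
  · intro k x
    constructor
    · intro y hy
      rw [Finset.mem_image] at hy
      obtain ⟨i, hi, rfl⟩ := hy
      rw [(Finset.mem_filter.mp hi).2, ← ha x]
      exact Finset.mem_image_of_mem _ (Finset.mem_univ _)
    · rw [Finset.card_image_of_injective _ (hinj k), hc x]
  · intro x y hy
    rw [← ha x, Finset.mem_image] at hy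
    obtain ⟨l, _, rfl⟩ := hy
    rw [← hc x]
    symm
    apply Finset.card_bij (fun i _ => (σ i).symm l)
    · intro i hi
      rw [Finset.mem_filter]
      refine ⟨Finset.mem_univ _, ?_⟩
      rw [Finset.mem_image]
      refine ⟨i, hi, ?_⟩
      rw [(Finset.mem_filter.mp hi).2, Equiv.apply_symm_apply]
    · intro i hi i' hi' he
      have h1 := (Finset.mem_filter.mp hi).2
      have h2 := (Finset.mem_filter.mp hi').2
      apply hinj ((σ i).symm l)
      change a (c i) (σ i ((σ i).symm l)) = a (c i') (σ i' ((σ i).symm l))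
      rw [h1, h2, Equiv.apply_symm_apply, he, Equiv.apply_symm_apply]
    · intro k hk
      rw [Finset.mem_filter, Finset.mem_image] at hk
      obtain ⟨_, i, hi, he⟩ := hk
      refine ⟨i, hi, ?_⟩
      rw [(Finset.mem_filter.mp hi).2] at he
      have h1 := (hB x).inj he
      rw [← h1, Equiv.symm_apply_apply]
  · intro k
    refine Eq.trans ?_ (hσ k)
    congr 1
    ext y
    simp only [Finset.mem_biUnion, Finset.mem_univ, true_and, Finset.mem_image, Finset.mem_filter]
    constructor
    · rintro ⟨x, i, _, rfl⟩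
      exact ⟨i, rfl⟩
    · rintro ⟨i, rfl⟩
      exact ⟨c i, i, rfl, rfl⟩

/-- [SA2, size 3] from solutions to arrays (Koenig).  Proof: `A x = univ.image (a x)`; for every `x` let
`Q x k = {l : a x l ∈ T k x}`; `koenig n (m x) (Q x)` gives permutations `ρ x l`, `l : Fin (m x)`; the rows of colour `x` are in bijection
with `Fin (m x)`.  Column `k` is `univ.biUnion (T k)`. -/
theorem arr_of_gd (m : κ → ℕ) (n : ℕ) (hn : n = ∑ x, m x) (c : Fin n → κ)
    (hc : ∀ x, (Finset.univ.filter (fun i => c i = x)).card = m x) (h : Gd ι m)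
    (R : RkF ι) (a : κ → Fin n → ι) (ha : ∀ x, Bas R n (a x)) : Arr R n (fun i => a (c i)) := by
  subst hn
  rcases isEmpty_or_nonempty κ with hκ | hκ
  · refine ⟨fun _ => 1, fun k => ?_⟩
    exact (IsEmpty.false (c k)).elim
  obtain ⟨x0⟩ := hκ
  obtain ⟨T, hT1, hT2, hT3⟩ := h R (fun x => Finset.univ.image (a x)) (ha x0).le
    (fun x => ⟨(ha x).card, (ha x).eq⟩)
  -- index sets
  set Q : κ → Fin (∑ x, m x) → Finset (Fin (∑ x, m x)) :=
    fun x k => Finset.univ.filter (fun l => a x l ∈ T k x) with hQ
  have eQ : ∀ x k, (Q x k).image (a x) = T k x := by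
    intro x k
    ext y
    rw [Finset.mem_image]
    constructor
    · rintro ⟨l, hl, rfl⟩
      exact (Finset.mem_filter.mp hl).2
    · intro hy
      have h1 := (hT1 k x).1 hy
      rw [Finset.mem_image] at h1
      obtain ⟨l, _, rfl⟩ := h1
      exact ⟨l, Finset.mem_filter.mpr ⟨Finset.mem_univ _, hy⟩, rfl⟩
  have cQ : ∀ x k, (Q x k).card = m x := by
    intro x k
    rw [← (hT1 k x).2, ← eQ x k, Finset.card_image_of_injective _ (ha x).inj]
  have rQ : ∀ x l, (Finset.univ.filter (fun k => l ∈ Q x k)).card = m x := by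
    intro x l
    rw [← hT2 x (a x l) (Finset.mem_image_of_mem _ (Finset.mem_univ _))]
    congr 1
    ext k
    simp [hQ]
  have hρ : ∀ x, ∃ ρ : Fin (m x) → Equiv.Perm (Fin (∑ x, m x)),
      ∀ k, Finset.univ.image (fun l => ρ l k) = Q x k := fun x => koenig _ (m x) (Q x) (cQ x) (rQ x)
  choose ρ hρ using hρ
  have e : ∀ x, ({i // i ∈ Finset.univ.filter (fun i => c i = x)} ≃ Fin (m x)) := fun x =>
    Finset.equivFinOfCardEq (hc x)
  refine ⟨fun i => ρ (c i) (e (c i) ⟨i, Finset.mem_filter.mpr ⟨Finset.mem_univ _, rfl⟩⟩), fun k => ?_⟩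
  refine Eq.trans ?_ (hT3 k)
  congr 1
  ext y
  simp only [Finset.mem_biUnion, Finset.mem_univ, true_and, Finset.mem_image]
  constructor
  · rintro ⟨i, rfl⟩
    refine ⟨c i, ?_⟩
    rw [← eQ (c i) k]
    apply Finset.mem_image_of_mem
    rw [← hρ (c i) k]
    exact Finset.mem_image_of_mem (fun l => ρ (c i) l k) (Finset.mem_univ _)
  · rintro ⟨x, hy⟩
    rw [← eQ x k, Finset.mem_image] at hy
    obtain ⟨l, hl, rfl⟩ := hy
    rw [← hρ x k, Finset.mem_image] at hl
    obtain ⟨l', _, rfl⟩ := hl
    obtain ⟨⟨i, hi⟩, hi'⟩ := (e x).surjective l'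
    have hci := (Finset.mem_filter.mp hi).2
    subst hci
    exact ⟨i, by rw [hi']⟩

end Pool.Agent.RotaP
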