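import Pool.Agent.RotaP.Even

set_option autoImplicit false

namespace Pool.Agent.RotaP

variable {ι : Type*} [DecidableEq ι]

/-- [IN, size 2] if `z` is in the closure of `S`, it is in the closure of `S` in every contraction. -/
theorem con_closure (R : RkF ι) (X S : Finset ι) (z : ι) (h : R.r (insert z S) = R.r S) :
    (R.con X).r (insert z S) = (R.con X).r S := by
  rw [R.con_r, R.con_r]
  congr 1
  apply le_antisymm
  · have h1 := R.r_sub (insert z S) (S ∪ X)
    have e1 : insert z S ∪ (S ∪ X) = insert z S ∪ X := by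
      ext y
      simp only [Finset.mem_union, Finset.mem_insert]
      tauto
    have h2 : R.r S ≤ R.r (insert z S ∩ (S ∪ X)) := by
      apply R.r_mono
      intro y hy
      rw [Finset.mem_inter, Finset.mem_insert, Finset.mem_union]
      exact ⟨Or.inr hy, Or.inl hy⟩
    rw [e1, h] at h1
    omega
  · exact R.r_mono (Finset.union_subset_union_left (Finset.subset_insert z S))

/-- [IN] the inequality of Step 1, for one rank function `N`.  Proof: let `P = D1.erase x`, `Q = D2.erase z`.
If `N.r (insert x P) = N.r P`: `N.r D1 = N.r P`, and `N.r D2 ≤ N.r Q + N.r {z} ≤ N.r Q + N.r {x, z}`.  Same if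
`N.r (insert z Q) = N.r Q`.  Otherwise `N.r D1 = N.r P + 1`, `N.r D2 = N.r Q + 1` (`r_insert`) and we need `N.r {x, z} ≥ 2`.
First case of `h`, `N.r (insert z P) = N.r P`: submodularity for `P ∪ {z}` and `{x, z}` (union ⊇ insert x P, intersection ⊇ {z}):
`N.r (insert x P) + N.r {z} ≤ N.r (insert z P) + N.r {x, z}`, so `N.r P + 1 + N.r {z} ≤ N.r P + N.r {x, z}`, and `N.r {z} = 1`
because `N.r (insert z Q) > N.r Q`.  Second case symmetric. -/
theorem step1_ineq (N : RkF ι) (D1 D2 : Finset ι) (x z : ι) (hx : x ∈ D1) (hz : z ∈ D2)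
    (h : N.r (insert z (D1.erase x)) = N.r (D1.erase x) ∨ N.r (insert x (D2.erase z)) = N.r (D2.erase z)) :
    N.r D1 + N.r D2 ≤ N.r (D1.erase x) + N.r (D2.erase z) + N.r {x, z} := by
  have e1 : insert x (D1.erase x) = D1 := Finset.insert_erase hx
  have e2 : insert z (D2.erase z) = D2 := Finset.insert_erase hz
  set P := D1.erase x with hP
  set Q := D2.erase z with hQ
  have i1 := N.r_insert x P
  have i2 := N.r_insert z Q
  have u1 := N.r_union_le P {x}
  have u2 := N.r_union_le Q {z}
  have eu1 : P ∪ {x} = D1 := by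
    rw [← e1]; ext y; simp only [Finset.mem_union, Finset.mem_insert, Finset.mem_singleton]; tauto
  have eu2 : Q ∪ {z} = D2 := by
    rw [← e2]; ext y; simp only [Finset.mem_union, Finset.mem_insert, Finset.mem_singleton]; tauto
  have mx : N.r {x} ≤ N.r {x, z} := N.r_mono (by
    intro y hy; rw [Finset.mem_singleton] at hy; subst hy; exact Finset.mem_insert_self _ _)
  have mz : N.r {z} ≤ N.r {x, z} := N.r_mono (by
    intro y hy; rw [Finset.mem_singleton] at hy; subst hy; simp)
  have mP : N.r P ≤ N.r D1 := N.r_mono (Finset.erase_subset _ _)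
  have mQ : N.r Q ≤ N.r D2 := N.r_mono (Finset.erase_subset _ _)
  rw [e1] at i1
  rw [e2] at i2
  rw [eu1] at u1
  rw [eu2] at u2
  rcases h with h | h
  · have s1 := N.r_sub (insert z P) {x, z}
    have s2 : N.r D1 ≤ N.r (insert z P ∪ {x, z}) := N.r_mono (by
      intro y hy
      rw [← e1, Finset.mem_insert] at hy
      simp only [Finset.mem_union, Finset.mem_insert, Finset.mem_singleton]
      tauto)
    have s3 : N.r {z} ≤ N.r (insert z P ∩ {x, z}) := N.r_mono (by
      intro y hy
      rw [Finset.mem_singleton] at hy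
      subst hy
      simp)
    omega
  · have s1 := N.r_sub (insert x Q) {x, z}
    have s2 : N.r D2 ≤ N.r (insert x Q ∪ {x, z}) := N.r_mono (by
      intro y hy
      rw [← e2, Finset.mem_insert] at hy
      simp only [Finset.mem_union, Finset.mem_insert, Finset.mem_singleton]
      tauto)
    have s3 : N.r {x} ≤ N.r (insert x Q ∩ {x, z}) := N.r_mono (by
      intro y hy
      rw [Finset.mem_singleton] at hy
      subst hy
      simp)
    omega

/-- [SA, size 3] STEP 1.  `n = 2 m + 1`, a split `U, V` (`U.card = m + 1`, `V.card = m`, both sets bases), `x ∈ U`, `z ∉ V`, such that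
`c z` is in the closure of `D1 - a x` or `a x` is in the closure of `D2 - c z`, where `D1 = st a c U V`, `D2 = st a c Uᶜ Vᶜ`:
then there is a good permutation.  Proof: `π` from `exists_perm' (U.erase x) V x z`.  For `X ⊆ univ.image b`, `N = R.con X`:
`∑_k N.r {a k, c (π k)}` = sum over `U.erase x`  (`≥ N.r (st a c (U.erase x) V)`, `cover_le`) + `N.r {a x, c z}` + sum over `Uᶜ`
(`≥ N.r (st a c Uᶜ (Vᶜ.erase z))`).  `D1.erase (a x) = st a c (U.erase x) V` and `D2.erase (c z) = st a c Uᶜ (Vᶜ.erase z)` because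
`D1`, `D2` have `n` elements (`r = n ≤ card ≤ n`).  Use `step1_ineq` for `N` (`con_closure`), `N.r D1 = N.r D2 = n - X.card`. -/
theorem stepA (R : RkF ι) {n m : ℕ} (hn : n = 2 * m + 1) (a c b : Fin n → ι) (ha : Bas R n a) (hc : Bas R n c)
    (hb : Bas R n b) (U V : Finset (Fin n)) (hU : U.card = m + 1) (hV : V.card = m)
    (h1 : R.r (st a c U V) = n) (h2 : R.r (st a c Uᶜ Vᶜ) = n) (x z : Fin n) (hx : x ∈ U) (hz : z ∉ V)
    (h : R.r (st a c (U.erase x) (insert z V)) < n ∨ R.r (st a c (insert x Uᶜ) (Vᶜ.erase z)) < n) :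
    ∃ π : Equiv.Perm (Fin n), Good R n 2 b (fun k => {a k, c (π k)}) := by
  have hUx : (U.erase x).card = V.card := by rw [Finset.card_erase_of_mem hx, hU, hV]; omega
  obtain ⟨π, hπ, hπx⟩ := exists_perm' (U.erase x) V x z (Finset.notMem_erase x U) hz hUx
  have hUc : U.card + Uᶜ.card = n := by
    have := Finset.card_add_card_compl U
    rwa [Fintype.card_fin] at this
  have hVc : V.card + Vᶜ.card = n := by
    have := Finset.card_add_card_compl V
    rwa [Fintype.card_fin] at this
  have hzc : z ∈ Vᶜ := Finset.mem_compl.mpr hz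
  -- the two bases
  set D1 := st a c U V with hD1
  set D2 := st a c Uᶜ Vᶜ with hD2
  set P1 := st a c (U.erase x) V with hP1
  set P2 := st a c Uᶜ (Vᶜ.erase z) with hP2
  have iD1 : D1 = insert (a x) P1 := by
    rw [hD1, hP1, st, st]
    ext y
    simp only [Finset.mem_union, Finset.mem_image, Finset.mem_insert, Finset.mem_erase]
    constructor
    · rintro (⟨i, hi, rfl⟩ | h1)
      · by_cases hix : i = x
        · left; rw [hix]
        · exact Or.inr (Or.inl ⟨i, ⟨hix, hi⟩, rfl⟩)
      · exact Or.inr (Or.inr h1)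
    · rintro (rfl | ⟨i, hi, rfl⟩ | h1)
      · exact Or.inl ⟨x, hx, rfl⟩
      · exact Or.inl ⟨i, hi.2, rfl⟩
      · exact Or.inr h1
  have iD2 : D2 = insert (c z) P2 := by
    rw [hD2, hP2, st, st]
    ext y
    simp only [Finset.mem_union, Finset.mem_image, Finset.mem_insert, Finset.mem_erase]
    constructor
    · rintro (h1 | ⟨i, hi, rfl⟩)
      · exact Or.inr (Or.inl h1)
      · by_cases hix : i = z
        · left; rw [hix]
        · exact Or.inr (Or.inr ⟨i, ⟨hix, hi⟩, rfl⟩)
    · rintro (rfl | h1 | ⟨i, hi, rfl⟩)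
      · exact Or.inr ⟨z, hzc, rfl⟩
      · exact Or.inl h1
      · exact Or.inr ⟨i, hi.2, rfl⟩
  have cP1 : P1.card ≤ 2 * m := by
    have := st_card_le a c (U.erase x) V
    rw [← hP1] at this
    omega
  have cP2 : P2.card ≤ 2 * m := by
    have := st_card_le a c Uᶜ (Vᶜ.erase z)
    have h3 := Finset.card_erase_add_one hzc
    rw [← hP2] at this
    omega
  have nx : a x ∉ P1 := by
    intro hmem
    rw [Finset.insert_eq_of_mem hmem] at iD1
    have := R.r_le_card D1
    rw [iD1] at this h1
    omega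
  have nz : c z ∉ P2 := by
    intro hmem
    rw [Finset.insert_eq_of_mem hmem] at iD2
    have := R.r_le_card D2
    rw [iD2] at this h2
    omega
  have eP1 : D1.erase (a x) = P1 := by rw [iD1, Finset.erase_insert nx]
  have eP2 : D2.erase (c z) = P2 := by rw [iD2, Finset.erase_insert nz]
  have rP1 : 2 * m ≤ R.r P1 := by
    have h3 := R.r_insert (a x) P1
    rw [← iD1, h1] at h3
    omega
  have rP2 : 2 * m ≤ R.r P2 := by
    have h3 := R.r_insert (c z) P2
    rw [← iD2, h2] at h3
    omega
  have hcl : R.r (insert (c z) (D1.erase (a x))) = R.r (D1.erase (a x)) ∨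
      R.r (insert (a x) (D2.erase (c z))) = R.r (D2.erase (c z)) := by
    rw [eP1, eP2]
    rcases h with h | h
    · left
      have e : insert (c z) P1 = st a c (U.erase x) (insert z V) := by
        rw [hP1, st, st, Finset.image_insert]
        ext y
        simp only [Finset.mem_union, Finset.mem_insert]
        tauto
      rw [← e] at h
      have h4 : R.r P1 ≤ R.r (insert (c z) P1) := R.r_mono (Finset.subset_insert _ _)
      omega
    · right
      have e : insert (a x) P2 = st a c (insert x Uᶜ) (Vᶜ.erase z) := by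
        rw [hP2, st, st, Finset.image_insert]
        ext y
        simp only [Finset.mem_union, Finset.mem_insert]
        tauto
      rw [← e] at h
      have h4 : R.r P2 ≤ R.r (insert (a x) P2) := R.r_mono (Finset.subset_insert _ _)
      omega
  have mx : a x ∈ D1 := by rw [iD1]; exact Finset.mem_insert_self _ _
  have mz : c z ∈ D2 := by rw [iD2]; exact Finset.mem_insert_self _ _
  refine ⟨π, fun X hX => ?_⟩
  set N := R.con X with hN
  have hcl' : N.r (insert (c z) (D1.erase (a x))) = N.r (D1.erase (a x)) ∨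
      N.r (insert (a x) (D2.erase (c z))) = N.r (D2.erase (c z)) := by
    rcases hcl with h3 | h3
    · exact Or.inl (con_closure R X _ _ h3)
    · exact Or.inr (con_closure R X _ _ h3)
  have hineq := step1_ineq N D1 D2 (a x) (c z) mx mz hcl'
  rw [eP1, eP2] at hineq
  have b1 : N.r D1 + X.card = n := hb.con_eq hX h1
  have b2 : N.r D2 + X.card = n := hb.con_eq hX h2
  have s1 : N.r P1 ≤ ∑ k ∈ U.erase x, N.r {a k, c (π k)} := by
    apply RkF.cover_le N (U.erase x) (fun k => {a k, c (π k)}) P1
    intro y hy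
    rw [hP1, st, Finset.mem_union, Finset.mem_image, Finset.mem_image] at hy
    rcases hy with ⟨i, hi, rfl⟩ | ⟨j, hj, rfl⟩
    · exact ⟨i, hi, by simp⟩
    · refine ⟨π.symm j, ?_, by simp⟩
      rw [hπ, Equiv.apply_symm_apply]
      exact hj
  have s2 : N.r P2 ≤ ∑ k ∈ Uᶜ, N.r {a k, c (π k)} := by
    apply RkF.cover_le N Uᶜ (fun k => {a k, c (π k)}) P2
    intro y hy
    rw [hP2, st, Finset.mem_union, Finset.mem_image, Finset.mem_image] at hy
    rcases hy with ⟨i, hi, rfl⟩ | ⟨j, hj, rfl⟩
    · exact ⟨i, hi, by simp⟩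
    · refine ⟨π.symm j, ?_, by simp⟩
      rw [Finset.mem_compl]
      intro hmem
      rw [Finset.mem_erase, Finset.mem_compl] at hj
      have hne : π.symm j ≠ x := by
        intro he
        apply hj.1
        rw [← hπx, ← he, Equiv.apply_symm_apply]
      have h3 := (hπ (π.symm j)).mp (Finset.mem_erase.mpr ⟨hne, hmem⟩)
      rw [Equiv.apply_symm_apply] at h3
      exact hj.2 h3
  have split : ∑ k, N.r {a k, c (π k)} =
      N.r {a x, c z} + ∑ k ∈ U.erase x, N.r {a k, c (π k)} + ∑ k ∈ Uᶜ, N.r {a k, c (π k)} := by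
    rw [← Finset.sum_add_sum_compl U, ← Finset.add_sum_erase U _ hx, hπx]
  change 2 * n ≤ ∑ k, N.r {a k, c (π k)} + 2 * X.card
  rw [split]
  omega

end Pool.Agent.RotaP
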