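import Pool.Agent.RotaP.StA

set_option autoImplicit false

namespace Pool.Agent.RotaP

variable {ι : Type*} [DecidableEq ι]

private theorem SW_step {n : ℕ} {U U' : Finset (Fin n)} {x x' : Fin n} (hx : x ∉ U') (hx' : x' ∈ U' \ U) :
    (U' \ insert x' (U.erase x)).card + 1 = (U' \ U).card := by
  have e : U' \ insert x' (U.erase x) = (U' \ U).erase x' := by
    ext y
    simp only [Finset.mem_sdiff, Finset.mem_insert, Finset.mem_erase, not_or, not_and, ne_eq]
    constructor
    · rintro ⟨h1, h2, h3⟩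
      refine ⟨h2, h1, h3 ?_⟩
      rintro rfl
      exact hx h1
    · rintro ⟨h1, h2, h3⟩
      exact ⟨h2, h1, fun _ => h3⟩
  rw [e]
  exact Finset.card_erase_add_one hx'

private theorem SW_card {n u : ℕ} {U : Finset (Fin n)} {x x' : Fin n} (hU : U.card = u) (hx : x ∈ U)
    (hx' : x' ∉ U) : (insert x' (U.erase x)).card = u := by
  have h1 : x' ∉ U.erase x := fun h => hx' (Finset.mem_of_mem_erase h)
  rw [Finset.card_insert_of_notMem h1, Finset.card_erase_add_one hx, hU]

private theorem SW_pair {n u : ℕ} {U U' : Finset (Fin n)} (hU : U.card = u) (hU' : U'.card = u)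
    (h : (U' \ U).card ≠ 0) : ∃ x x', x ∈ U ∧ x ∉ U' ∧ x' ∈ U' \ U := by
  have h1 : (U \ U').card = (U' \ U).card := Finset.card_sdiff_comm (hU.trans hU'.symm)
  obtain ⟨x', hx'⟩ := Finset.card_pos.mp (Nat.pos_of_ne_zero h)
  obtain ⟨x, hx⟩ := Finset.card_pos.mp (show 0 < (U \ U').card by omega)
  exact ⟨x, x', (Finset.mem_sdiff.mp hx).1, (Finset.mem_sdiff.mp hx).2, hx'⟩

private theorem SW_eq {n u : ℕ} {U U' : Finset (Fin n)} (hU : U.card = u) (hU' : U'.card = u)
    (h : (U' \ U).card = 0) : U' = U := by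
  rw [Finset.card_eq_zero, Finset.sdiff_eq_empty_iff_subset] at h
  exact Finset.eq_of_subset_of_card_le h (by omega)

/-- [SW, size 2] a family of pairs `(U, V)`, `U.card = u`, `V.card = v`, which is nonempty and closed under single swaps in `U`
and in `V`, contains all such pairs.  Proof: for a target `(U', V')` induction on `(U \ U').card + (V \ V').card`: if it is `0`,
`U = U'`, `V = V'` (equal cardinalities).  If `U ≠ U'` there are `x ∈ U \ U'` and `x' ∈ U' \ U`: swap. -/
theorem swap_closed {n u v : ℕ} (S : Finset (Fin n) → Finset (Fin n) → Prop)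
    (hne : ∃ U V, U.card = u ∧ V.card = v ∧ S U V)
    (h1 : ∀ U V, U.card = u → V.card = v → S U V → ∀ x ∈ U, ∀ x', x' ∉ U → S (insert x' (U.erase x)) V)
    (h2 : ∀ U V, U.card = u → V.card = v → S U V → ∀ z ∈ V, ∀ z', z' ∉ V → S U (insert z' (V.erase z))) :
    ∀ U V, U.card = u → V.card = v → S U V := by
  obtain ⟨U0, V0, hU0, hV0, hS0⟩ := hne
  intro U' V' hU' hV'
  suffices H : ∀ d U V, U.card = u → V.card = v → S U V → (U' \ U).card + (V' \ V).card = d →
      S U' V' from H _ U0 V0 hU0 hV0 hS0 rfl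
  intro d
  induction d with
  | zero =>
    intro U V hU hV hS hd
    rw [SW_eq hU hU' (by omega), SW_eq hV hV' (by omega)]
    exact hS
  | succ d ih =>
    intro U V hU hV hS hd
    by_cases hc : (U' \ U).card = 0
    · have hc2 : (V' \ V).card ≠ 0 := by omega
      obtain ⟨z, z', hz, hz1, hz'⟩ := SW_pair hV hV' hc2
      have hz2 := (Finset.mem_sdiff.mp hz').2
      have := SW_step hz1 hz'
      exact ih U _ hU (SW_card hV hz hz2) (h2 U V hU hV hS z hz z' hz2) (by omega)
    · obtain ⟨x, x', hx, hx1, hx'⟩ := SW_pair hU hU' hc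
      have hx2 := (Finset.mem_sdiff.mp hx').2
      have := SW_step hx1 hx'
      exact ih _ V (SW_card hU hx hx2) hV (h1 U V hU hV hS x hx x' hx2) (by omega)

private theorem SB_gen (R : RkF ι) {n m : ℕ} (hn : n = 2 * m + 1) (a c b : Fin n → ι)
    (ha : Bas R n a) (hc : Bas R n c) (hb : Bas R n b)
    (hno : ¬ ∃ π : Equiv.Perm (Fin n), Good R n 2 b (fun k => {a k, c (π k)}))
    (U V : Finset (Fin n)) (hU : U.card = m + 1) (hV : V.card = m)
    (hS : R.r (st a c U V) = n ∧ R.r (st a c Uᶜ Vᶜ) = n) (x z : Fin n) (hx : x ∈ U) (hz : z ∉ V) :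
    (insert x Uᶜ).card = m + 1 ∧ (Vᶜ.erase z).card = m ∧
    (R.r (st a c (insert x Uᶜ) (Vᶜ.erase z)) = n ∧
      R.r (st a c (insert x Uᶜ)ᶜ (Vᶜ.erase z)ᶜ) = n) := by
  have hcU : Uᶜ.card = m := by
    rw [Finset.card_compl, Fintype.card_fin]
    omega
  have hcV : Vᶜ.card = m + 1 := by
    rw [Finset.card_compl, Fintype.card_fin]
    omega
  have hxc : x ∉ Uᶜ := by
    rw [Finset.mem_compl]
    exact fun h => h hx
  have hzc : z ∈ Vᶜ := by
    rw [Finset.mem_compl]
    exact hz
  refine ⟨by rw [Finset.card_insert_of_notMem hxc, hcU], by rw [Finset.card_erase_of_mem hzc, hcV]; rfl, ?_⟩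
  have e1 : (insert x Uᶜ)ᶜ = U.erase x := by
    ext y
    simp only [Finset.mem_compl, Finset.mem_insert, Finset.mem_erase, not_or, not_not, ne_eq]
  have e2 : (Vᶜ.erase z)ᶜ = insert z V := by
    ext y
    simp only [Finset.mem_compl, Finset.mem_insert, Finset.mem_erase, not_and, not_not, ne_eq]
    constructor
    · intro h
      by_cases hy : y = z
      · exact Or.inl hy
      · exact Or.inr (h hy)
    · rintro (h | h) h'
      · exact absurd h h'
      · exact h
  rw [e1, e2]
  by_contra hcon
  apply hno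
  refine stepA R hn a c b ha hc hb U V hU hV hS.1 hS.2 x z hx hz ?_
  rcases not_and_or.mp hcon with h | h
  · exact Or.inr (lt_of_le_of_ne (hb.le _) h)
  · exact Or.inl (lt_of_le_of_ne (hb.le _) h)

/-- [SB, size 3] STEP 2.  `n = 2 m + 1`: there is a good permutation, or every set of type `(m + 1, m)` and every set of type
`(m, m + 1)` is a basis.  Proof: suppose there is no good permutation.  `S U V := R.r (st a c U V) = n ∧ R.r (st a c Uᶜ Vᶜ) = n`.
By `stepA`: (E) if `U.card = m + 1`, `V.card = m`, `S U V`, `x ∈ U`, `z ∉ V` then `r (st a c (U.erase x) (insert z V)) = n` and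
`r (st a c (insert x Uᶜ) (Vᶜ.erase z)) = n`, that is, `S (insert x Uᶜ) (Vᶜ.erase z)` (complements: `U.erase x`, `insert z V`;
cardinalities `m + 1`, `m`).  Apply (E) again to this pair and `x'`, `z`, where `x' ∉ U` (so `x' ∈ insert x Uᶜ`, `x' ≠ x`) and
`z ∉ Vᶜ.erase z`: `S (insert x' (U.erase x)) V`-shaped sets.  [`insert x' (insert x Uᶜ)ᶜ = insert x' (U.erase x)`,
`(Vᶜ.erase z)ᶜ.erase z = (insert z V).erase z = V`.]  This is hypothesis `h1` of `swap_closed` (a `z ∉ V` exists since `m < n`).
For `h2`: `z ∈ V`, `z' ∉ V`; apply (E) with some `x ∈ U` and `z'`, then with the pair `(x, z)` (`z ∉ Vᶜ.erase z'`):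
`S (insert x (insert x Uᶜ)ᶜ) ((Vᶜ.erase z')ᶜ.erase z) = S U ((insert z' V).erase z)`.
A split exists by `greene` (`U` with `m + 1` elements).  Conclusion for type `(m, m+1)`: complements of type `(m+1, m)`. -/
theorem stepB (R : RkF ι) {n m : ℕ} (hn : n = 2 * m + 1) (a c b : Fin n → ι) (ha : Bas R n a) (hc : Bas R n c)
    (hb : Bas R n b) :
    (∃ π : Equiv.Perm (Fin n), Good R n 2 b (fun k => {a k, c (π k)})) ∨
    ((∀ U V : Finset (Fin n), U.card = m + 1 → V.card = m → R.r (st a c U V) = n) ∧
      (∀ U V : Finset (Fin n), U.card = m → V.card = m + 1 → R.r (st a c U V) = n)) := by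
  by_cases hno : ∃ π : Equiv.Perm (Fin n), Good R n 2 b (fun k => {a k, c (π k)})
  · exact Or.inl hno
  right
  have hE := SB_gen R hn a c b ha hc hb hno
  have hall : ∀ U V : Finset (Fin n), U.card = m + 1 → V.card = m →
      (R.r (st a c U V) = n ∧ R.r (st a c Uᶜ Vᶜ) = n) := by
    refine swap_closed (fun U V => R.r (st a c U V) = n ∧ R.r (st a c Uᶜ Vᶜ) = n) ?_ ?_ ?_
    · obtain ⟨U, -, hU⟩ := Finset.exists_subset_card_eq (s := (Finset.univ : Finset (Fin n)))
        (n := m + 1) (by rw [Finset.card_univ, Fintype.card_fin]; omega)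
      obtain ⟨V, hUV, hV1, hV2⟩ := greene R a c ha hc U
      exact ⟨U, V, hU, by omega, hV1, hV2⟩
    · intro U V hU hV hS x hx x' hx'
      obtain ⟨z, hz⟩ : ∃ z, z ∉ V := by
        by_contra hcon
        push Not at hcon
        have : V = Finset.univ := Finset.eq_univ_of_forall hcon
        rw [this, Finset.card_univ, Fintype.card_fin] at hV
        omega
      obtain ⟨a1, a2, a3⟩ := hE U V hU hV hS x z hx hz
      obtain ⟨b1, b2, b3⟩ := hE _ _ a1 a2 a3 x' z
        (Finset.mem_insert_of_mem (Finset.mem_compl.mpr hx')) (Finset.notMem_erase z _)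
      have e1 : insert x' (insert x Uᶜ)ᶜ = insert x' (U.erase x) := by
        congr 1
        ext y
        simp only [Finset.mem_compl, Finset.mem_insert, Finset.mem_erase, not_or, not_not, ne_eq]
      have e2 : (Vᶜ.erase z)ᶜ.erase z = V := by
        ext y
        simp only [Finset.mem_compl, Finset.mem_erase, not_and, not_not, ne_eq]
        constructor
        · rintro ⟨h1, h2⟩
          exact h2 h1
        · intro h
          exact ⟨fun h' => hz (h' ▸ h), fun _ => h⟩
      rw [e1, e2] at b3
      exact b3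
    · intro U V hU hV hS z hz z' hz'
      obtain ⟨x, hx⟩ : U.Nonempty := Finset.card_pos.mp (by omega)
      obtain ⟨a1, a2, a3⟩ := hE U V hU hV hS x z' hx hz'
      have hz2 : z ∉ Vᶜ.erase z' := by
        intro h
        exact (Finset.mem_compl.mp (Finset.mem_of_mem_erase h)) hz
      obtain ⟨b1, b2, b3⟩ := hE _ _ a1 a2 a3 x z (Finset.mem_insert_self _ _) hz2
      have e1 : insert x (insert x Uᶜ)ᶜ = U := by
        ext y
        simp only [Finset.mem_compl, Finset.mem_insert, not_or, not_not]
        constructor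
        · rintro (h | ⟨h1, h2⟩)
          · rw [h]
            exact hx
          · exact h2
        · intro h
          by_cases hy : y = x
          · exact Or.inl hy
          · exact Or.inr ⟨hy, h⟩
      have hne : z ≠ z' := fun h => hz' (h ▸ hz)
      have e2 : (Vᶜ.erase z')ᶜ.erase z = insert z' (V.erase z) := by
        ext y
        simp only [Finset.mem_compl, Finset.mem_erase, Finset.mem_insert, not_and, not_not, ne_eq]
        constructor
        · rintro ⟨h1, h2⟩
          by_cases hy : y = z'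
          · exact Or.inl hy
          · exact Or.inr ⟨h1, h2 hy⟩
        · rintro (h | ⟨h1, h2⟩)
          · exact ⟨fun h' => hne (h'.symm.trans h), fun h' => absurd h h'⟩
          · exact ⟨h1, fun _ => h2⟩
      rw [e1, e2] at b3
      exact b3
  refine ⟨fun U V hU hV => (hall U V hU hV).1, fun U V hU hV => ?_⟩
  have hcU : Uᶜ.card = m + 1 := by
    rw [Finset.card_compl, Fintype.card_fin]
    omega
  have hcV : Vᶜ.card = m := by
    rw [Finset.card_compl, Fintype.card_fin]
    omega
  have h := (hall _ _ hcU hcV).2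
  rw [compl_compl, compl_compl] at h
  exact h

end Pool.Agent.RotaP
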