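import Pool.Agent.RotaP.Base

set_option autoImplicit false

namespace Pool.Agent.RotaP

variable {ι : Type*} [DecidableEq ι]

/-- [SC, size 3] STEP 3 (a).  `n = 2 m + 1`, `n` sets `T k`, any `u ≤ m` of them have a union of rank `2 u`, any `m + 1` or more of
them span.  `f(X) = ∑_k r_X (T k) + 2 X.card - 2 n` is `≥ -1`, with equality only if `X.card = m` and all `r_X (T k) = 1`; and
`f(X) = 0` only if `X.card ∈ {0, m, m + 1, n}`.
Proof: `N = R.con X`.  `N.r (T k) ≤ R.r (T k) ≤ 2` (if `m ≥ 1`, `K = {k}` gives 2; if `m = 0`, `n = 1`).  Let `K0, K1, K2` be the sets of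
`k` with `N.r (T k) = 0, 1, 2`, cardinalities `q0, q1, q2`, sum `n`; `∑ = q1 + 2 q2`, so `f = 2 X.card - 2 q0 - q1`.
For `j ≤ q1` choose `J ⊆ K1`, `J.card = j`, `U = (K0 ∪ J).biUnion T`: `N.r U ≤ ∑_{K0 ∪ J} N.r (T k) = j`, so
`R.r U ≤ R.r (U ∪ X) = N.r U + X.card ≤ j + X.card`.  So (i) `q0 + j ≤ m → 2 q0 + j ≤ X.card` (`2 (q0 + j) ≤ j + X.card`);
(ii) `m + 1 ≤ q0 + j → n ≤ j + X.card`.
Case `q0 + q1 ≤ m`: (i) with `j = q1`.  Case `m + 1 ≤ q0`: (ii) with `j = 0`: `X.card ≥ n`, `X.card ≤ n` and `N.r = 0` always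
(`R.r X = n`), so `f = 0`, `X.card = n`.  Case `q0 ≤ m < q0 + q1`: (i) with `j = m - q0`: `X.card ≥ m + q0`; and `q1 ≤ n - q0`;
everything else is linear arithmetic (`omega`). -/
theorem stepC (R : RkF ι) {n m : ℕ} (hn : n = 2 * m + 1) (b : Fin n → ι) (hb : Bas R n b) (T : Fin n → Finset ι)
    (hT1 : ∀ K : Finset (Fin n), K.card ≤ m → R.r (K.biUnion T) = 2 * K.card)
    (hT2 : ∀ K : Finset (Fin n), m + 1 ≤ K.card → R.r (K.biUnion T) = n)
    (X : Finset ι) (hX : X ⊆ Finset.univ.image b) :
    2 * n ≤ ∑ k, (R.con X).r (T k) + 2 * X.card + 1 ∧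
    (2 * n = ∑ k, (R.con X).r (T k) + 2 * X.card + 1 → X.card = m ∧ ∀ k, (R.con X).r (T k) = 1) ∧
    (2 * n = ∑ k, (R.con X).r (T k) + 2 * X.card → X.card = 0 ∨ X.card = m ∨ X.card = m + 1 ∨ X.card = n) := by
  set N := R.con X with hN
  have hXr : R.r X = X.card := hb.indep hX
  have hXn : X.card ≤ n := by rw [← hXr]; exact hb.le X
  have hle2 : ∀ k, N.r (T k) ≤ 2 := by
    intro k
    have h1 : N.r (T k) ≤ R.r (T k) := R.con_le X (T k)
    rcases Nat.eq_zero_or_pos m with h0 | h0
    · have := hb.le (T k)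
      omega
    · have h2 := hT1 {k} (by rw [Finset.card_singleton]; omega)
      rw [Finset.singleton_biUnion, Finset.card_singleton] at h2
      omega
  set K0 : Finset (Fin n) := Finset.univ.filter (fun k => N.r (T k) = 0) with hK0
  set K1 : Finset (Fin n) := Finset.univ.filter (fun k => N.r (T k) = 1) with hK1
  set K2 : Finset (Fin n) := Finset.univ.filter (fun k => N.r (T k) = 2) with hK2
  have hsum : ∑ k, N.r (T k) = K1.card + 2 * K2.card := by
    have e : ∀ k ∈ (Finset.univ : Finset (Fin n)), N.r (T k) =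
        (if N.r (T k) = 1 then 1 else 0) + (if N.r (T k) = 2 then 2 else 0) := by
      intro k _
      have := hle2 k
      split_ifs <;> omega
    rw [Finset.sum_congr rfl e, Finset.sum_add_distrib, ← Finset.sum_filter, ← Finset.sum_filter,
      Finset.sum_const, Finset.sum_const, smul_eq_mul, smul_eq_mul]
    change K1.card * 1 + K2.card * 2 = K1.card + 2 * K2.card
    omega
  have hcard : K0.card + K1.card + K2.card = n := by
    have e : ∀ k ∈ (Finset.univ : Finset (Fin n)), 1 =
        (if N.r (T k) = 0 then 1 else 0) + (if N.r (T k) = 1 then 1 else 0) + (if N.r (T k) = 2 then 1 else 0) := by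
      intro k _
      have := hle2 k
      split_ifs <;> omega
    have h1 : ∑ _k : Fin n, 1 = n := by simp
    rw [Finset.sum_congr rfl e, Finset.sum_add_distrib, Finset.sum_add_distrib, ← Finset.sum_filter,
      ← Finset.sum_filter, ← Finset.sum_filter, Finset.sum_const, Finset.sum_const, Finset.sum_const,
      smul_eq_mul, smul_eq_mul, smul_eq_mul] at h1
    change K0.card * 1 + K1.card * 1 + K2.card * 1 = n at h1
    omega
  have hdisj : ∀ J ⊆ K1, Disjoint K0 J := by
    intro J hJ
    rw [Finset.disjoint_left]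
    intro k hk0 hkJ
    have h1 := (Finset.mem_filter.mp hk0).2
    have h2 := (Finset.mem_filter.mp (hJ hkJ)).2
    omega
  have key : ∀ j ≤ K1.card, ∃ K : Finset (Fin n), K.card = K0.card + j ∧ R.r (K.biUnion T) ≤ j + X.card := by
    intro j hj
    obtain ⟨J, hJ, hJc⟩ := Finset.exists_subset_card_eq hj
    refine ⟨K0 ∪ J, ?_, ?_⟩
    · rw [Finset.card_union_of_disjoint (hdisj J hJ), hJc]
    · have h1 : N.r ((K0 ∪ J).biUnion T) ≤ ∑ k ∈ K0 ∪ J, N.r (T k) := by
        have gen : ∀ S : Finset (Fin n), N.r (S.biUnion T) ≤ ∑ k ∈ S, N.r (T k) := by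
          intro S
          induction S using Finset.induction_on with
          | empty => simp [N.r_empty]
          | insert k S hk ih =>
            rw [Finset.biUnion_insert, Finset.sum_insert hk]
            exact (N.r_union_le _ _).trans (Nat.add_le_add_left ih _)
        exact gen _
      have h2 : ∑ k ∈ K0 ∪ J, N.r (T k) = j := by
        rw [Finset.sum_union (hdisj J hJ)]
        have h3 : ∑ k ∈ K0, N.r (T k) = 0 := Finset.sum_eq_zero fun k hk => (Finset.mem_filter.mp hk).2
        have h4 : ∑ k ∈ J, N.r (T k) = j := by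
          rw [Finset.sum_congr rfl (fun k hk => (Finset.mem_filter.mp (hJ hk)).2), Finset.sum_const, smul_eq_mul,
            mul_one, hJc]
        rw [h3, h4, zero_add]
      have h3 := R.con_add X ((K0 ∪ J).biUnion T)
      have h4 : R.r ((K0 ∪ J).biUnion T) ≤ R.r ((K0 ∪ J).biUnion T ∪ X) := R.r_mono Finset.subset_union_left
      rw [← hN] at h3
      omega
  have bi : ∀ j ≤ K1.card, K0.card + j ≤ m → 2 * K0.card + j ≤ X.card := by
    intro j hj h1
    obtain ⟨K, hK, hr⟩ := key j hj
    rw [hT1 K (by omega)] at hr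
    omega
  have bii : ∀ j ≤ K1.card, m + 1 ≤ K0.card + j → n ≤ j + X.card := by
    intro j hj h1
    obtain ⟨K, hK, hr⟩ := key j hj
    rw [hT2 K (by omega)] at hr
    exact hr
  have hall1 : K1.card = n → ∀ k, N.r (T k) = 1 := by
    intro h1 k
    have h2 : K1 = Finset.univ := by
      apply Finset.eq_univ_of_card
      rw [h1, Fintype.card_fin]
    have h3 : k ∈ K1 := by rw [h2]; exact Finset.mem_univ k
    exact (Finset.mem_filter.mp h3).2
  rw [hsum]
  rcases Nat.lt_or_ge (K0.card + K1.card) (m + 1) with c1 | c1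
  · have h1 := bi K1.card le_rfl (by omega)
    refine ⟨by omega, fun h => ?_, fun h => ?_⟩
    · exfalso; omega
    · left; omega
  · rcases Nat.lt_or_ge K0.card (m + 1) with c2 | c2
    · have h1 := bi (m - K0.card) (by omega) (by omega)
      refine ⟨by omega, fun h => ?_, fun h => ?_⟩
      · refine ⟨by omega, ?_⟩
        apply hall1
        omega
      · omega
    · have h1 := bii 0 (Nat.zero_le _) (by omega)
      have hX1 : X.card = n := by omega
      have h2 : ∀ k, N.r (T k) = 0 := by
        intro k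
        have h3 := R.con_add X (T k)
        have h4 := hb.le (T k ∪ X)
        rw [← hN] at h3
        omega
      have h3 : K0.card = n := by
        have : K0 = Finset.univ := by
          ext k
          simp [hK0, h2 k]
        rw [this, Finset.card_univ, Fintype.card_fin]
      refine ⟨by omega, fun h => ?_, fun h => ?_⟩
      · exfalso; omega
      · right; right; right; exact hX1

/-- [PA, size 1] the pairs of a permutation satisfy the hypotheses of `stepC`.  Proof: `K.biUnion T = st a c K (K.image π)`;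
if `K.card ≤ m`, extend to a set of type `(m + 1, m)` and use `st_indep`; if `K.card ≥ m + 1` it contains one. -/
theorem pairs_ok (R : RkF ι) {n m : ℕ} (hn : n = 2 * m + 1) (a c : Fin n → ι) (ha : Bas R n a)
    (h1 : ∀ U V : Finset (Fin n), U.card = m + 1 → V.card = m → R.r (st a c U V) = n) (π : Equiv.Perm (Fin n)) :
    (∀ K : Finset (Fin n), K.card ≤ m → R.r (K.biUnion (fun k => {a k, c (π k)})) = 2 * K.card) ∧
    (∀ K : Finset (Fin n), m + 1 ≤ K.card → R.r (K.biUnion (fun k => {a k, c (π k)})) = n) := by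
  have e : ∀ K : Finset (Fin n), K.biUnion (fun k => ({a k, c (π k)} : Finset ι)) = st a c K (K.image π) := by
    intro K
    ext y
    simp only [Finset.mem_biUnion, Finset.mem_insert, Finset.mem_singleton, st, Finset.mem_union, Finset.mem_image]
    constructor
    · rintro ⟨k, hk, rfl | rfl⟩
      · exact Or.inl ⟨k, hk, rfl⟩
      · exact Or.inr ⟨π k, ⟨k, hk, rfl⟩, rfl⟩
    · rintro (⟨k, hk, rfl⟩ | ⟨_, ⟨k, hk, rfl⟩, rfl⟩)
      · exact ⟨k, hk, Or.inl rfl⟩
      · exact ⟨k, hk, Or.inr rfl⟩
  have ci : ∀ K : Finset (Fin n), (K.image π).card = K.card := fun K =>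
    Finset.card_image_of_injective _ π.injective
  constructor
  · intro K hK
    rw [e]
    obtain ⟨U, hU, hUc⟩ := Finset.exists_superset_card_eq (s := K) (n := m + 1) (by omega)
      (by rw [Fintype.card_fin]; omega)
    obtain ⟨V, hV, hVc⟩ := Finset.exists_superset_card_eq (s := K.image π) (n := m) (by rw [ci]; exact hK)
      (by rw [Fintype.card_fin]; omega)
    have h3 := st_indep R a c hU hV (by rw [h1 U V hUc hVc, hUc, hVc]; omega)
    rw [h3, ci]
    omega
  · intro K hK
    rw [e]
    obtain ⟨U, hU, hUc⟩ := Finset.exists_subset_card_eq hK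
    obtain ⟨V, hV, hVc⟩ := Finset.exists_subset_card_eq (s := K.image π) (n := m) (by rw [ci]; omega)
    apply le_antisymm (ha.le _)
    calc n = R.r (st a c U V) := (h1 U V hUc hVc).symm
      _ ≤ _ := R.r_mono (st_mono a c hU hV)

end Pool.Agent.RotaP
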